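import Pool.Agent.Helper37.LT.Defs

/-!
# MP_8bf717_co, project LT: the hexagon `F1` in the coordinates of an apex
-/

set_option autoImplicit false

open MeasureTheory Set

namespace Pool.Agent.Helper37.LT

open Pool.Agent.Helper37.PH Pool.Agent.Helper27.PHU Pool.Agent.Helper39.P5

/-- the top point over `x` and almost tangent lines -/
theorem exists_roof {K : Set (ℝ × ℝ)} (hc : Convex ℝ K) (hk : IsCompact K) {A B : ℝ} (hAB : A < B)
    (hx : ∀ z ∈ K, A ≤ z.1 ∧ z.1 ≤ B) (hA : ∃ z ∈ K, z.1 = A) (hB : ∃ z ∈ K, z.1 = B) {x : ℝ}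
    (h0 : A ≤ x) (h1 : x ≤ B) :
    ∃ p ∈ K, p.1 = x ∧ ∀ δ : ℝ, 0 < δ → ∃ a b : ℝ, (∀ z ∈ K, z.2 ≤ a + b * z.1) ∧
      a + b * x ≤ p.2 + δ := by
  obtain ⟨p, hp, hpx, h⟩ := exists_line hc hk hAB hx hA hB h0 h1
  have hW : 0 < B - A := by linarith
  refine ⟨p, hp, hpx, fun δ hδ => ?_⟩
  obtain ⟨u, v, h2, h3⟩ := h δ hδ
  have e : ∀ y : ℝ, (u - (v - u) / (B - A) * A) + (v - u) / (B - A) * y =
      (u * (B - y) + v * (y - A)) / (B - A) := by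
    intro y
    field_simp
    ring
  refine ⟨u - (v - u) / (B - A) * A, (v - u) / (B - A), ?_, ?_⟩
  · intro z hz
    rw [e, le_div_iff₀ hW]
    exact h2 z hz
  · rw [e, div_le_iff₀ hW]
    exact h3

/-- the bottom point over `x` and almost tangent lines -/
theorem exists_floor {K : Set (ℝ × ℝ)} (hc : Convex ℝ K) (hk : IsCompact K) {A B : ℝ}
    (hAB : A < B) (hx : ∀ z ∈ K, A ≤ z.1 ∧ z.1 ≤ B) (hA : ∃ z ∈ K, z.1 = A)
    (hB : ∃ z ∈ K, z.1 = B) {x : ℝ} (h0 : A ≤ x) (h1 : x ≤ B) :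
    ∃ p ∈ K, p.1 = x ∧ ∀ δ : ℝ, 0 < δ → ∃ a b : ℝ, (∀ z ∈ K, a + b * z.1 ≤ z.2) ∧
      p.2 - δ ≤ a + b * x := by
  have hcm : Convex ℝ (mi K) := by
    have : mi K = (LinearMap.prodMap (LinearMap.id : ℝ →ₗ[ℝ] ℝ) (-LinearMap.id)) '' K := by
      ext z
      simp [mi, LinearMap.prodMap]
    rw [this]
    exact hc.linear_image _
  have hkm : IsCompact (mi K) := hk.image (by fun_prop)
  have mem : ∀ z ∈ K, ((z.1, -z.2) : ℝ × ℝ) ∈ mi K := fun z hz =>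
    mem_mi.2 (by simpa using hz)
  obtain ⟨p, hp, hpx, h⟩ := exists_roof hcm hkm hAB
    (fun z hz => hx ((z.1, -z.2) : ℝ × ℝ) (mem_mi.1 hz))
    (by obtain ⟨z, hz, e⟩ := hA; exact ⟨_, mem z hz, e⟩)
    (by obtain ⟨z, hz, e⟩ := hB; exact ⟨_, mem z hz, e⟩) h0 h1
  refine ⟨(p.1, -p.2), mem_mi.1 hp, hpx, fun δ hδ => ?_⟩
  obtain ⟨a, b, h2, h3⟩ := h δ hδ
  refine ⟨-a, -b, ?_, ?_⟩
  · intro z hz
    have := h2 _ (mem z hz)
    simp only at this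
    linarith
  · simp only
    linarith

/-- the point of a segment over an abscissa -/
theorem seg_mem {K : Set (ℝ × ℝ)} (hc : Convex ℝ K) {x1 y1 x2 y2 x : ℝ}
    (h1 : ((x1, y1) : ℝ × ℝ) ∈ K) (h2 : ((x2, y2) : ℝ × ℝ) ∈ K) (h : x1 < x2) (h3 : x1 ≤ x)
    (h4 : x ≤ x2) : ((x, y1 + (y2 - y1) * ((x - x1) / (x2 - x1))) : ℝ × ℝ) ∈ K := by
  have hd : 0 < x2 - x1 := by linarith
  have h5 : 0 ≤ (x - x1) / (x2 - x1) := div_nonneg (by linarith) hd.le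
  have h6 : (x - x1) / (x2 - x1) ≤ 1 := by
    rw [div_le_one hd]
    linarith
  have := hc h1 h2 (by linarith : 0 ≤ 1 - (x - x1) / (x2 - x1)) h5 (by ring)
  convert this using 1
  apply Prod.ext
  · simp only [Prod.fst_add, Prod.smul_fst, smul_eq_mul]
    field_simp
    ring
  · simp only [Prod.snd_add, Prod.smul_snd, smul_eq_mul]
    ring

/-- bounds for an almost tangent roof line -/
theorem roof_bd {u p x A B : ℝ} (hu0 : 4999 / 10000 ≤ u) (hu1 : u ≤ 5001 / 10000)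
    (hp0 : 276343 / 1000000 ≤ p) (hp1 : p ≤ 276443 / 1000000) (hx0 : 2095 / 10000 ≤ x)
    (hx1 : x ≤ 3095 / 10000) (h0 : 0 ≤ A) (h1 : p ≤ A + B * u)
    (h2 : u * (A + B * x) ≤ p * x + 2 / 100000) :
    A ≤ 1 / 8000 ∧ 552 / 1000 ≤ B ∧ B ≤ 5535 / 10000 := by
  have e1 : A * (u - x) ≤ 2 / 100000 := by nlinarith
  have e2 : A ≤ 1 / 8000 := by
    by_contra hc
    push Not at hc
    nlinarith
  refine ⟨e2, ?_, ?_⟩
  · by_contra hc
    push Not at hc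
    nlinarith
  · by_contra hc
    push Not at hc
    have e3 : B * u * x ≤ p * x + 2 / 100000 := by nlinarith
    have e4 : 276693 / 1000000 ≤ B * u := by nlinarith
    nlinarith

/-- bounds for an almost tangent floor line -/
theorem floor_bd {a g2 g3 c d y : ℝ} (ha0 : 190933 / 1000000 ≤ a) (ha1 : a ≤ 191033 / 1000000)
    (hg20 : 447164 / 1000000 ≤ g2) (hg21 : g2 ≤ 447264 / 1000000)
    (hg30 : 447164 / 1000000 ≤ g3) (hg31 : g3 ≤ 447264 / 1000000)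
    (h0 : c + d * a ≤ -g2) (h1 : c + d * (1 - a) ≤ -g3)
    (h2 : y - 1 / 100000 ≤ c + d * ((1 + a) / 2))
    (h3 : (g2 - g3) * ((1 + a) / 2 - a) - (1 - 2 * a) * (y + g2) ≤ 1 / 100000) :
    (-1 / 1000 ≤ d ∧ d ≤ 1 / 1000) ∧ ∀ x : ℝ, -1 / 10000 ≤ x → x ≤ 10001 / 10000 →
      -448 / 1000 ≤ c + d * x ∧ c + d * x ≤ -446 / 1000 := by
  have f1 : -447346 / 1000000 ≤ y := by
    by_contra hcc
    push Not at hcc
    nlinarith
  have f2 : -447356 / 1000000 ≤ c + d * ((1 + a) / 2) := by linarith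
  have f3 : -1 / 1000 ≤ d := by
    by_contra hcc
    push Not at hcc
    nlinarith
  have f4 : d ≤ 1 / 1000 := by
    by_contra hcc
    push Not at hcc
    nlinarith
  refine ⟨⟨f3, f4⟩, ?_⟩
  intro x hx0 hx1
  constructor <;> nlinarith

/-- the hexagon of three lines -/
theorem hex_cov {K : Set (ℝ × ℝ)} {u a g2 o1 o4 xL yR a1 b1 a2 b2 c2 d2 V : ℝ}
    (hu0 : 4999 / 10000 ≤ u) (hu1 : u ≤ 5001 / 10000)
    (ha0 : 190933 / 1000000 ≤ a) (ha1 : a ≤ 191033 / 1000000)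
    (hg21 : g2 ≤ 447264 / 1000000)
    (ho10 : 0 ≤ o1) (ho11 : o1 ≤ 1 / 10000) (ho40 : 0 ≤ o4) (ho41 : o4 ≤ 1 / 10000)
    (hx : ∀ z ∈ K, -o1 ≤ z.1 ∧ z.1 ≤ 1 + o4)
    (hs2 : ∀ z ∈ K, z.1 ≤ a → -g2 + 1 / 2 * (a - z.1) ≤ z.2)
    (r1 : ∀ z ∈ K, z.2 ≤ a1 + b1 * z.1) (r2 : ∀ z ∈ K, z.2 ≤ a2 + b2 * z.1)
    (r3 : ∀ z ∈ K, c2 + d2 * z.1 ≤ z.2)
    (k6 : c2 + d2 * a ≤ -g2)
    (hxL : xL * (2 * u - a) = u ^ 2) (hyR : yR * (2 * (1 - u) + a) = (1 - u) ^ 2)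
    (hA1 : 0 ≤ a1) (bL1 : a1 ≤ 1 / 8000) (bL2 : 552 / 1000 ≤ b1) (bL3 : b1 ≤ 5535 / 10000)
    (hA2 : 0 ≤ a2 + b2) (bR1 : a2 + b2 ≤ 1 / 8000) (bR2 : 552 / 1000 ≤ -b2)
    (bR3 : -b2 ≤ 5535 / 10000) (f3 : -1 / 1000 ≤ d2)
    (fl : ∀ x : ℝ, -1 / 10000 ≤ x → x ≤ 10001 / 10000 →
      -448 / 1000 ≤ c2 + d2 * x ∧ c2 + d2 * x ≤ -446 / 1000)
    (hV : (u - a / 2) * (a1 + b1 * xL) + (1 - u + a / 2) * (a2 + b2 * (1 - yR)) -
      (c2 + d2 * ((1 + a) / 2)) + 505 / 1000 * o1 + 400 / 1000 * o4 ≤ V) : Cov K V := by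
  have hX : -o1 < 1 + o4 := by linarith
  have fX := fl (1 + o4) (by linarith) (by linarith)
  have fa := fl a (by linarith) (by linarith)
  have fm := fl ((a + (1 + o4)) / 2) (by linarith) (by linarith)
  -- heights of the roof at the walls
  have hb1 : 0 ≤ b1 * o1 := mul_nonneg (by linarith) ho10
  have hb1' : b1 * o1 ≤ 5535 / 10000 * (1 / 10000) :=
    mul_le_mul bL3 ho11 ho10 (by norm_num)
  have hb2 : 0 ≤ -b2 * o4 := mul_nonneg (by linarith) ho40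
  have hb2' : -b2 * o4 ≤ 5535 / 10000 * (1 / 10000) :=
    mul_le_mul bR3 ho41 ho40 (by norm_num)
  have hl0 : -1 / 10000 ≤ a1 + b1 * -o1 := by linarith
  have hl1 : a1 + b1 * -o1 ≤ 1 / 8000 := by linarith
  have hr0 : -1 / 10000 ≤ a2 + b2 * (1 + o4) := by linarith
  have hr1 : a2 + b2 * (1 + o4) ≤ 1 / 8000 := by linarith
  obtain ⟨f0, hf0⟩ : ∃ f0 : ℝ, f0 = (a1 + b1 * -o1) - (a2 + b2 * (1 + o4)) +
    (c2 + d2 * (1 + o4)) := ⟨_, rfl⟩
  have hf0a : f0 ≤ -445 / 1000 := by linarith [fX.2]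
  have hf0b : -449 / 1000 ≤ f0 := by linarith [fX.1]
  have hao : 0 < a + o1 := by linarith
  obtain ⟨d1, hd1⟩ : ∃ d1 : ℝ, d1 * (a + o1) = (c2 + d2 * a) - f0 :=
    ⟨((c2 + d2 * a) - f0) / (a + o1), div_mul_cancel₀ _ hao.ne'⟩
  obtain ⟨c1, hc1⟩ : ∃ c1 : ℝ, c1 = f0 + d1 * o1 := ⟨_, rfl⟩
  have e1 : c1 + d1 * -o1 = f0 := by rw [hc1]; ring
  have e2 : c1 + d1 * a = c2 + d2 * a := by rw [hc1]; linarith
  have p1 : a1 + b1 * -o1 < a2 + b2 * -o1 := by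
    have : 552 / 1000 * (1 + o1) ≤ -b2 * (1 + o1) :=
      mul_le_mul_of_nonneg_right bR2 (by linarith)
    linarith
  have p2 : a2 + b2 * (1 + o4) < a1 + b1 * (1 + o4) := by
    have : 552 / 1000 * (1 + o4) ≤ b1 * (1 + o4) :=
      mul_le_mul_of_nonneg_right bL2 (by linarith)
    linarith
  have p3 : c1 + d1 * a < a1 + b1 * a := by
    have : 0 ≤ b1 * a := mul_nonneg (by linarith) (by linarith)
    rw [e2]
    linarith [fa.2]
  have p4 : c1 + d1 * a < a2 + b2 * a := by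
    have : 0 ≤ -b2 * (1 - a) := mul_nonneg (by linarith) (by linarith)
    rw [e2]
    linarith [fa.2]
  have p5 : ∀ z ∈ K, z.1 ≤ a → c1 + d1 * z.1 ≤ z.2 := by
    intro z hz hza
    have g1 := hs2 z hz hza
    have g2' := (hx z hz).1
    have g3' : (a + o1) * (c1 + d1 * z.1) = (a - z.1) * f0 + (z.1 + o1) * (c2 + d2 * a) := by
      rw [← e2, ← e1]; ring
    have g4 : (a + o1) * (-g2 + 1 / 2 * (a - z.1)) = (a - z.1) * (-g2 + 1 / 2 * (a + o1)) +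
        (z.1 + o1) * (-g2) := by ring
    have g5 : (a - z.1) * f0 ≤ (a - z.1) * (-g2 + 1 / 2 * (a + o1)) :=
      mul_le_mul_of_nonneg_left (by linarith) (by linarith)
    have g6 : (z.1 + o1) * (c2 + d2 * a) ≤ (z.1 + o1) * (-g2) :=
      mul_le_mul_of_nonneg_left (by linarith) (by linarith)
    have g7 : (a + o1) * (c1 + d1 * z.1) ≤ (a + o1) * (-g2 + 1 / 2 * (a - z.1)) := by
      rw [g3', g4]; linarith
    have g8 := le_of_mul_le_mul_left g7 hao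
    linarith
  obtain ⟨B1, hB1⟩ : ∃ B1 : ℝ, B1 = a1 - b1 * o1 / 2 + a / 2 * b1 -
    1 / 2 * ((a1 + b1 * -o1) - (a2 + b2 * (1 + o4))) - (c2 + d2 * ((a + (1 + o4)) / 2)) :=
    ⟨_, rfl⟩
  obtain ⟨B4, hB4⟩ : ∃ B4 : ℝ, B4 = a2 + b2 * (1 + o4 / 2) + a / 2 * b2 - d2 / 2 -
    (c2 + d2 * ((a + (1 + o4)) / 2)) := ⟨_, rfl⟩
  have hab1 : a * b1 ≤ 191033 / 1000000 * (5535 / 10000) :=
    mul_le_mul ha1 bL3 (by linarith) (by norm_num)
  have hab2 : 190933 / 1000000 * (552 / 1000) ≤ a * -b2 :=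
    mul_le_mul ha0 bR2 (by norm_num) (by linarith)
  have hB1' : B1 ≤ 505 / 1000 := by
    rw [hB1]
    linarith [fm.1]
  have hB4' : B4 ≤ 400 / 1000 := by
    rw [hB4]
    linarith [fm.1]
  have w3 := mul_le_mul_of_nonneg_left hB1' ho10
  have w4 := mul_le_mul_of_nonneg_left hB4' ho40
  have key : (u - -o1) * (a1 + b1 * ((-o1 + u) / 2)) +
      (1 + o4 - u) * (a2 + b2 * ((u + (1 + o4)) / 2)) -
      ((a - -o1) * (c1 + d1 * ((-o1 + a) / 2)) + (1 + o4 - a) *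
      (c2 + d2 * ((a + (1 + o4)) / 2))) =
      (u - a / 2) * (a1 + b1 * xL) + (1 - u + a / 2) * (a2 + b2 * (1 - yR)) -
      (c2 + d2 * ((1 + a) / 2)) + o1 * B1 + o4 * B4 := by
    have e3 : (a - -o1) * (c1 + d1 * ((-o1 + a) / 2)) =
        (a + o1) / 2 * (f0 + (c2 + d2 * a)) := by
      rw [← e2, ← e1]; ring
    rw [e3, hB1, hB4, hf0]
    linear_combination (-b1 / 2) * hxL + b2 / 2 * hyR
  have p6 : c1 + d1 * -o1 < a1 + b1 * -o1 := by rw [e1]; linarith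
  have p7 : (a1 + b1 * -o1) - (c1 + d1 * -o1) =
      (a2 + b2 * (1 + o4)) - (c2 + d2 * (1 + o4)) := by rw [e1, hf0]; ring
  exact cov_kink (X0 := -o1) (X1 := 1 + o4) (l := a) (a1 := a1) (b1 := b1) (a2 := a2) (b2 := b2)
    (c1 := c1) (d1 := d1) (c2 := c2) (d2 := d2) (p := u) hX (by linarith) (by linarith) hx
    (fun z hz => ⟨r1 z hz, r2 z hz⟩) p5 (fun z hz _ => r3 z hz) e2 p1 p2 p6 p7 p3 p4
    (by linarith) (by linarith) (by rw [key]; linarith)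

/-- The hexagon `F1`: roof kink over the apex, floor kink over `v2`, left floor free. -/
theorem Fr.F1 {K : Set (ℝ × ℝ)} {u p a g2 g3 o1 o4 : ℝ} (h : Fr K u p a g2 g3 o1 o4) {c : ℝ}
    (hc : ¬ Cov K c) :
    ∃ q0 ∈ K, ∃ q4 ∈ K, ∃ q2 ∈ K, q0.1 * (2 * u - a) = u ^ 2 ∧
      (1 - q4.1) * (2 * (1 - u) + a) = (1 - u) ^ 2 ∧ q2.1 = (1 + a) / 2 ∧
      p * q0.1 ≤ u * q0.2 ∧ p * (1 - q4.1) ≤ (1 - u) * q4.2 ∧
      (1 - 2 * a) * (q2.2 + g2) ≤ (g2 - g3) * (q2.1 - a) ∧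
      c ≤ (u - a / 2) * q0.2 + (1 - u + a / 2) * q4.2 - q2.2 + 505 / 1000 * o1 +
        400 / 1000 * o4 := by
  have b := h.body
  have hu0 := h.u0
  have hu1 := h.u1
  have hp0 := h.p0
  have hp1 := h.p1
  have ha0 := h.a0
  have ha1 := h.a1
  have hg20 := h.g20
  have hg21 := h.g21
  have hg30 := h.g30
  have hg31 := h.g31
  have ho10 := h.o10
  have ho11 := h.o11
  have ho40 := h.o40
  have ho41 := h.o41
  have hX : -o1 < 1 + o4 := by linarith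
  have hx : ∀ z ∈ K, -o1 ≤ z.1 ∧ z.1 ≤ 1 + o4 := fun z hz => ⟨h.x0 z hz, h.x1 z hz⟩
  -- contact abscissas
  obtain ⟨xL, hxL⟩ : ∃ x : ℝ, x * (2 * u - a) = u ^ 2 :=
    ⟨u ^ 2 / (2 * u - a), div_mul_cancel₀ _ (by linarith)⟩
  obtain ⟨yR, hyR⟩ : ∃ x : ℝ, x * (2 * (1 - u) + a) = (1 - u) ^ 2 :=
    ⟨(1 - u) ^ 2 / (2 * (1 - u) + a), div_mul_cancel₀ _ (by linarith)⟩
  have hxL0 : 3085 / 10000 ≤ xL := by nlinarith
  have hxL1 : xL ≤ 3095 / 10000 := by nlinarith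
  have hyR0 : 2095 / 10000 ≤ yR := by nlinarith
  have hyR1 : yR ≤ 2105 / 10000 := by nlinarith
  obtain ⟨q0, hq0, hq0x, L0⟩ := exists_roof b.convex b.compact hX hx h.w1 h.w4
    (x := xL) (by linarith) (by linarith)
  obtain ⟨q4, hq4, hq4x, L4⟩ := exists_roof b.convex b.compact hX hx h.w1 h.w4
    (x := 1 - yR) (by linarith) (by linarith)
  obtain ⟨q2, hq2, hq2x, L2⟩ := exists_floor b.convex b.compact hX hx h.w1 h.w4
    (x := (1 + a) / 2) (by linarith) (by linarith)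
  -- the contact points are beyond the sides
  have T0 : p * q0.1 ≤ u * q0.2 := by
    by_contra hcon
    push Not at hcon
    have hs := seg_mem b.convex h.m1 h.m0 (by linarith) (x := xL) (by linarith) (by linarith)
    obtain ⟨a1, b1, g1, g2'⟩ := L0 ((p * q0.1 - u * q0.2) / 2) (by linarith)
    have g3' := g1 _ hs
    simp only at g3'
    have e : (0 + (p - 0) * ((xL - 0) / (u - 0))) * u = p * xL := by
      have : u ≠ 0 := by intro hu; rw [hu] at hu0; norm_num at hu0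
      field_simp
      ring
    rw [hq0x] at hcon g2'
    have h6 : (0 + (p - 0) * ((xL - 0) / (u - 0))) ≤ q0.2 + (p * xL - u * q0.2) / 2 := by
      linarith
    have h7 := mul_le_mul_of_nonneg_right h6 (by linarith : (0 : ℝ) ≤ u)
    rw [e] at h7
    nlinarith
  have T4 : p * (1 - q4.1) ≤ (1 - u) * q4.2 := by
    by_contra hcon
    push Not at hcon
    have hs := seg_mem b.convex h.m0 h.m4 (by linarith) (x := 1 - yR) (by linarith) (by linarith)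
    obtain ⟨a1, b1, g1, g2'⟩ := L4 ((p * (1 - q4.1) - (1 - u) * q4.2) / 2) (by linarith)
    have g3' := g1 _ hs
    simp only at g3'
    have e : (p + (0 - p) * ((1 - yR - u) / (1 - u))) * (1 - u) = p * yR := by
      have : (1 - u) ≠ 0 := by intro hu; linarith
      field_simp
      ring
    rw [hq4x] at hcon g2'
    have h6 : (p + (0 - p) * ((1 - yR - u) / (1 - u))) ≤
        q4.2 + (p * (1 - (1 - yR)) - (1 - u) * q4.2) / 2 := by
      linarith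
    have h7 := mul_le_mul_of_nonneg_right h6 (by linarith : (0 : ℝ) ≤ 1 - u)
    rw [e] at h7
    nlinarith
  have T2 : (1 - 2 * a) * (q2.2 + g2) ≤ (g2 - g3) * (q2.1 - a) := by
    by_contra hcon
    push Not at hcon
    have hs := seg_mem b.convex h.m2 h.m3 (by linarith) (x := (1 + a) / 2) (by linarith)
      (by linarith)
    obtain ⟨a1, b1, g1, g2'⟩ := L2 (((1 - 2 * a) * (q2.2 + g2) - (g2 - g3) * (q2.1 - a)) / 2)
      (by linarith)
    have g3' := g1 _ hs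
    simp only at g3'
    have e : (-g2 + (-g3 - -g2) * (((1 + a) / 2 - a) / (1 - a - a))) * (1 - 2 * a) =
        -g2 * (1 - 2 * a) + (g2 - g3) * ((1 + a) / 2 - a) := by
      have : (1 - a - a) ≠ 0 := by intro hu; linarith
      field_simp
      ring
    rw [hq2x] at hcon g2'
    have h6 : q2.2 - ((1 - 2 * a) * (q2.2 + g2) - (g2 - g3) * ((1 + a) / 2 - a)) / 2 ≤
        (-g2 + (-g3 - -g2) * (((1 + a) / 2 - a) / (1 - a - a))) := by
      linarith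
    have h7 := mul_le_mul_of_nonneg_right h6 (by linarith : (0 : ℝ) ≤ 1 - 2 * a)
    rw [e] at h7
    nlinarith
  refine ⟨q0, hq0, q4, hq4, q2, hq2, by rw [hq0x]; exact hxL, by
    rw [hq4x]
    have e : 1 - (1 - yR) = yR := by ring
    rw [e]
    exact hyR, hq2x, T0, T4, T2, ?_⟩
  by_contra hcon
  push Not at hcon
  obtain ⟨δ, hδ, hδ1, hδ2⟩ : ∃ δ : ℝ, 0 < δ ∧ δ ≤ 1 / 100000 ∧
      (u - a / 2) * q0.2 + (1 - u + a / 2) * q4.2 - q2.2 + 505 / 1000 * o1 +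
        400 / 1000 * o4 + 2 * δ ≤ c := by
    refine ⟨min (1 / 100000) ((c - ((u - a / 2) * q0.2 + (1 - u + a / 2) * q4.2 - q2.2 +
      505 / 1000 * o1 + 400 / 1000 * o4)) / 2), ?_, min_le_left _ _, ?_⟩
    · apply lt_min
      · norm_num
      · linarith
    · have := min_le_right (1 / 100000 : ℝ) ((c - ((u - a / 2) * q0.2 + (1 - u + a / 2) * q4.2 -
        q2.2 + 505 / 1000 * o1 + 400 / 1000 * o4)) / 2)
      linarith
  obtain ⟨a1, b1, r1, r1'⟩ := L0 δ hδ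
  obtain ⟨a2, b2, r2, r2'⟩ := L4 δ hδ
  obtain ⟨c2, d2, r3, r3'⟩ := L2 δ hδ
  apply hc
  refine Pool.Agent.Helper83.PHU.cov_mono (K := K) ?_ (Subset.refl K) hδ2
  -- bounds for the three lines
  have k0 := r1 _ h.m1
  have k1 := r1 _ h.m0
  have k2 := h.th0 _ hq0
  have k3 := r2 _ h.m4
  have k4 := r2 _ h.m0
  have k5 := h.th4 _ hq4
  have k6 := r3 _ h.m2
  have k7 := r3 _ h.m3
  have k8 := h.th2 _ hq2
  simp only at k0 k1 k3 k4 k6 k7
  rw [hq0x] at k2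
  rw [hq4x] at k5
  rw [hq2x] at k8
  have w0 : u * (a1 + b1 * xL) ≤ u * (q0.2 + δ) :=
    mul_le_mul_of_nonneg_left r1' (by linarith)
  have w0' : u * δ ≤ 1 * (1 / 100000) := mul_le_mul (by linarith) hδ1 hδ.le (by norm_num)
  have w5 : (1 - u) * (a2 + b2 * (1 - yR)) ≤ (1 - u) * (q4.2 + δ) :=
    mul_le_mul_of_nonneg_left r2' (by linarith)
  have w5' : (1 - u) * δ ≤ 1 * (1 / 100000) :=
    mul_le_mul (by linarith) hδ1 hδ.le (by norm_num)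
  obtain ⟨bL1, bL2, bL3⟩ := roof_bd (A := a1) (B := b1) hu0 hu1 hp0 hp1 (by linarith) hxL1
    (by linarith) (by linarith) (by linarith)
  obtain ⟨bR1, bR2, bR3⟩ := roof_bd (u := 1 - u) (p := p) (x := yR) (A := a2 + b2) (B := -b2)
    (by linarith) (by linarith) hp0 hp1 hyR0 (by linarith) (by linarith) (by linarith)
    (by linarith)
  obtain ⟨⟨f3, -⟩, fl⟩ := floor_bd ha0 ha1 hg20 hg21 hg30 hg31 k6 k7 (by linarith) k8
  have w1 : (u - a / 2) * (a1 + b1 * xL) ≤ (u - a / 2) * (q0.2 + δ) :=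
    mul_le_mul_of_nonneg_left r1' (by linarith)
  have w2 : (1 - u + a / 2) * (a2 + b2 * (1 - yR)) ≤ (1 - u + a / 2) * (q4.2 + δ) :=
    mul_le_mul_of_nonneg_left r2' (by linarith)
  exact hex_cov hu0 hu1 ha0 ha1 hg21 ho10 ho11 ho40 ho41 hx h.s2 r1 r2 r3 k6 hxL hyR
    (by linarith) bL1 bL2 bL3 (by linarith) bR1 bR2 bR3 f3 fl (by linarith)

end Pool.Agent.Helper37.LT
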