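import Pool.Agent.Helper37.LT.ToFr
import Pool.Agent.Helper37.LT.Fr

/-!
# MP_8bf717_co, project LT: the two hexagons of an apex in invariant form
-/

set_option autoImplicit false

open MeasureTheory Set

namespace Pool.Agent.Helper37.LT

open Pool.Agent.Helper37.PH Pool.Agent.Helper27.PHU Pool.Agent.Helper39.P5
open Pool.Agent.Helper61.PH Pool.Agent.Helper83.PHU

/-- contact point beyond the side `v w`, over the fraction `x`; `c` is the opposite vertex -/
structure Ct (K : Set (ℝ × ℝ)) (c v w z : ℝ × ℝ) (x : ℝ) : Prop where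
  mem : z ∈ K
  out : tr v w z ≤ 0
  pos : Pos c v z x

/-- a point beyond the side `v w` close to `v` -/
structure TipL (K : Set (ℝ × ℝ)) (c v w z : ℝ × ℝ) : Prop where
  mem : z ∈ K
  out : tr v w z ≤ 0
  p0 : 0 ≤ tr c v z
  p1 : tr c v z ≤ 6 * -tr v w z

/-- a point beyond the side `v w` close to `w` -/
structure TipR (K : Set (ℝ × ℝ)) (c v w z : ℝ × ℝ) : Prop where
  mem : z ∈ K
  out : tr v w z ≤ 0
  p0 : tr c v z ≤ tr c v w
  p1 : tr c v w - tr c v z ≤ 6 * -tr v w z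

/-- The two hexagons of the apex `v0`. -/
structure Apex (K : Set (ℝ × ℝ)) (v0 v1 v2 v3 v4 : ℝ × ℝ) (c lam : ℝ)
    (M N q0 q4 q2 r0 r4 r2 : ℝ × ℝ) : Prop where
  l0 : 3 / 10 ≤ lam
  tM : TipL K v4 v1 v2 M
  tN : TipR K v1 v3 v4 N
  cq0 : Ct K v3 v0 v1 q0 (381966 / 1000000)
  cq4 : Ct K v2 v4 v0 q4 (419821 / 1000000)
  cq2 : Ct K v0 v2 v3 q2 (654508 / 1000000)
  cr0 : Ct K v3 v0 v1 r0 (580179 / 1000000)
  cr4 : Ct K v2 v4 v0 r4 (618034 / 1000000)
  cr2 : Ct K v0 v2 v3 r2 (345492 / 1000000)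
  i1 : c ≤ sh v0 v1 v2 v3 v4 - (tr v4 v0 v1 + tr v1 v2 v3 + tr v2 v3 v4) / 2 +
    lam * (tr v2 v3 v4 - tr v1 v2 v3) / 2 + 8092 / 10000 * -tr v0 v1 q0 +
    11912 / 10000 * -tr v4 v0 q4 + 16186 / 10000 * -tr v2 v3 q2 +
    114 / 100 * -tr v1 v2 M + 91 / 100 * -tr v3 v4 N
  i3 : c ≤ sh v0 v1 v2 v3 v4 - (tr v4 v0 v1 + tr v1 v2 v3 + tr v2 v3 v4) / 2 -
    lam * (tr v2 v3 v4 - tr v1 v2 v3) / 2 + 8092 / 10000 * -tr v4 v0 r4 +
    11912 / 10000 * -tr v0 v1 r0 + 16186 / 10000 * -tr v2 v3 r2 +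
    91 / 100 * -tr v1 v2 M + 114 / 100 * -tr v3 v4 N

/-- abscissa and ordinate of a contact point of the roof -/
theorem roof_num {u a p x y : ℝ} (u0 : 4999 / 10000 ≤ u) (u1 : u ≤ 5001 / 10000)
    (p0 : 276343 / 1000000 ≤ p) (p1 : p ≤ 276443 / 1000000)
    (a0 : 190933 / 1000000 ≤ a) (a1 : a ≤ 191033 / 1000000)
    (hx : x * (2 * u - a) = u ^ 2) (hy : p * x ≤ u * y) (hy1 : u * y - p * x ≤ 1 / 100000) :
    (30894 / 100000 ≤ x ∧ x ≤ 30910 / 100000) ∧ (17065 / 100000 ≤ y ∧ y ≤ 17100 / 100000) := by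
  have x0 : 30894 / 100000 ≤ x := by
    by_contra hc
    push Not at hc
    nlinarith
  have x1 : x ≤ 30910 / 100000 := by
    by_contra hc
    push Not at hc
    nlinarith
  refine ⟨⟨x0, x1⟩, ?_, ?_⟩
  · by_contra hc
    push Not at hc
    have h1 : 276343 / 1000000 * (30894 / 100000) ≤ p * x :=
      mul_le_mul p0 x0 (by norm_num) (by linarith)
    nlinarith
  · by_contra hc
    push Not at hc
    have h1 : p * x ≤ 276443 / 1000000 * (30910 / 100000) :=
      mul_le_mul p1 x1 (by linarith) (by norm_num)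
    nlinarith

theorem roof_num' {u a p x y : ℝ} (u0 : 4999 / 10000 ≤ u) (u1 : u ≤ 5001 / 10000)
    (p0 : 276343 / 1000000 ≤ p) (p1 : p ≤ 276443 / 1000000)
    (a0 : 190933 / 1000000 ≤ a) (a1 : a ≤ 191033 / 1000000)
    (hx : x * (2 * u + a) = u ^ 2) (hy : p * x ≤ u * y) (hy1 : u * y - p * x ≤ 1 / 100000) :
    (20985 / 100000 ≤ x ∧ x ≤ 20997 / 100000) ∧ (11590 / 100000 ≤ y ∧ y ≤ 11620 / 100000) := by
  have x0 : 20985 / 100000 ≤ x := by
    by_contra hc
    push Not at hc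
    nlinarith
  have x1 : x ≤ 20997 / 100000 := by
    by_contra hc
    push Not at hc
    nlinarith
  refine ⟨⟨x0, x1⟩, ?_, ?_⟩
  · by_contra hc
    push Not at hc
    have h1 : 276343 / 1000000 * (20985 / 100000) ≤ p * x :=
      mul_le_mul p0 x0 (by norm_num) (by linarith)
    nlinarith
  · by_contra hc
    push Not at hc
    have h1 : p * x ≤ 276443 / 1000000 * (20997 / 100000) :=
      mul_le_mul p1 x1 (by linarith) (by norm_num)
    nlinarith

theorem floor_num {a g2 g3 x y : ℝ} (a0 : 190933 / 1000000 ≤ a) (a1 : a ≤ 191033 / 1000000)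
    (g20 : 447164 / 1000000 ≤ g2) (g21 : g2 ≤ 447264 / 1000000)
    (g30 : 447164 / 1000000 ≤ g3) (g31 : g3 ≤ 447264 / 1000000)
    (x0 : a ≤ x) (x1 : x ≤ 1 - a)
    (hy : (1 - 2 * a) * (y + g2) ≤ (g2 - g3) * (x - a))
    (hy1 : (g2 - g3) * (x - a) - (1 - 2 * a) * (y + g2) ≤ 1 / 100000) :
    -4475 / 10000 ≤ y ∧ y ≤ -4470 / 10000 := by
  have b1 : |(g2 - g3) * (x - a)| ≤ 1 / 10000 * 1 := by
    rw [abs_mul]
    apply mul_le_mul _ _ (abs_nonneg _) (by norm_num)
    · rw [abs_le]; constructor <;> linarith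
    · rw [abs_le]; constructor <;> linarith
  rw [abs_le] at b1
  constructor
  · by_contra hc
    push Not at hc
    nlinarith
  · by_contra hc
    push Not at hc
    nlinarith

/-- a difference of two products -/
theorem pos_of_prod {A B C D lA uA lB uB lC uC lD uD lo hi : ℝ} (A0 : lA ≤ A) (A1 : A ≤ uA)
    (B0 : lB ≤ B) (B1 : B ≤ uB) (C0 : lC ≤ C) (C1 : C ≤ uC) (D0 : lD ≤ D) (D1 : D ≤ uD)
    (pA : 0 ≤ lA) (pB : 0 ≤ lB) (pC : 0 ≤ lC) (pD : 0 ≤ lD) (h0 : lo ≤ lC * lD - uA * uB)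
    (h1 : uC * uD - lA * lB ≤ hi) : lo ≤ C * D - A * B ∧ C * D - A * B ≤ hi := by
  have a1 : A * B ≤ uA * uB := mul_le_mul A1 B1 (by linarith) (by linarith)
  have a2 : lA * lB ≤ A * B := mul_le_mul A0 B0 pB (by linarith)
  have a3 : C * D ≤ uC * uD := mul_le_mul C1 D1 (by linarith) (by linarith)
  have a4 : lC * lD ≤ C * D := mul_le_mul C0 D0 pD (by linarith)
  constructor <;> linarith

theorem pos_add_prod {A B C D lA uA lB uB lC uC lD uD lo hi : ℝ} (A0 : lA ≤ A) (A1 : A ≤ uA)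
    (B0 : lB ≤ B) (B1 : B ≤ uB) (C0 : lC ≤ C) (C1 : C ≤ uC) (D0 : lD ≤ D) (D1 : D ≤ uD)
    (pA : 0 ≤ lA) (pB : 0 ≤ lB) (pC : 0 ≤ lC) (pD : 0 ≤ lD) (h0 : lo ≤ lC * lD + lA * lB)
    (h1 : uC * uD + uA * uB ≤ hi) : lo ≤ C * D + A * B ∧ C * D + A * B ≤ hi := by
  have a1 : A * B ≤ uA * uB := mul_le_mul A1 B1 (by linarith) (by linarith)
  have a2 : lA * lB ≤ A * B := mul_le_mul A0 B0 pB (by linarith)
  have a3 : C * D ≤ uC * uD := mul_le_mul C1 D1 (by linarith) (by linarith)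
  have a4 : lC * lD ≤ C * D := mul_le_mul C0 D0 pD (by linarith)
  constructor <;> linarith

theorem roof_cost {u a p x y : ℝ} (u0 : 4999 / 10000 ≤ u) (u1 : u ≤ 5001 / 10000)
    (a0 : 190933 / 1000000 ≤ a) (hx : x * (2 * u - a) = u ^ 2) (hy : p * x ≤ u * y) :
    (u - a / 2) * y ≤ 8092 / 10000 * (u * y - p * x) + p * u / 2 := by
  have h1 : (u - a / 2) * (u * y - p * x) ≤ 8092 / 10000 * u * (u * y - p * x) :=
    mul_le_mul_of_nonneg_right (by linarith) (by linarith)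
  have h2 : u * ((u - a / 2) * y) = (u - a / 2) * (u * y - p * x) + p * u ^ 2 / 2 := by
    linear_combination (p / 2) * hx
  have h3 : u * ((u - a / 2) * y) ≤ u * (8092 / 10000 * (u * y - p * x) + p * u / 2) := by
    rw [h2]
    linarith
  exact le_of_mul_le_mul_left h3 (by linarith)

theorem roof_cost' {u a p x y : ℝ} (u0 : 4999 / 10000 ≤ u) (u1 : u ≤ 5001 / 10000)
    (a1 : a ≤ 191033 / 1000000) (hx : x * (2 * u + a) = u ^ 2) (hy : p * x ≤ u * y) :
    (u + a / 2) * y ≤ 11912 / 10000 * (u * y - p * x) + p * u / 2 := by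
  have h1 : (u + a / 2) * (u * y - p * x) ≤ 11912 / 10000 * u * (u * y - p * x) :=
    mul_le_mul_of_nonneg_right (by linarith) (by linarith)
  have h2 : u * ((u + a / 2) * y) = (u + a / 2) * (u * y - p * x) + p * u ^ 2 / 2 := by
    linear_combination (p / 2) * hx
  have h3 : u * ((u + a / 2) * y) ≤ u * (11912 / 10000 * (u * y - p * x) + p * u / 2) := by
    rw [h2]
    linarith
  exact le_of_mul_le_mul_left h3 (by linarith)

theorem floor_cost {a g2 g3 lam x y : ℝ} (a1 : a ≤ 191033 / 1000000)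
    (hlam : lam * (1 - 2 * a) = a) (hx : x = (1 + a) / 2)
    (hy : (1 - 2 * a) * (y + g2) ≤ (g2 - g3) * (x - a)) :
    -y ≤ 16186 / 10000 * ((g2 - g3) * (x - a) - (1 - 2 * a) * (y + g2)) + (g2 + g3) / 2 -
      lam * (g2 - g3) / 2 := by
  subst hx
  set T := (g2 - g3) * ((1 + a) / 2 - a) - (1 - 2 * a) * (y + g2) with hT
  have hT0 : 0 ≤ T := by linarith
  have h0 : 0 < 1 - 2 * a := by linarith
  have h1 : T ≤ (1 - 2 * a) * (16186 / 10000 * T) := by
    have : 1 * T ≤ ((1 - 2 * a) * (16186 / 10000)) * T :=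
      mul_le_mul_of_nonneg_right (by linarith) hT0
    linarith
  have h2 : (1 - 2 * a) * -y = T + (1 - 2 * a) * ((g2 + g3) / 2 - lam * (g2 - g3) / 2) := by
    rw [hT]
    linear_combination ((g2 - g3) / 2) * hlam
  have h3 : (1 - 2 * a) * -y ≤ (1 - 2 * a) * (16186 / 10000 * T + (g2 + g3) / 2 -
      lam * (g2 - g3) / 2) := by
    rw [h2]
    linarith
  exact le_of_mul_le_mul_left h3 h0

theorem Near.apex {K : Set (ℝ × ℝ)} {v0 v1 v2 v3 v4 : ℝ × ℝ} (h : Near K v0 v1 v2 v3 v4) {c : ℝ}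
    (hc : ¬ Cov K c) :
    ∃ lam M N q0 q4 q2 r0 r4 r2, Apex K v0 v1 v2 v3 v4 c lam M N q0 q4 q2 r0 r4 r2 := by
  obtain ⟨A, u, p, a, g2, g3, o1, o4, hcov, hT, A0, A1, A2, A3, A4, hF⟩ := h.fr
  have hc1 : ¬ Cov (A '' K) c := fun hh => hc (hcov _ hh)
  have hc3 : ¬ Cov (flipX (A '' K)) c := fun hh => hc1 (Cov_flipX hh)
  have u0 := hF.u0
  have u1 := hF.u1
  have p0 := hF.p0
  have p1 := hF.p1
  have a0 := hF.a0
  have a1 := hF.a1
  have g20 := hF.g20
  have g21 := hF.g21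
  have g30 := hF.g30
  have g31 := hF.g31
  have o10 := hF.o10
  have o40 := hF.o40
  obtain ⟨_, ⟨q0, hq0, rfl⟩, _, ⟨q4, hq4, rfl⟩, _, ⟨q2, hq2, rfl⟩, x0, x4, x2, t0, t4, t2, hi1⟩ :=
    hF.F1 hc1
  obtain ⟨_, ⟨_, ⟨r4, hr4, rfl⟩, rfl⟩, _, ⟨_, ⟨r0, hr0, rfl⟩, rfl⟩, _, ⟨_, ⟨r2, hr2, rfl⟩, rfl⟩,
    y0, y4, y2, s0, s4, s2, hi3⟩ := hF.flip.F1 hc3
  obtain ⟨_, ⟨M, hM, rfl⟩, eM⟩ := hF.w1
  obtain ⟨_, ⟨N, hN, rfl⟩, eN⟩ := hF.w4
  simp only at y0 y4 y2 s0 s4 s2 hi3
  obtain ⟨lam, hlam⟩ : ∃ lam : ℝ, lam * (1 - 2 * a) = a :=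
    ⟨a / (1 - 2 * a), div_mul_cancel₀ _ (by linarith)⟩
  have hlam0 : 3 / 10 ≤ lam := by
    by_contra hcc
    push Not at hcc
    nlinarith
  -- the side functionals
  have F0 : ∀ z : ℝ × ℝ, -tr v0 v1 z = u * (A z).2 - p * (A z).1 := by
    intro z
    rw [← hT, A0, A1, tr_eq]
    simp only
    ring
  have F1 : ∀ z : ℝ × ℝ, -tr v1 v2 z = -(a * (A z).2 + g2 * (A z).1) := by
    intro z
    rw [← hT, A1, A2, tr_eq]
    simp only
    ring
  have F2 : ∀ z : ℝ × ℝ, -tr v2 v3 z = (g2 - g3) * ((A z).1 - a) -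
      (1 - 2 * a) * ((A z).2 + g2) := by
    intro z
    rw [← hT, A2, A3, tr_eq]
    simp only
    ring
  have F3 : ∀ z : ℝ × ℝ, -tr v3 v4 z = -(a * (A z).2 + g3 * (1 - (A z).1)) := by
    intro z
    rw [← hT, A3, A4, tr_eq]
    simp only
    ring
  have F4 : ∀ z : ℝ × ℝ, -tr v4 v0 z = (1 - u) * (A z).2 - p * (1 - (A z).1) := by
    intro z
    rw [← hT, A4, A0, tr_eq]
    simp only
    ring
  -- the position functionals
  have G0 : ∀ z : ℝ × ℝ, tr v3 v0 z = (p + g3) * (1 - a - (A z).1) -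
      (1 - a - u) * ((A z).2 + g3) := by
    intro z
    rw [← hT, A3, A0, tr_eq]
    simp only
    ring
  have G4 : ∀ z : ℝ × ℝ, tr v2 v4 z = (1 - a) * ((A z).2 + g2) - g2 * ((A z).1 - a) := by
    intro z
    rw [← hT, A2, A4, tr_eq]
    simp only
    ring
  have G2 : ∀ z : ℝ × ℝ, tr v0 v2 z = (g2 + p) * ((A z).1 - u) + (u - a) * (p - (A z).2) := by
    intro z
    rw [← hT, A0, A2, tr_eq]
    simp only
    ring
  have G1 : ∀ z : ℝ × ℝ, tr v4 v1 z = -(A z).2 := by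
    intro z
    rw [← hT, A4, A1, tr_eq]
    simp only
    ring
  have G3 : ∀ z : ℝ × ℝ, tr v1 v3 z = (1 - a) * (A z).2 + g3 * (A z).1 := by
    intro z
    rw [← hT, A1, A3, tr_eq]
    simp only
    ring
  -- thinness
  have w0 : ∀ z ∈ K, u * (A z).2 - p * (A z).1 ≤ 1 / 100000 := fun z hz =>
    hF.th0 _ ⟨z, hz, rfl⟩
  have w4 : ∀ z ∈ K, (1 - u) * (A z).2 - p * (1 - (A z).1) ≤ 1 / 100000 := fun z hz =>
    hF.th4 _ ⟨z, hz, rfl⟩
  have w2 : ∀ z ∈ K, (g2 - g3) * ((A z).1 - a) - (1 - 2 * a) * ((A z).2 + g2) ≤ 1 / 100000 :=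
    fun z hz => hF.th2 _ ⟨z, hz, rfl⟩
  -- coordinates of the six contact points
  obtain ⟨⟨b1, b2⟩, b3, b4⟩ := roof_num u0 u1 p0 p1 a0 a1 x0 t0 (w0 q0 hq0)
  obtain ⟨⟨b5, b6⟩, b7, b8⟩ := roof_num' (u := 1 - u) (by linarith) (by linarith) p0 p1 a0 a1 x4
    t4 (w4 q4 hq4)
  obtain ⟨b9, b10⟩ := floor_num a0 a1 g20 g21 g30 g31 (by rw [x2]; linarith)
    (by rw [x2]; linarith) t2 (w2 q2 hq2)
  obtain ⟨⟨d1, d2⟩, d3, d4⟩ := roof_num (u := 1 - u) (by linarith) (by linarith) p0 p1 a0 a1 y0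
    s0 (w4 r4 hr4)
  have y4' : (A r0).1 * (2 * u + a) = u ^ 2 := by
    have e1 : (A r0).1 * (2 * u + a) = (1 - (1 - (A r0).1)) * (2 * (1 - (1 - u)) + a) := by ring
    rw [e1, y4]; ring
  have s4' : p * (A r0).1 ≤ u * (A r0).2 := by
    have e1 : p * (A r0).1 = p * (1 - (1 - (A r0).1)) := by ring
    have e2 : u * (A r0).2 = (1 - (1 - u)) * (A r0).2 := by ring
    rw [e1, e2]; exact s4
  obtain ⟨⟨d5, d6⟩, d7, d8⟩ := roof_num' u0 u1 p0 p1 a0 a1 y4' s4' (w0 r0 hr0)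
  have w2' : (g3 - g2) * ((1 - (A r2).1) - a) - (1 - 2 * a) * ((A r2).2 + g3) ≤ 1 / 100000 := by
    have := w2 r2 hr2
    linarith
  obtain ⟨d9, d10⟩ := floor_num (x := 1 - (A r2).1) a0 a1 g30 g31 g20 g21 (by rw [y2]; linarith)
    (by rw [y2]; linarith) s2 w2'
  -- the tips
  have hM2 := hF.s1 _ ⟨M, hM, rfl⟩ (by rw [eM]; linarith)
  have hN2 := hF.s4 _ ⟨N, hN, rfl⟩ (by rw [eN]; linarith)
  rw [eM] at hM2
  rw [eN] at hN2
  have aM : 0 ≤ a * -(A M).2 := mul_nonneg (by linarith) (by linarith)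
  have aN : 0 ≤ a * -(A N).2 := mul_nonneg (by linarith) (by linarith)
  have gM : 0 ≤ g2 * o1 := mul_nonneg (by linarith) o10
  have gN : 0 ≤ g3 * o4 := mul_nonneg (by linarith) o40
  have tM : -tr v1 v2 M = g2 * o1 + a * -(A M).2 := by
    rw [F1, eM]; ring
  have tN : -tr v3 v4 N = g3 * o4 + a * -(A N).2 := by
    rw [F3, eN]; ring
  have gM' : 447164 / 1000000 * o1 ≤ g2 * o1 := mul_le_mul_of_nonneg_right g20 o10
  have gN' : 447164 / 1000000 * o4 ≤ g3 * o4 := mul_le_mul_of_nonneg_right g30 o40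
  have e34 : tr v1 v3 v4 = g3 := by
    rw [G3, A4]; ring
  have esh : sh v0 v1 v2 v3 v4 = p + (1 - a) * (g2 + g3) := by
    rw [sh_fan, ← hT v0 v1 v2, ← hT v0 v2 v3, ← hT v0 v3 v4, A0, A1, A2, A3, A4]
    simp only [tr_eq]; ring
  have ee0 : tr v4 v0 v1 = p := by
    rw [← hT, A4, A0, A1]
    simp only [tr_eq]; ring
  have ee2 : tr v1 v2 v3 = (1 - a) * g2 - a * g3 := by
    rw [← hT, A1, A2, A3]
    simp only [tr_eq]; ring
  have ee3 : tr v2 v3 v4 = (1 - a) * g3 - a * g2 := by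
    rw [← hT, A2, A3, A4]
    simp only [tr_eq]; ring
  refine ⟨lam, M, N, q0, q4, q2, r0, r4, r2, hlam0, ⟨hM, ?_, ?_, ?_⟩, ⟨hN, ?_, ?_, ?_⟩,
    ⟨hq0, ?_, ?_⟩, ⟨hq4, ?_, ?_⟩, ⟨hq2, ?_, ?_⟩, ⟨hr0, ?_, ?_⟩, ⟨hr4, ?_, ?_⟩, ⟨hr2, ?_, ?_⟩,
    ?_, ?_⟩
  · linarith
  · rw [G1]; linarith
  · rw [G1, tM]
    have : 190933 / 1000000 * -(A M).2 ≤ a * -(A M).2 :=
      mul_le_mul_of_nonneg_right a0 (by linarith)
    linarith
  · linarith
  · rw [G3, e34, eN]
    have : 8 / 10 * -(A N).2 ≤ (1 - a) * -(A N).2 :=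
      mul_le_mul_of_nonneg_right (by linarith) (by linarith)
    have : g3 * o4 ≤ 1 * o4 := mul_le_mul_of_nonneg_right (by linarith) o40
    linarith
  · rw [e34, G3, eN, tN]
    have h1 : 190933 / 1000000 * -(A N).2 ≤ a * -(A N).2 :=
      mul_le_mul_of_nonneg_right a0 (by linarith)
    linarith
  · have := F0 q0; linarith
  · unfold Pos
    rw [abs_le, G0]
    obtain ⟨k1, k2⟩ := pos_of_prod (A := 1 - a - u) (B := (A q0).2 + g3) (C := p + g3)
      (D := 1 - a - (A q0).1) (lA := 308867 / 1000000) (uA := 309167 / 1000000)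
      (lB := 617814 / 1000000) (uB := 618264 / 1000000) (lC := 723507 / 1000000)
      (uC := 723707 / 1000000) (lD := 499867 / 1000000) (uD := 500127 / 1000000)
      (lo := 170400 / 1000000) (hi := 171200 / 1000000)
      (by linarith) (by linarith) (by linarith) (by linarith) (by linarith) (by linarith)
      (by linarith) (by linarith) (by norm_num) (by norm_num) (by norm_num) (by norm_num)
      (by norm_num) (by norm_num)
    constructor <;> linarith
  · have := F4 q4; linarith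
  · unfold Pos
    rw [abs_le, G4]
    obtain ⟨k1, k2⟩ := pos_of_prod (A := g2) (B := (A q4).1 - a) (C := 1 - a)
      (D := (A q4).2 + g2) (lA := 447164 / 1000000) (uA := 447264 / 1000000)
      (lB := 598997 / 1000000) (uB := 599217 / 1000000) (lC := 808967 / 1000000)
      (uC := 809067 / 1000000) (lD := 563064 / 1000000) (uD := 563464 / 1000000)
      (lo := 187350 / 1000000) (hi := 188150 / 1000000)
      (by linarith) (by linarith) (by linarith) (by linarith) (by linarith) (by linarith)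
      (by linarith) (by linarith) (by norm_num) (by norm_num) (by norm_num) (by norm_num)
      (by norm_num) (by norm_num)
    constructor <;> linarith
  · have := F2 q2; linarith
  · unfold Pos
    rw [abs_le, G2]
    obtain ⟨k1, k2⟩ := pos_add_prod (A := u - a) (B := p - (A q2).2) (C := g2 + p)
      (D := (A q2).1 - u) (lA := 308867 / 1000000) (uA := 309167 / 1000000)
      (lB := 723343 / 1000000) (uB := 723943 / 1000000) (lC := 723507 / 1000000)
      (uC := 723707 / 1000000) (lD := 953665 / 10000000) (uD := 956165 / 10000000)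
      (lo := 292300 / 1000000) (hi := 293100 / 1000000)
      (by linarith) (by linarith) (by linarith) (by linarith) (by linarith) (by linarith)
      (by rw [x2]; linarith) (by rw [x2]; linarith) (by norm_num) (by norm_num) (by norm_num)
      (by norm_num) (by norm_num) (by norm_num)
    constructor <;> linarith
  · have := F0 r0; linarith
  · unfold Pos
    rw [abs_le, G0]
    obtain ⟨k1, k2⟩ := pos_of_prod (A := 1 - a - u) (B := (A r0).2 + g3) (C := p + g3)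
      (D := 1 - a - (A r0).1) (lA := 308867 / 1000000) (uA := 309167 / 1000000)
      (lB := 563064 / 1000000) (uB := 563464 / 1000000) (lC := 723507 / 1000000)
      (uC := 723707 / 1000000) (lD := 598997 / 1000000) (uD := 599217 / 1000000)
      (lo := 259070 / 1000000) (hi := 259860 / 1000000)
      (by linarith) (by linarith) (by linarith) (by linarith) (by linarith) (by linarith)
      (by linarith) (by linarith) (by norm_num) (by norm_num) (by norm_num) (by norm_num)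
      (by norm_num) (by norm_num)
    constructor <;> linarith
  · have := F4 r4; linarith
  · unfold Pos
    rw [abs_le, G4]
    obtain ⟨k1, k2⟩ := pos_of_prod (A := g2) (B := (A r4).1 - a) (C := 1 - a)
      (D := (A r4).2 + g2) (lA := 447164 / 1000000) (uA := 447264 / 1000000)
      (lB := 499867 / 1000000) (uB := 500127 / 1000000) (lC := 808967 / 1000000)
      (uC := 809067 / 1000000) (lD := 617814 / 1000000) (uD := 618264 / 1000000)
      (lo := 276000 / 1000000) (hi := 276790 / 1000000)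
      (by linarith) (by linarith) (by linarith) (by linarith) (by linarith) (by linarith)
      (by linarith) (by linarith) (by norm_num) (by norm_num) (by norm_num) (by norm_num)
      (by norm_num) (by norm_num)
    constructor <;> linarith
  · have := F2 r2; linarith
  · unfold Pos
    rw [abs_le, G2]
    obtain ⟨k1, k2⟩ := pos_of_prod (A := g2 + p) (B := u - (A r2).1) (C := u - a)
      (D := p - (A r2).2) (lA := 723507 / 1000000) (uA := 723707 / 1000000)
      (lB := 953665 / 10000000) (uB := 956165 / 10000000) (lC := 308867 / 1000000)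
      (uC := 309167 / 1000000) (lD := 723343 / 1000000) (uD := 723943 / 1000000)
      (lo := 154110 / 1000000) (hi := 154910 / 1000000)
      (by linarith) (by linarith) (by linarith) (by linarith) (by linarith) (by linarith)
      (by linarith) (by linarith) (by norm_num) (by norm_num) (by norm_num)
      (by norm_num) (by norm_num) (by norm_num)
    constructor <;> linarith
  · have c1 := roof_cost u0 u1 a0 x0 t0
    have c2 := roof_cost' (u := 1 - u) (by linarith) (by linarith) a1 x4 t4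
    have c3 := floor_cost a1 hlam x2 t2
    rw [F0, F4, F2, tM, tN, esh, ee0, ee2, ee3]
    linarith
  · have c1 := roof_cost (u := 1 - u) (by linarith) (by linarith) a0 y0 s0
    have c2 := roof_cost' u0 u1 a1 y4' s4'
    have c3 := floor_cost (x := 1 - (A r2).1) a1 hlam y2 s2
    rw [F0, F4, F2, tM, tN, esh, ee0, ee2, ee3]
    linarith

end Pool.Agent.Helper37.LT
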