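import Pool.Agent.Helper37.LT.Defs
import Pool.Agent.Helper37.OS.Area

/-!
# MP_8bf717_co, project LT: the area of `K` is at least the pentagon plus the five caps, and a
lower bound for a cap by four contact points

`Near.area`: the proof of `Pent.area` and `Pent.area_real` (`Pool/Agent/Helper39/P5/Area.lean`)
from disjointness of the caps; here adjacent caps are disjoint by the tangents `t1`, opposite caps
by `side_id1`.

`kap4`: `x z = tr c v z`, `T z = -tr v w z`. The cap contains for consecutive contact points `A`,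
`B` the trapezoid below the chord `A B` (lemma `slab_le`), and these five trapezoids lie in
disjoint strips.
-/

set_option autoImplicit false

open MeasureTheory Set

namespace Pool.Agent.Helper37.LT

open Pool.Agent.Helper37.PH Pool.Agent.Helper27.PHU Pool.Agent.Helper39.P5
open Pool.Agent.Helper37.OS Pool.Agent.Helper61.PH

/-! ### the pentagon and the five caps -/

theorem NE.bounds {e : ℝ} (h : NE e) : 276392 / 1000000 ≤ e ∧ e ≤ 276394 / 1000000 := by
  unfold NE at h
  rw [abs_le] at h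
  constructor <;> linarith [h.1, h.2]

theorem Near.mid {K : Set (ℝ × ℝ)} {v0 v1 v2 v3 v4 : ℝ × ℝ} (h : Near K v0 v1 v2 v3 v4) :
    447210 / 1000000 ≤ tr v0 v2 v3 ∧ tr v0 v2 v3 ≤ 447218 / 1000000 := by
  have h1 := h.e1.bounds
  have h4 := h.e4.bounds
  have hs := h.sh1
  rw [abs_le] at hs
  rw [sh_fan, ← tr_rot v0 v3 v4] at hs
  constructor <;> linarith [h1.1, h1.2, h4.1, h4.2, hs.1, hs.2]

theorem Near.cvx {K : Set (ℝ × ℝ)} {v0 v1 v2 v3 v4 : ℝ × ℝ} (h : Near K v0 v1 v2 v3 v4) :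
    Cvx v0 v1 v2 v3 v4 where
  a0 := by linarith [h.e0.bounds.1]
  a1 := by linarith [h.e1.bounds.1]
  a2 := by linarith [h.e2.bounds.1]
  a3 := by linarith [h.e3.bounds.1]
  a4 := by linarith [h.e4.bounds.1]
  t0 := by linarith [h.mid.1]
  t1 := by linarith [h.rot.mid.1]
  t2 := by linarith [h.rot.rot.mid.1]
  t3 := by linarith [h.rot.rot.rot.mid.1]
  t4 := by linarith [h.rot.rot.rot.rot.mid.1]

theorem Near.disj_adj {K : Set (ℝ × ℝ)} {v0 v1 v2 v3 v4 : ℝ × ℝ}
    (h : Near K v0 v1 v2 v3 v4) : Disjoint (cap K v0 v1) (cap K v1 v2) := by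
  rw [Set.disjoint_left]
  rintro z ⟨hz, h1⟩ ⟨-, h2⟩
  have h1 : tr v0 v1 z < 0 := h1
  have h2 : tr v1 v2 z < 0 := h2
  obtain ⟨α, β, ha, hb, ht⟩ := h.t1
  rw [abs_le] at ha hb
  have hα : 0 < α := by linarith [ha.1]
  have hβ : 0 < β := by linarith [hb.1]
  have m1 := mul_neg_of_pos_of_neg hα h1
  have m2 := mul_neg_of_pos_of_neg hβ h2
  have := ht z hz
  linarith

theorem Near.disj_opp {K : Set (ℝ × ℝ)} {v0 v1 v2 v3 v4 : ℝ × ℝ}
    (h : Near K v0 v1 v2 v3 v4) : Disjoint (cap K v0 v1) (cap K v2 v3) := by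
  rw [Set.disjoint_left]
  rintro z ⟨hz, h0⟩ ⟨-, h2⟩
  have h0 : tr v0 v1 z < 0 := h0
  have h2 : tr v2 v3 z < 0 := h2
  have i1 := side_id1 v0 v1 v2 v3 z
  have e1 := h.e1.bounds
  have e2 := h.e2.bounds
  have e3 := h.rot.rot.rot.mid
  have ht := h.th1 z hz
  have m1 : tr v1 v2 v3 * tr v0 v1 z < 0 := mul_neg_of_pos_of_neg (by linarith [e2.1]) h0
  have m2 : tr v0 v1 v2 * tr v2 v3 z < 0 := mul_neg_of_pos_of_neg (by linarith [e1.1]) h2
  have m3 : (tr v0 v1 v2 - tr v3 v0 v1) * tr v1 v2 z ≤ 1 / 1000 := by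
    have p1 : 0 ≤ tr v3 v0 v1 - tr v0 v1 v2 := by linarith [e1.2, e3.1]
    have p2 : tr v3 v0 v1 - tr v0 v1 v2 ≤ 1 := by linarith [e1.1, e3.2]
    nlinarith
  have m4 : (276392 / 1000000) * (276392 / 1000000) ≤ tr v0 v1 v2 * tr v1 v2 v3 :=
    mul_le_mul e1.1 e2.1 (by norm_num) (by linarith [e1.1])
  linarith

/-- the area of `K`, given that the caps are disjoint -/
theorem area_of_disj {K : Set (ℝ × ℝ)} (hb : IsBody K) {p0 p1 p2 p3 p4 : ℝ × ℝ} (m0 : p0 ∈ K)
    (m1 : p1 ∈ K) (m2 : p2 ∈ K) (m3 : p3 ∈ K) (m4 : p4 ∈ K) (c : Cvx p0 p1 p2 p3 p4)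
    (a01 : Disjoint (cap K p0 p1) (cap K p1 p2)) (a12 : Disjoint (cap K p1 p2) (cap K p2 p3))
    (a23 : Disjoint (cap K p2 p3) (cap K p3 p4)) (a34 : Disjoint (cap K p3 p4) (cap K p4 p0))
    (a40 : Disjoint (cap K p4 p0) (cap K p0 p1)) (o02 : Disjoint (cap K p0 p1) (cap K p2 p3))
    (o13 : Disjoint (cap K p1 p2) (cap K p3 p4)) (o24 : Disjoint (cap K p2 p3) (cap K p4 p0))
    (o30 : Disjoint (cap K p3 p4) (cap K p0 p1)) (o41 : Disjoint (cap K p4 p0) (cap K p1 p2)) :
    ENNReal.ofReal (sh p0 p1 p2 p3 p4 / 2) + (volume (cap K p0 p1) + volume (cap K p1 p2) +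
      volume (cap K p2 p3) + volume (cap K p3 p4) + volume (cap K p4 p0)) ≤ volume K := by
  have hm := fun p q => measurableSet_cap hb p q
  have t034 : 0 < tr p0 p3 p4 := by
    have := c.a4
    rw [← tr_rot p0 p3 p4]; exact this
  -- the caps
  have u1 : volume (cap K p0 p1 ∪ cap K p1 p2) = volume (cap K p0 p1) + volume (cap K p1 p2) :=
    measure_union a01 (hm _ _)
  have u2 : volume (cap K p0 p1 ∪ cap K p1 p2 ∪ cap K p2 p3) =
      volume (cap K p0 p1) + volume (cap K p1 p2) + volume (cap K p2 p3) := by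
    rw [measure_union (disjoint_union_left.2 ⟨o02, a12⟩) (hm _ _), u1]
  have u3 : volume (cap K p0 p1 ∪ cap K p1 p2 ∪ cap K p2 p3 ∪ cap K p3 p4) =
      volume (cap K p0 p1) + volume (cap K p1 p2) + volume (cap K p2 p3) +
        volume (cap K p3 p4) := by
    rw [measure_union (disjoint_union_left.2 ⟨disjoint_union_left.2
      ⟨o30.symm, o13⟩, a23⟩) (hm _ _), u2]
  have u4 : volume (cap K p0 p1 ∪ cap K p1 p2 ∪ cap K p2 p3 ∪ cap K p3 p4 ∪ cap K p4 p0) =
      volume (cap K p0 p1) + volume (cap K p1 p2) + volume (cap K p2 p3) +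
        volume (cap K p3 p4) + volume (cap K p4 p0) := by
    rw [measure_union (disjoint_union_left.2 ⟨disjoint_union_left.2 ⟨disjoint_union_left.2
      ⟨a40.symm, o41.symm⟩, o24⟩, a34⟩) (hm _ _), u3]
  -- the triangles
  have d12 : Disjoint (oT p0 p1 p2) (oT p0 p2 p3) := by
    rw [Set.disjoint_left]
    rintro z ⟨-, -, g1⟩ ⟨g2, -, -⟩
    rw [tr_swap] at g1
    linarith
  have d23 : Disjoint (oT p0 p2 p3) (oT p0 p3 p4) := by
    rw [Set.disjoint_left]
    rintro z ⟨-, -, g1⟩ ⟨g2, -, -⟩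
    rw [tr_swap] at g1
    linarith
  have d13 : Disjoint (oT p0 p1 p2) (oT p0 p3 p4) := by
    rw [Set.disjoint_left]
    rintro z ⟨-, -, g1⟩ g2
    have g3 : 0 ≤ tr p0 p2 z := oT_nonneg g2 t034 (by rw [tr_self_out]) c.t0.le
      (by have := c.t2; rw [tr_rot p0 p2 p4] at this; exact this.le)
    rw [tr_swap] at g1
    linarith
  have v1 : volume (oT p0 p1 p2 ∪ oT p0 p2 p3) =
      volume (oT p0 p1 p2) + volume (oT p0 p2 p3) := measure_union d12 (isOpen_oT _ _ _).measurableSet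
  have v2 : volume (oT p0 p1 p2 ∪ oT p0 p2 p3 ∪ oT p0 p3 p4) =
      ENNReal.ofReal (sh p0 p1 p2 p3 p4 / 2) := by
    rw [measure_union (disjoint_union_left.2 ⟨d13, d23⟩) (isOpen_oT _ _ _).measurableSet, v1,
      vol_oT c.a1, vol_oT c.t0, vol_oT t034, ← ENNReal.ofReal_add (by linarith [c.a1])
        (by linarith [c.t0]), ← ENNReal.ofReal_add (by linarith [c.a1, c.t0]) (by linarith), sh_fan]
    congr 1
    ring
  -- disjointness of triangles and caps
  have key : ∀ {q0 q1 q2 q3 q4 : ℝ × ℝ}, Cvx q0 q1 q2 q3 q4 →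
      ∀ p ∈ ({q0, q1, q2, q3, q4} : Set (ℝ × ℝ)), ∀ q ∈ ({q0, q1, q2, q3, q4} : Set (ℝ × ℝ)),
      ∀ r ∈ ({q0, q1, q2, q3, q4} : Set (ℝ × ℝ)), 0 < tr p q r → ∀ z ∈ oT p q r,
        0 ≤ tr q0 q1 z := by
    intro q0 q1 q2 q3 q4 cc p hp q hq r hr hD z hz
    obtain ⟨g0, g1, g2, g3, g4⟩ := cc.side_nonneg
    have hall : ∀ x ∈ ({q0, q1, q2, q3, q4} : Set (ℝ × ℝ)), 0 ≤ tr q0 q1 x := by
      intro x hx
      simp only [mem_insert_iff, mem_singleton_iff] at hx
      rcases hx with rfl | rfl | rfl | rfl | rfl <;> assumption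
    exact oT_nonneg hz hD (hall p hp) (hall q hq) (hall r hr)
  have tri : ∀ {q0 q1 q2 q3 q4 : ℝ × ℝ}, Cvx q0 q1 q2 q3 q4 →
      (∀ x ∈ ({p0, p1, p2, p3, p4} : Set (ℝ × ℝ)), x ∈ ({q0, q1, q2, q3, q4} : Set (ℝ × ℝ))) →
      Disjoint (oT p0 p1 p2 ∪ oT p0 p2 p3 ∪ oT p0 p3 p4) (cap K q0 q1) := by
    intro q0 q1 q2 q3 q4 cc hsub
    have i0 := hsub p0 (by simp)
    have i1 := hsub p1 (by simp)
    have i2 := hsub p2 (by simp)
    have i3 := hsub p3 (by simp)
    have i4 := hsub p4 (by simp)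
    apply disj_of_nonneg
    rintro z ((hz | hz) | hz)
    · exact key cc _ i0 _ i1 _ i2 c.a1 z hz
    · exact key cc _ i0 _ i2 _ i3 c.t0 z hz
    · exact key cc _ i0 _ i3 _ i4 t034 z hz
  have w : Disjoint (oT p0 p1 p2 ∪ oT p0 p2 p3 ∪ oT p0 p3 p4)
      (cap K p0 p1 ∪ cap K p1 p2 ∪ cap K p2 p3 ∪ cap K p3 p4 ∪ cap K p4 p0) := by
    refine disjoint_union_right.2 ⟨disjoint_union_right.2 ⟨disjoint_union_right.2
      ⟨disjoint_union_right.2 ⟨?_, ?_⟩, ?_⟩, ?_⟩, ?_⟩
    · exact tri c (by simp)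
    · apply tri c.rot
      intro x hx
      simp only [mem_insert_iff, mem_singleton_iff] at hx ⊢
      tauto
    · apply tri c.rot.rot
      intro x hx
      simp only [mem_insert_iff, mem_singleton_iff] at hx ⊢
      tauto
    · apply tri c.rot.rot.rot
      intro x hx
      simp only [mem_insert_iff, mem_singleton_iff] at hx ⊢
      tauto
    · apply tri c.rot.rot.rot.rot
      intro x hx
      simp only [mem_insert_iff, mem_singleton_iff] at hx ⊢
      tauto
  have hmC : MeasurableSet (cap K p0 p1 ∪ cap K p1 p2 ∪ cap K p2 p3 ∪ cap K p3 p4 ∪ cap K p4 p0) :=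
    ((((hm _ _).union (hm _ _)).union (hm _ _)).union (hm _ _)).union (hm _ _)
  rw [← u4, ← v2, ← measure_union w hmC]
  apply measure_mono
  have hK := hb.convex
  have cs : ∀ p q, cap K p q ⊆ K := fun p q => inter_subset_left
  refine union_subset (union_subset (union_subset (oT_sub hK m0 m1 m2 c.a1)
    (oT_sub hK m0 m2 m3 c.t0)) (oT_sub hK m0 m3 m4 t034)) ?_
  exact union_subset (union_subset (union_subset (union_subset (cs _ _) (cs _ _)) (cs _ _))
    (cs _ _)) (cs _ _)

theorem Near.area {K : Set (ℝ × ℝ)} {v0 v1 v2 v3 v4 : ℝ × ℝ} (h : Near K v0 v1 v2 v3 v4) :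
    sh v0 v1 v2 v3 v4 / 2 + (kap K v0 v1 + kap K v1 v2 + kap K v2 v3 + kap K v3 v4 +
      kap K v4 v0) ≤ (volume K).toReal := by
  have h1 := h.rot
  have h2 := h1.rot
  have h3 := h2.rot
  have h4 := h3.rot
  have harea := area_of_disj h.body h.m0 h.m1 h.m2 h.m3 h.m4 h.cvx h.disj_adj h1.disj_adj
    h2.disj_adj h3.disj_adj h4.disj_adj h.disj_opp h1.disj_opp h2.disj_opp h3.disj_opp
    h4.disj_opp
  have hfin : volume K ≠ ⊤ := h.body.compact.measure_lt_top.ne
  have hc : ∀ p q, volume (cap K p q) ≠ ⊤ := cap_ne_top h.body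
  have hpos : 0 ≤ sh v0 v1 v2 v3 v4 / 2 := by
    have hs := h.sh1
    rw [abs_le] at hs
    linarith [hs.1]
  have key := ENNReal.toReal_mono hfin harea
  rw [ENNReal.toReal_add ENNReal.ofReal_ne_top (by simp [hc]),
    ENNReal.toReal_ofReal hpos, ENNReal.toReal_add (by simp [hc]) (hc _ _),
    ENNReal.toReal_add (by simp [hc]) (hc _ _), ENNReal.toReal_add (by simp [hc]) (hc _ _),
    ENNReal.toReal_add (hc _ _) (hc _ _)] at key
  exact key

/-! ### a cap with four contact points -/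

theorem tr_xy (c v w P Q R : ℝ × ℝ) : tr c v w * tr P Q R =
    (tr c v Q - tr c v P) * (tr v w R - tr v w P) -
      (tr v w Q - tr v w P) * (tr c v R - tr c v P) := by
  obtain ⟨x0, y0⟩ := c
  obtain ⟨x1, y1⟩ := v
  obtain ⟨x2, y2⟩ := w
  obtain ⟨x3, y3⟩ := P
  obtain ⟨x4, y4⟩ := Q
  obtain ⟨x5, y5⟩ := R
  simp only [tr_eq]
  ring

theorem tr_foot_x (c v w : ℝ × ℝ) (t : ℝ) : tr c v (v + t • (w - v)) = t * tr c v w := by
  obtain ⟨x0, y0⟩ := c
  obtain ⟨x1, y1⟩ := v
  obtain ⟨x2, y2⟩ := w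
  simp only [tr_eq, Prod.fst_add, Prod.snd_add, Prod.smul_fst, Prod.smul_snd, Prod.fst_sub,
    Prod.snd_sub, smul_eq_mul]
  ring

theorem tr_foot_y (v w : ℝ × ℝ) (t : ℝ) : tr v w (v + t • (w - v)) = 0 := by
  obtain ⟨x1, y1⟩ := v
  obtain ⟨x2, y2⟩ := w
  simp only [tr_eq, Prod.fst_add, Prod.snd_add, Prod.smul_fst, Prod.smul_snd, Prod.fst_sub,
    Prod.snd_sub, smul_eq_mul]
  ring

/-- the part of the cap over the strip `a < x < b` -/
def strip (K : Set (ℝ × ℝ)) (c v w : ℝ × ℝ) (a b : ℝ) : Set (ℝ × ℝ) :=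
  cap K v w ∩ {z | a < tr c v z ∧ tr c v z < b}

theorem measurableSet_strip {K : Set (ℝ × ℝ)} (hK : IsBody K) (c v w : ℝ × ℝ) (a b : ℝ) :
    MeasurableSet (strip K c v w a b) := by
  refine (measurableSet_cap hK v w).inter ?_
  exact ((isOpen_lt continuous_const (continuous_tr c v)).inter
    (isOpen_lt (continuous_tr c v) continuous_const)).measurableSet

theorem oT_pos {p q r z : ℝ × ℝ} (hz : z ∈ oT p q r) : 0 < tr p q r := by
  obtain ⟨g1, g2, g3⟩ := hz
  have := tr_sum3 p q r z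
  linarith

theorem slab_vol {K : Set (ℝ × ℝ)} (hK : IsBody K) {v w c A B : ℝ × ℝ} (hv : v ∈ K) (hw : w ∈ K)
    (hA : A ∈ K) (hB : B ∈ K) (hc : 0 < tr c v w) (TA : tr v w A ≤ 0) (TB : tr v w B ≤ 0)
    (xA : 0 ≤ tr c v A) (xAB : tr c v A ≤ tr c v B) (xB : tr c v B ≤ tr c v w) :
    ENNReal.ofReal ((-tr v w A + -tr v w B) * (tr c v B - tr c v A) / (2 * tr c v w)) ≤
      volume (strip K c v w (tr c v A) (tr c v B)) := by
  rcases eq_or_lt_of_le xAB with hab | hab
  · rw [hab]
    simp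
  set A' : ℝ × ℝ := v + (tr c v A / tr c v w) • (w - v) with hA'
  set B' : ℝ × ℝ := v + (tr c v B / tr c v w) • (w - v) with hB'
  have mA' : A' ∈ K := hK.convex.add_smul_sub_mem hv hw
    ⟨div_nonneg xA hc.le, (div_le_one hc).2 (by linarith)⟩
  have mB' : B' ∈ K := hK.convex.add_smul_sub_mem hv hw
    ⟨div_nonneg (by linarith) hc.le, (div_le_one hc).2 xB⟩
  have xA' : tr c v A' = tr c v A := by
    rw [hA', tr_foot_x, div_mul_cancel₀ _ hc.ne']
  have xB' : tr c v B' = tr c v B := by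
    rw [hB', tr_foot_x, div_mul_cancel₀ _ hc.ne']
  have yA' : tr v w A' = 0 := tr_foot_y _ _ _
  have yB' : tr v w B' = 0 := tr_foot_y _ _ _
  have D1 := tr_xy c v w A' A B
  have D2 := tr_xy c v w A' B B'
  rw [xA', yA'] at D1 D2
  rw [xB', yB'] at D2
  -- first triangle
  have s1 : oT A' A B ⊆ strip K c v w (tr c v A) (tr c v B) := by
    intro z hz
    have hD := oT_pos hz
    have hzK := oT_sub' hK.convex mA' hA hB hz
    obtain ⟨g1, g2, g3⟩ := hz
    have hs := tr_sum3 A' A B z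
    have bx := tr_bary A' A B c v z
    have bt := tr_bary A' A B v w z
    rw [xA'] at bx
    rw [yA'] at bt
    have hTA : tr v w A < 0 := by
      rcases eq_or_lt_of_le TA with h0 | h0
      · rw [h0] at D1
        have : tr c v w * tr A' A B = 0 := by rw [D1]; ring
        rcases mul_eq_zero.1 this with h | h <;> linarith
      · exact h0
    have e1 : tr A' A B * (tr c v z - tr c v A) = tr A' A z * (tr c v B - tr c v A) := by
      have : tr A' A B * (tr c v z - tr c v A) = tr A' A B * tr c v z - tr A' A B * tr c v A := by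
        ring
      rw [this, bx, ← hs]; ring
    have e2 : tr A' A B * (tr c v B - tr c v z) =
        (tr A B z + tr B A' z) * (tr c v B - tr c v A) := by
      have : tr A' A B * (tr c v B - tr c v z) = tr A' A B * tr c v B - tr A' A B * tr c v z := by
        ring
      rw [this, bx, ← hs]; ring
    have hd : 0 < tr c v B - tr c v A := by linarith
    refine ⟨⟨hzK, ?_⟩, ?_, ?_⟩
    · show tr v w z < 0
      have h1 : tr A' A B * tr v w z < 0 := by
        rw [bt]
        have n1 := mul_neg_of_pos_of_neg g3 hTA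
        have n2 := mul_nonpos_of_nonneg_of_nonpos g1.le TB
        linarith
      by_contra hcon
      push Not at hcon
      have := mul_nonneg hD.le hcon
      linarith
    · have h1 : 0 < tr A' A B * (tr c v z - tr c v A) := by
        rw [e1]; exact mul_pos g1 hd
      have := (mul_pos_iff_of_pos_left hD).1 h1
      linarith
    · have h1 : 0 < tr A' A B * (tr c v B - tr c v z) := by
        rw [e2]; exact mul_pos (add_pos g2 g3) hd
      have := (mul_pos_iff_of_pos_left hD).1 h1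
      linarith
  -- second triangle
  have s2 : oT A' B B' ⊆ strip K c v w (tr c v A) (tr c v B) := by
    intro z hz
    have hD := oT_pos hz
    have hzK := oT_sub' hK.convex mA' hB mB' hz
    obtain ⟨g1, g2, g3⟩ := hz
    have hs := tr_sum3 A' B B' z
    have bx := tr_bary A' B B' c v z
    have bt := tr_bary A' B B' v w z
    rw [xA', xB'] at bx
    rw [yA', yB'] at bt
    have hTB : tr v w B < 0 := by
      rcases eq_or_lt_of_le TB with h0 | h0
      · rw [h0] at D2
        have : tr c v w * tr A' B B' = 0 := by rw [D2]; ring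
        rcases mul_eq_zero.1 this with h | h <;> linarith
      · exact h0
    have e1 : tr A' B B' * (tr c v z - tr c v A) =
        (tr B' A' z + tr A' B z) * (tr c v B - tr c v A) := by
      have : tr A' B B' * (tr c v z - tr c v A) =
          tr A' B B' * tr c v z - tr A' B B' * tr c v A := by ring
      rw [this, bx, ← hs]; ring
    have e2 : tr A' B B' * (tr c v B - tr c v z) = tr B B' z * (tr c v B - tr c v A) := by
      have : tr A' B B' * (tr c v B - tr c v z) =
          tr A' B B' * tr c v B - tr A' B B' * tr c v z := by ring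
      rw [this, bx, ← hs]; ring
    have hd : 0 < tr c v B - tr c v A := by linarith
    refine ⟨⟨hzK, ?_⟩, ?_, ?_⟩
    · show tr v w z < 0
      have h1 : tr A' B B' * tr v w z < 0 := by
        rw [bt]
        have n1 := mul_neg_of_pos_of_neg g3 hTB
        linarith
      by_contra hcon
      push Not at hcon
      have := mul_nonneg hD.le hcon
      linarith
    · have h1 : 0 < tr A' B B' * (tr c v z - tr c v A) := by
        rw [e1]; exact mul_pos (add_pos g3 g1) hd
      have := (mul_pos_iff_of_pos_left hD).1 h1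
      linarith
    · have h1 : 0 < tr A' B B' * (tr c v B - tr c v z) := by
        rw [e2]; exact mul_pos g2 hd
      have := (mul_pos_iff_of_pos_left hD).1 h1
      linarith
  have hd : Disjoint (oT A' A B) (oT A' B B') := by
    rw [Set.disjoint_left]
    rintro z ⟨-, -, g1⟩ ⟨g2, -, -⟩
    rw [tr_swap] at g1
    linarith
  have h4 : volume (oT A' A B ∪ oT A' B B') ≤ volume (strip K c v w (tr c v A) (tr c v B)) :=
    measure_mono (union_subset s1 s2)
  rw [measure_union hd (isOpen_oT _ _ _).measurableSet] at h4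
  have h5 := (add_le_add (vol_oT' A' A B) (vol_oT' A' B B')).trans h4
  refine le_trans (le_of_eq ?_) h5
  have f1 : tr A' A B = -tr v w A * (tr c v B - tr c v A) / tr c v w := by
    rw [eq_div_iff hc.ne', mul_comm, D1]; ring
  have f2 : tr A' B B' = -tr v w B * (tr c v B - tr c v A) / tr c v w := by
    rw [eq_div_iff hc.ne', mul_comm, D2]; ring
  have hd' : 0 ≤ tr c v B - tr c v A := by linarith
  have n1 : 0 ≤ tr A' A B / 2 := by
    rw [f1]
    have : 0 ≤ -tr v w A * (tr c v B - tr c v A) := mul_nonneg (by linarith) hd'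
    positivity
  have n2 : 0 ≤ tr A' B B' / 2 := by
    rw [f2]
    have : 0 ≤ -tr v w B * (tr c v B - tr c v A) := mul_nonneg (by linarith) hd'
    positivity
  rw [← ENNReal.ofReal_add n1 n2]
  congr 1
  rw [f1, f2]
  field_simp

theorem strip_ne_top {K : Set (ℝ × ℝ)} (hK : IsBody K) (c v w : ℝ × ℝ) (a b : ℝ) :
    volume (strip K c v w a b) ≠ ⊤ :=
  ((measure_mono inter_subset_left).trans_lt (cap_ne_top hK v w).lt_top).ne

/-- the trapezoid below a chord -/
theorem slab_le {K : Set (ℝ × ℝ)} (hK : IsBody K) {v w c A B : ℝ × ℝ} (hv : v ∈ K) (hw : w ∈ K)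
    (hA : A ∈ K) (hB : B ∈ K) (hc : 0 < tr c v w) (TA : tr v w A ≤ 0) (TB : tr v w B ≤ 0)
    (xA : 0 ≤ tr c v A) (xAB : tr c v A ≤ tr c v B) (xB : tr c v B ≤ tr c v w) :
    (-tr v w A + -tr v w B) * (tr c v B - tr c v A) ≤
      2 * tr c v w * (volume (strip K c v w (tr c v A) (tr c v B))).toReal := by
  have h1 := ENNReal.toReal_mono (strip_ne_top hK c v w _ _)
    (slab_vol hK hv hw hA hB hc TA TB xA xAB xB)
  have hn : 0 ≤ (-tr v w A + -tr v w B) * (tr c v B - tr c v A) :=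
    mul_nonneg (by linarith) (by linarith)
  rw [ENNReal.toReal_ofReal (by positivity), div_le_iff₀ (by positivity)] at h1
  linarith

theorem strip_add {K : Set (ℝ × ℝ)} (hK : IsBody K) (c v w : ℝ × ℝ) {a b d : ℝ} (hab : a ≤ b)
    (hbd : b ≤ d) : (volume (strip K c v w a b)).toReal + (volume (strip K c v w b d)).toReal ≤
      (volume (strip K c v w a d)).toReal := by
  have hd : Disjoint (strip K c v w a b) (strip K c v w b d) := by
    rw [Set.disjoint_left]
    rintro z ⟨-, -, g1⟩ ⟨-, g2, -⟩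
    linarith
  rw [← ENNReal.toReal_add (strip_ne_top hK c v w _ _) (strip_ne_top hK c v w _ _),
    ← measure_union hd (measurableSet_strip hK c v w _ _)]
  apply ENNReal.toReal_mono (strip_ne_top hK c v w _ _)
  apply measure_mono
  rintro z (⟨h1, h2, h3⟩ | ⟨h1, h2, h3⟩)
  · exact ⟨h1, h2, lt_of_lt_of_le h3 hbd⟩
  · exact ⟨h1, lt_of_le_of_lt hab h2, h3⟩

theorem strip_le_kap {K : Set (ℝ × ℝ)} (hK : IsBody K) (c v w : ℝ × ℝ) (a b : ℝ) :
    (volume (strip K c v w a b)).toReal ≤ kap K v w :=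
  ENNReal.toReal_mono (cap_ne_top hK v w) (measure_mono inter_subset_left)

theorem kap4 {K : Set (ℝ × ℝ)} (hK : IsBody K) {v w c M L R N : ℝ × ℝ} (hv : v ∈ K) (hw : w ∈ K)
    (hM : M ∈ K) (hL : L ∈ K) (hR : R ∈ K) (hN : N ∈ K) (hc : 0 < tr c v w)
    (TM : tr v w M ≤ 0) (TL : tr v w L ≤ 0) (TR : tr v w R ≤ 0) (TN : tr v w N ≤ 0)
    (x0 : 0 ≤ tr c v M) (x1 : tr c v M ≤ tr c v L) (x2 : tr c v L < tr c v R)
    (x3 : tr c v R ≤ tr c v N) (x4 : tr c v N ≤ tr c v w)
    (hML : 0 ≤ -tr v w M * tr c v L - -tr v w L * tr c v M)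
    (hRN : 0 ≤ -tr v w N * (tr c v w - tr c v R) - -tr v w R * (tr c v w - tr c v N)) :
    -tr v w L * tr c v R + -tr v w R * (tr c v w - tr c v L) +
      (-tr v w M * tr c v L - -tr v w L * tr c v M) +
      (-tr v w N * (tr c v w - tr c v R) - -tr v w R * (tr c v w - tr c v N)) ≤
      2 * tr c v w * kap K v w := by
  have _ := hML
  have _ := hRN
  have b1 := slab_le hK hv hw hv hM hc (tr_self_out v w).le TM (tr_self_right c v).ge
    (by rw [tr_self_right]; exact x0) (by linarith)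
  have b2 := slab_le hK hv hw hM hL hc TM TL x0 x1 (by linarith)
  have b3 := slab_le hK hv hw hL hR hc TL TR (by linarith) x2.le (by linarith)
  have b4 := slab_le hK hv hw hR hN hc TR TN (by linarith) x3 x4
  have b5 := slab_le hK hv hw hN hw hc TN (tr_self_right v w).le (by linarith) x4 le_rfl
  rw [tr_self_right c v, tr_self_out v w] at b1
  rw [tr_self_right v w] at b5
  have s1 := strip_add hK c v w (a := 0) x0 x1
  have s2 := strip_add hK c v w (a := 0) (x0.trans x1) x2.le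
  have s3 := strip_add hK c v w (a := 0) ((x0.trans x1).trans x2.le) x3
  have s4 := strip_add hK c v w (a := 0) (((x0.trans x1).trans x2.le).trans x3) x4
  have s5 := strip_le_kap hK c v w 0 (tr c v w)
  set S1 := (volume (strip K c v w 0 (tr c v M))).toReal
  set S2 := (volume (strip K c v w (tr c v M) (tr c v L))).toReal
  set S3 := (volume (strip K c v w (tr c v L) (tr c v R))).toReal
  set S4 := (volume (strip K c v w (tr c v R) (tr c v N))).toReal
  set S5 := (volume (strip K c v w (tr c v N) (tr c v w))).toReal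
  have hsum : S1 + S2 + S3 + S4 + S5 ≤ kap K v w := by linarith
  have h2 : 2 * tr c v w * (S1 + S2 + S3 + S4 + S5) ≤ 2 * tr c v w * kap K v w :=
    mul_le_mul_of_nonneg_left hsum (by linarith)
  nlinarith

end Pool.Agent.Helper37.LT
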