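import Pool.Agent.Helper37.LT.Reflex

/-!
# MP_8bf717_co, project LT: the covering lemma with a free (convex or reflex) floor kink
-/

set_option autoImplicit false

open MeasureTheory Set

namespace Pool.Agent.Helper37.LT

open Pool.Agent.Helper37.PH Pool.Agent.Helper88.PH Pool.Agent.Helper27.PHU Pool.Agent.Helper85.PHU

/-- `K` lies between a roof (two lines) and a floor (two lines meeting over `l`, in a convex or in
a reflex vertex), with walls of equal height. -/
theorem cov_kink {K : Set (ℝ × ℝ)} {X0 X1 l a1 b1 a2 b2 c1 d1 c2 d2 p V : ℝ}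
    (hX : X0 < X1) (hl0 : X0 < l) (hl1 : l < X1)
    (hx : ∀ z ∈ K, X0 ≤ z.1 ∧ z.1 ≤ X1)
    (hr : ∀ z ∈ K, z.2 ≤ a1 + b1 * z.1 ∧ z.2 ≤ a2 + b2 * z.1)
    (hf1 : ∀ z ∈ K, z.1 ≤ l → c1 + d1 * z.1 ≤ z.2)
    (hf2 : ∀ z ∈ K, l ≤ z.1 → c2 + d2 * z.1 ≤ z.2)
    (hl : c1 + d1 * l = c2 + d2 * l)
    (hs0 : a1 + b1 * X0 < a2 + b2 * X0) (hs1 : a2 + b2 * X1 < a1 + b1 * X1)
    (hw : c1 + d1 * X0 < a1 + b1 * X0)
    (heq : (a1 + b1 * X0) - (c1 + d1 * X0) = (a2 + b2 * X1) - (c2 + d2 * X1))
    (hk1 : c1 + d1 * l < a1 + b1 * l) (hk2 : c1 + d1 * l < a2 + b2 * l)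
    (hp0 : X0 ≤ p) (hp1 : p ≤ X1)
    (hV : (p - X0) * (a1 + b1 * ((X0 + p) / 2)) + (X1 - p) * (a2 + b2 * ((p + X1) / 2)) -
      ((l - X0) * (c1 + d1 * ((X0 + l) / 2)) + (X1 - l) * (c2 + d2 * ((l + X1) / 2))) ≤ V) :
    Cov K V := by
  rcases le_or_gt d1 d2 with hd | hd
  · -- a convex floor
    refine cov_gable (X0 := X0) (X1 := X1) (a1 := a1) (b1 := b1) (a2 := a2) (b2 := b2)
      (c1 := c1) (d1 := d1) (c2 := c2) (d2 := d2) (p := p) (q := l) hX ?_ hs0.le hs1.le ?_ ?_
      heq hw.le hp0 hp1 hl0.le hl1.le ?_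
    · intro z hz
      obtain ⟨e1, e2⟩ := hx z hz
      obtain ⟨e3, e4⟩ := hr z hz
      refine ⟨e1, e2, e3, e4, ?_, ?_⟩
      · rcases le_total z.1 l with h | h
        · exact hf1 z hz h
        · have := hf2 z hz h
          nlinarith
      · rcases le_total z.1 l with h | h
        · have := hf1 z hz h
          nlinarith
        · exact hf2 z hz h
    · nlinarith
    · nlinarith
    · refine le_trans (le_of_eq ?_) hV
      ring
  · -- a reflex floor
    have hb : b2 < b1 := by nlinarith
    have hb' : 0 < b1 - b2 := by linarith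
    obtain ⟨k, hk⟩ : ∃ k : ℝ, a1 + b1 * k = a2 + b2 * k := by
      refine ⟨(a2 - a1) / (b1 - b2), ?_⟩
      field_simp
      ring
    have hk0 : X0 < k := by
      by_contra h
      push Not at h
      nlinarith
    have hk3 : k < X1 := by
      by_contra h
      push Not at h
      nlinarith
    have r1 : ∀ x : ℝ, (a1 + b1 * k) + b1 * (x - k) = a1 + b1 * x := by intro x; ring
    have r2 : ∀ x : ℝ, (a1 + b1 * k) + b2 * (x - k) = a2 + b2 * x := by
      intro x
      rw [hk]; ring
    have r3 : ∀ x : ℝ, (c1 + d1 * l) + d1 * (x - l) = c1 + d1 * x := by intro x; ring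
    have r4 : ∀ x : ℝ, (c1 + d1 * l) + d2 * (x - l) = c2 + d2 * x := by
      intro x
      rw [hl]; ring
    have hP : IsPHexagon (rexR X0 X1 k l (a1 + b1 * k) (c1 + d1 * l) b1 b2 d1 d2) := by
      apply rex_isPHexagon hk0 hk3 hl0 hl1 hb hd
      · rw [r1, r3]; exact hw
      · rw [r1, r2, r3, r4]; exact heq
      · rw [r1]; exact hk1
      · rw [r2]; exact hk2
    obtain ⟨hL, hR⟩ := rex_aux (X0 := X0) (X1 := X1) (k := k) (l := l) (rk := a1 + b1 * k)
      (ql := c1 + d1 * l) (s1 := b1) (s2 := b2) (t1 := d1) (t2 := d2) hk0 hk3 hl0 hl1 hb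
      (by rw [r1, r3]; exact hw) (by rw [r1, r2, r3, r4]; exact heq) (by rw [r1]; exact hk1)
      (by rw [r2]; exact hk2)
    intro ε hε
    refine ⟨_, hP, ?_, ?_⟩
    · intro z hz
      obtain ⟨e1, e2⟩ := hx z hz
      obtain ⟨e3, e4⟩ := hr z hz
      refine ⟨⟨e1, e2⟩, ⟨by rw [r1]; exact e3, by rw [r2]; exact e4⟩, ?_⟩
      rcases le_total z.1 l with h | h
      · left
        rw [r3]
        exact hf1 z hz h
      · right
        rw [r4]
        exact hf2 z hz h
    · have hd0 : 0 < X1 - X0 := by linarith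
      set η := ε / (2 * (X1 - X0)) with hηd
      have hη : 0 < η := by rw [hηd]; positivity
      have hη2 : 2 * η * (X1 - X0) = ε := by rw [hηd]; field_simp
      have hsub : rexR X0 X1 k l (a1 + b1 * k) (c1 + d1 * l) b1 b2 d1 d2 ⊆
          regionBetween (fun x => min (c1 + d1 * x) (c2 + d2 * x) - η)
            (fun x => min (a1 + b1 * x) (a2 + b2 * x) + η) (Icc X0 X1) := by
        rintro ⟨x, y⟩ ⟨⟨h1, h2⟩, ⟨h3, h4⟩, h5⟩
        simp only at h1 h2 h3 h4 h5
        rw [r1] at h3
        rw [r2] at h4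
        rw [r3, r4] at h5
        have e3 : y ≤ min (a1 + b1 * x) (a2 + b2 * x) := le_min h3 h4
        have e4 : min (c1 + d1 * x) (c2 + d2 * x) ≤ y := by
          rcases h5 with h5 | h5
          · exact (min_le_left _ _).trans h5
          · exact (min_le_right _ _).trans h5
        refine ⟨⟨h1, h2⟩, ?_, ?_⟩
        · simp only
          linarith
        · simp only
          linarith
      refine (measure_mono hsub).trans ?_
      have hcf : Continuous fun x => min (c1 + d1 * x) (c2 + d2 * x) - η := by fun_prop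
      have hcg : Continuous fun x => min (a1 + b1 * x) (a2 + b2 * x) + η := by fun_prop
      have mL : ∀ x, x ≤ l → min (c1 + d1 * x) (c2 + d2 * x) = c1 + d1 * x := by
        intro x hx
        apply min_eq_left
        nlinarith
      have mR : ∀ x, l ≤ x → min (c1 + d1 * x) (c2 + d2 * x) = c2 + d2 * x := by
        intro x hx
        apply min_eq_right
        nlinarith
      have hle : ∀ x ∈ Icc X0 X1, min (c1 + d1 * x) (c2 + d2 * x) - η ≤
          min (a1 + b1 * x) (a2 + b2 * x) + η := by
        rintro x ⟨h1, h2⟩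
        have : min (c1 + d1 * x) (c2 + d2 * x) ≤ min (a1 + b1 * x) (a2 + b2 * x) := by
          rcases le_total x l with h | h
          · rw [mL x h]
            obtain ⟨e1, e2⟩ := hL x h1 h
            rw [r1, r3] at e1
            rw [r2, r3] at e2
            exact le_min e1.le e2.le
          · rw [mR x h]
            obtain ⟨e1, e2⟩ := hR x h h2
            rw [r1, r4] at e1
            rw [r2, r4] at e2
            exact le_min e1.le e2.le
        linarith
      have hvol := volume_regionBetween_eq_integral (μ := volume)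
        (f := fun x => min (c1 + d1 * x) (c2 + d2 * x) - η)
        (g := fun x => min (a1 + b1 * x) (a2 + b2 * x) + η) (s := Icc X0 X1)
        (hcf.integrableOn_Icc) (hcg.integrableOn_Icc) measurableSet_Icc hle
      rw [Measure.volume_eq_prod, hvol]
      have hI : ∀ (f : ℝ → ℝ) (_ : Continuous f) (u v : ℝ), IntervalIntegrable f volume u v :=
        fun f hf u v => hf.intervalIntegrable u v
      have i1 : ∫ x in X0..X1, min (a1 + b1 * x) (a2 + b2 * x) ≤
          a1 * (p - X0) + b1 * (p ^ 2 - X0 ^ 2) / 2 + a2 * (X1 - p) + b2 * (X1 ^ 2 - p ^ 2) / 2 :=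
        integral_min_le hp0 hp1 a1 b1 a2 b2
      have i2 : ∫ x in X0..X1, min (c1 + d1 * x) (c2 + d2 * x) =
          c1 * (l - X0) + d1 * (l ^ 2 - X0 ^ 2) / 2 + (c2 * (X1 - l) +
            d2 * (X1 ^ 2 - l ^ 2) / 2) := by
        rw [← intervalIntegral.integral_add_adjacent_intervals
          (hI _ (by fun_prop) X0 l) (hI _ (by fun_prop) l X1),
          ← integral_affine c1 d1, ← integral_affine c2 d2]
        congr 1
        · apply intervalIntegral.integral_congr
          intro x hx
          rw [uIcc_of_le hl0.le] at hx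
          exact mL x hx.2
        · apply intervalIntegral.integral_congr
          intro x hx
          rw [uIcc_of_le hl1.le] at hx
          exact mR x hx.1
      have hA : 0 ≤ ∫ x in X0..X1, (min (a1 + b1 * x) (a2 + b2 * x) -
          min (c1 + d1 * x) (c2 + d2 * x)) := by
        apply intervalIntegral.integral_nonneg hX.le
        rintro x ⟨h1, h2⟩
        rcases le_total x l with h | h
        · rw [mL x h]
          obtain ⟨e1, e2⟩ := hL x h1 h
          rw [r1, r3] at e1
          rw [r2, r3] at e2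
          have := le_min e1.le e2.le
          linarith
        · rw [mR x h]
          obtain ⟨e1, e2⟩ := hR x h h2
          rw [r1, r4] at e1
          rw [r2, r4] at e2
          have := le_min e1.le e2.le
          linarith
      have hA2 : ∫ x in X0..X1, (min (a1 + b1 * x) (a2 + b2 * x) -
          min (c1 + d1 * x) (c2 + d2 * x)) ≤ V := by
        rw [intervalIntegral.integral_sub (hI _ (by fun_prop) _ _) (hI _ (by fun_prop) _ _), i2]
        refine le_trans (sub_le_sub_right i1 _) (le_trans (le_of_eq ?_) hV)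
        ring
      rw [← ENNReal.ofReal_add (hA.trans hA2) hε.le]
      apply ENNReal.ofReal_le_ofReal
      rw [integral_Icc_eq_integral_Ioc, ← intervalIntegral.integral_of_le hX.le]
      have e5 : (fun x => ((fun x => min (a1 + b1 * x) (a2 + b2 * x) + η) -
          fun x => min (c1 + d1 * x) (c2 + d2 * x) - η) x) = fun x =>
          (min (a1 + b1 * x) (a2 + b2 * x) - min (c1 + d1 * x) (c2 + d2 * x)) + 2 * η := by
        ext x
        simp only [Pi.sub_apply]
        ring
      rw [e5, intervalIntegral.integral_add (hI _ (by fun_prop) _ _) (by simp),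
        intervalIntegral.integral_const, smul_eq_mul]
      nlinarith

end Pool.Agent.Helper37.LT
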