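import Pool.Agent.Helper39.P5.Area
import Pool.Agent.Helper37.PH.Dual
import Pool.Agent.Helper37.LT.Kink

/-!
# MP_8bf717_co, project LT (the regular pentagon is a local maximum): definitions

`Fr K u p a g2 g3 o1 o4`: the body `K` in the coordinates of one apex. The nearly regular inscribed
pentagon has the vertices `v0 = (u, p)`, `v1 = (0, 0)`, `v2 = (a, -g2)`, `v3 = (1 - a, -g3)`,
`v4 = (1, 0)`; `K` lies between the walls `x = -o1` and `x = 1 + o4`.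

`Near K v0 v1 v2 v3 v4`: the same in arbitrary coordinates, symmetric under rotation.
-/

set_option autoImplicit false

open MeasureTheory Set

namespace Pool.Agent.Helper37.LT

open Pool.Agent.Helper37.PH Pool.Agent.Helper27.PHU Pool.Agent.Helper39.P5

structure Fr (K : Set (ℝ × ℝ)) (u p a g2 g3 o1 o4 : ℝ) : Prop where
  body : IsBody K
  m0 : ((u, p) : ℝ × ℝ) ∈ K
  m1 : ((0, 0) : ℝ × ℝ) ∈ K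
  m2 : ((a, -g2) : ℝ × ℝ) ∈ K
  m3 : ((1 - a, -g3) : ℝ × ℝ) ∈ K
  m4 : ((1, 0) : ℝ × ℝ) ∈ K
  u0 : 4999 / 10000 ≤ u
  u1 : u ≤ 5001 / 10000
  p0 : 276343 / 1000000 ≤ p
  p1 : p ≤ 276443 / 1000000
  a0 : 190933 / 1000000 ≤ a
  a1 : a ≤ 191033 / 1000000
  g20 : 447164 / 1000000 ≤ g2
  g21 : g2 ≤ 447264 / 1000000
  g30 : 447164 / 1000000 ≤ g3
  g31 : g3 ≤ 447264 / 1000000
  o10 : 0 ≤ o1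
  o11 : o1 ≤ 1 / 10000
  o40 : 0 ≤ o4
  o41 : o4 ≤ 1 / 10000
  x0 : ∀ z ∈ K, -o1 ≤ z.1
  x1 : ∀ z ∈ K, z.1 ≤ 1 + o4
  w1 : ∃ z ∈ K, z.1 = -o1
  w4 : ∃ z ∈ K, z.1 = 1 + o4
  th0 : ∀ z ∈ K, u * z.2 - p * z.1 ≤ 1 / 100000
  th4 : ∀ z ∈ K, (1 - u) * z.2 - p * (1 - z.1) ≤ 1 / 100000
  th2 : ∀ z ∈ K, (g2 - g3) * (z.1 - a) - (1 - 2 * a) * (z.2 + g2) ≤ 1 / 100000
  s1 : ∀ z ∈ K, z.1 ≤ 0 → z.2 ≤ 2 * z.1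
  s4 : ∀ z ∈ K, 1 ≤ z.1 → z.2 ≤ 2 * (1 - z.1)
  s2 : ∀ z ∈ K, z.1 ≤ a → -g2 + 1 / 2 * (a - z.1) ≤ z.2
  s3 : ∀ z ∈ K, 1 - a ≤ z.1 → -g3 + 1 / 2 * (z.1 - (1 - a)) ≤ z.2

/-- the ear `e` is close to its value `(5 - √5)/10` for the regular pentagon of double area `1` -/
def NE (e : ℝ) : Prop := |e - 276393 / 1000000| ≤ 1 / 1000000

structure Near (K : Set (ℝ × ℝ)) (v0 v1 v2 v3 v4 : ℝ × ℝ) : Prop where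
  body : IsBody K
  m0 : v0 ∈ K
  m1 : v1 ∈ K
  m2 : v2 ∈ K
  m3 : v3 ∈ K
  m4 : v4 ∈ K
  e0 : NE (tr v4 v0 v1)
  e1 : NE (tr v0 v1 v2)
  e2 : NE (tr v1 v2 v3)
  e3 : NE (tr v2 v3 v4)
  e4 : NE (tr v3 v4 v0)
  sh1 : |sh v0 v1 v2 v3 v4 - 1| ≤ 1 / 1000000
  th0 : ∀ z ∈ K, -tr v0 v1 z ≤ 1 / 1000000
  th1 : ∀ z ∈ K, -tr v1 v2 z ≤ 1 / 1000000
  th2 : ∀ z ∈ K, -tr v2 v3 z ≤ 1 / 1000000
  th3 : ∀ z ∈ K, -tr v3 v4 z ≤ 1 / 1000000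
  th4 : ∀ z ∈ K, -tr v4 v0 z ≤ 1 / 1000000
  t0 : ∃ α β : ℝ, |α - 1| ≤ 1 / 1000 ∧ |β - 1| ≤ 1 / 1000 ∧
    ∀ z ∈ K, 0 ≤ α * tr v4 v0 z + β * tr v0 v1 z
  t1 : ∃ α β : ℝ, |α - 1| ≤ 1 / 1000 ∧ |β - 1| ≤ 1 / 1000 ∧
    ∀ z ∈ K, 0 ≤ α * tr v0 v1 z + β * tr v1 v2 z
  t2 : ∃ α β : ℝ, |α - 1| ≤ 1 / 1000 ∧ |β - 1| ≤ 1 / 1000 ∧
    ∀ z ∈ K, 0 ≤ α * tr v1 v2 z + β * tr v2 v3 z
  t3 : ∃ α β : ℝ, |α - 1| ≤ 1 / 1000 ∧ |β - 1| ≤ 1 / 1000 ∧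
    ∀ z ∈ K, 0 ≤ α * tr v2 v3 z + β * tr v3 v4 z
  t4 : ∃ α β : ℝ, |α - 1| ≤ 1 / 1000 ∧ |β - 1| ≤ 1 / 1000 ∧
    ∀ z ∈ K, 0 ≤ α * tr v3 v4 z + β * tr v4 v0 z

theorem Near.rot {K : Set (ℝ × ℝ)} {v0 v1 v2 v3 v4 : ℝ × ℝ} (h : Near K v0 v1 v2 v3 v4) :
    Near K v1 v2 v3 v4 v0 where
  body := h.body
  m0 := h.m1
  m1 := h.m2
  m2 := h.m3
  m3 := h.m4
  m4 := h.m0
  e0 := h.e1
  e1 := h.e2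
  e2 := h.e3
  e3 := h.e4
  e4 := h.e0
  sh1 := by rw [sh_rot]; exact h.sh1
  th0 := h.th1
  th1 := h.th2
  th2 := h.th3
  th3 := h.th4
  th4 := h.th0
  t0 := h.t1
  t1 := h.t2
  t2 := h.t3
  t3 := h.t4
  t4 := h.t0

/-- `z` is over the fraction `x` of the side `v w` (`u` is the opposite vertex). -/
def Pos (u v z : ℝ × ℝ) (x : ℝ) : Prop := |tr u v z - x * (447214 / 1000000)| ≤ 1 / 2000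

end Pool.Agent.Helper37.LT
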