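import Pool.Agent.Helper37.LT.Apex
import Pool.Agent.Helper37.LT.Caps

/-!
# MP_8bf717_co, project LT: the inequality of a side
-/

set_option autoImplicit false

open MeasureTheory Set

namespace Pool.Agent.Helper37.LT

open Pool.Agent.Helper37.PH Pool.Agent.Helper27.PHU Pool.Agent.Helper39.P5
open Pool.Agent.Helper61.PH Pool.Agent.Helper83.PHU Pool.Agent.Helper37.OS

/-- affine functionals on a weighted mean of three points -/
theorem mean3 {K : Set (ℝ × ℝ)} (hK : Convex ℝ K) {x y z : ℝ × ℝ} (hx : x ∈ K) (hy : y ∈ K)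
    (hz : z ∈ K) {a b c : ℝ} (ha : 0 ≤ a) (hb : 0 ≤ b) (hc : 0 ≤ c) (habc : a + b + c = 1) :
    ∃ q ∈ K, ∀ u v : ℝ × ℝ, tr u v q = a * tr u v x + b * tr u v y + c * tr u v z := by
  refine ⟨a • x + b • y + c • z, ?_, ?_⟩
  · rcases eq_or_lt_of_le (add_nonneg ha hb) with h | h
    · have h1 : a = 0 := by linarith
      have h2 : b = 0 := by linarith
      have h3 : c = 1 := by linarith
      rw [h1, h2, h3, zero_smul, zero_smul, one_smul, zero_add, zero_add]
      exact hz
    · have h1 : (a / (a + b)) • x + (b / (a + b)) • y ∈ K :=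
        hK hx hy (by positivity) (by positivity) (by field_simp)
      have h2 := hK h1 hz (by linarith : 0 ≤ a + b) hc habc
      have e : (a + b) • ((a / (a + b)) • x + (b / (a + b)) • y) + c • z =
          a • x + b • y + c • z := by
        rw [smul_add, smul_smul, smul_smul, mul_div_cancel₀ _ h.ne', mul_div_cancel₀ _ h.ne']
      rwa [e] at h2
  · intro u v
    simp only [tr_eq, Prod.fst_add, Prod.snd_add, Prod.smul_fst, Prod.smul_snd, smul_eq_mul]
    have h1 : c = 1 - a - b := by linarith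
    rw [h1]
    ring

theorem edge {K : Set (ℝ × ℝ)} (hK : IsBody K) {v w c L1 L2 L3 R1 R2 R3 M N : ℝ × ℝ}
    (hv : v ∈ K) (hw : w ∈ K) (ht : |tr c v w - 447214 / 1000000| ≤ 1 / 10000)
    (thin : ∀ z ∈ K, -tr v w z ≤ 1 / 1000000)
    (cL1 : Ct K c v w L1 (381966 / 1000000)) (cL2 : Ct K c v w L2 (419821 / 1000000))
    (cL3 : Ct K c v w L3 (345492 / 1000000)) (cR1 : Ct K c v w R1 (580179 / 1000000))
    (cR2 : Ct K c v w R2 (618034 / 1000000)) (cR3 : Ct K c v w R3 (654508 / 1000000))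
    (tM : TipL K c v w M) (tN : TipR K c v w N) :
    4048 / 10000 * -tr v w L1 + 5958 / 10000 * -tr v w L2 + 8096 / 10000 * -tr v w L3 +
      5958 / 10000 * -tr v w R1 + 4048 / 10000 * -tr v w R2 + 8096 / 10000 * -tr v w R3 +
      103 / 100 * -tr v w M + 103 / 100 * -tr v w N ≤ 58541 / 10000 * kap K v w := by
  obtain ⟨L, hL, eL⟩ := mean3 hK.convex cL1.mem cL2.mem cL3.mem
    (a := 4048 / 18102) (b := 5958 / 18102) (c := 8096 / 18102) (by norm_num) (by norm_num)
    (by norm_num) (by norm_num)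
  obtain ⟨R, hR, eR⟩ := mean3 hK.convex cR1.mem cR2.mem cR3.mem
    (a := 5958 / 18102) (b := 4048 / 18102) (c := 8096 / 18102) (by norm_num) (by norm_num)
    (by norm_num) (by norm_num)
  have p1 := cL1.pos
  have p2 := cL2.pos
  have p3 := cL3.pos
  have p4 := cR1.pos
  have p5 := cR2.pos
  have p6 := cR3.pos
  unfold Pos at p1 p2 p3 p4 p5 p6
  rw [abs_le] at p1 p2 p3 p4 p5 p6 ht
  obtain ⟨p1, p1'⟩ := p1
  obtain ⟨p2, p2'⟩ := p2
  obtain ⟨p3, p3'⟩ := p3
  obtain ⟨p4, p4'⟩ := p4
  obtain ⟨p5, p5'⟩ := p5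
  obtain ⟨p6, p6'⟩ := p6
  obtain ⟨t0, t1⟩ := ht
  have o1 := cL1.out
  have o2 := cL2.out
  have o3 := cL3.out
  have o4 := cR1.out
  have o5 := cR2.out
  have o6 := cR3.out
  have oM := tM.out
  have oN := tN.out
  have xL := eL c v
  have xR := eR c v
  have TL := eL v w
  have TR := eR v w
  have xL0 : 168590 / 1000000 ≤ tr c v L := by rw [xL]; linarith
  have xL1 : tr c v L ≤ 169600 / 1000000 := by rw [xL]; linarith
  have xR0 : 277610 / 1000000 ≤ tr c v R := by rw [xR]; linarith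
  have xR1 : tr c v R ≤ 278620 / 1000000 := by rw [xR]; linarith
  have TL0 : tr v w L ≤ 0 := by rw [TL]; linarith
  have TR0 : tr v w R ≤ 0 := by rw [TR]; linarith
  have TL1 := thin L hL
  have TR1 := thin R hR
  have TM1 := thin M tM.mem
  have TN1 := thin N tN.mem
  have xM0 := tM.p0
  have xM1 := tM.p1
  have xN0 := tN.p0
  have xN1 := tN.p1
  have b1 : -tr v w L * tr c v M ≤ 1 / 1000000 * (6 * -tr v w M) :=
    mul_le_mul TL1 xM1 xM0 (by norm_num)
  have b2 : -tr v w R * (tr c v w - tr c v N) ≤ 1 / 1000000 * (6 * -tr v w N) :=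
    mul_le_mul TR1 xN1 (by linarith) (by norm_num)
  have b3 : 168590 / 1000000 * -tr v w M ≤ -tr v w M * tr c v L := by
    rw [mul_comm (-tr v w M)]
    exact mul_le_mul_of_nonneg_right xL0 (by linarith)
  have b4 : 168490 / 1000000 * -tr v w N ≤ -tr v w N * (tr c v w - tr c v R) := by
    rw [mul_comm (-tr v w N)]
    exact mul_le_mul_of_nonneg_right (by linarith) (by linarith)
  have b5 : 277610 / 1000000 * -tr v w L ≤ -tr v w L * tr c v R := by
    rw [mul_comm (-tr v w L)]
    exact mul_le_mul_of_nonneg_right xR0 (by linarith)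
  have b6 : 277510 / 1000000 * -tr v w R ≤ -tr v w R * (tr c v w - tr c v L) := by
    rw [mul_comm (-tr v w R)]
    exact mul_le_mul_of_nonneg_right (by linarith) (by linarith)
  have key := kap4 hK (v := v) (w := w) (c := c) (M := M) (L := L) (R := R) (N := N) hv hw
    tM.mem hL hR tN.mem (by linarith) oM TL0 TR0 oN xM0 (by linarith) (by linarith)
    (by linarith) xN0 (by linarith) (by linarith)
  have kn := kap_nonneg K v w
  have b7 : 2 * tr c v w * kap K v w ≤ 894630 / 1000000 * kap K v w :=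
    mul_le_mul_of_nonneg_right (by linarith) kn
  have e1 : 4048 / 10000 * -tr v w L1 + 5958 / 10000 * -tr v w L2 + 8096 / 10000 * -tr v w L3 =
      18102 / 10000 * -tr v w L := by rw [TL]; ring
  have e2 : 5958 / 10000 * -tr v w R1 + 4048 / 10000 * -tr v w R2 + 8096 / 10000 * -tr v w R3 =
      18102 / 10000 * -tr v w R := by rw [TR]; ring
  linarith

end Pool.Agent.Helper37.LT
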