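import Pool.Agent.Helper37.LT.Edge

/-!
# MP_8bf717_co, project LT: the sum of the ten hexagons
-/

set_option autoImplicit false

open MeasureTheory Set

namespace Pool.Agent.Helper37.LT

open Pool.Agent.Helper37.PH Pool.Agent.Helper27.PHU Pool.Agent.Helper39.P5
open Pool.Agent.Helper61.PH Pool.Agent.Helper83.PHU Pool.Agent.Helper37.OS

/-- The weighted mean of the two hexagons of an apex. -/
theorem Apex.comb {K : Set (ℝ × ℝ)} {v0 v1 v2 v3 v4 : ℝ × ℝ} {c lam : ℝ}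
    {M N q0 q4 q2 r0 r4 r2 : ℝ × ℝ} (h : Apex K v0 v1 v2 v3 v4 c lam M N q0 q4 q2 r0 r4 r2)
    (e2 : NE (tr v1 v2 v3)) (e3 : NE (tr v2 v3 v4)) :
    c ≤ sh v0 v1 v2 v3 v4 - (tr v4 v0 v1 + tr v1 v2 v3 + tr v2 v3 v4) / 2 -
      9 / 10 * (tr v2 v3 v4 - tr v1 v2 v3) ^ 2 +
      (4048 / 10000 * -tr v0 v1 q0 + 5958 / 10000 * -tr v4 v0 q4 + 8096 / 10000 * -tr v2 v3 q2) +
      (5958 / 10000 * -tr v0 v1 r0 + 4048 / 10000 * -tr v4 v0 r4 + 8096 / 10000 * -tr v2 v3 r2) +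
      103 / 100 * -tr v1 v2 M + 103 / 100 * -tr v3 v4 N := by
  obtain ⟨Δ, hΔ⟩ : ∃ Δ, Δ = tr v2 v3 v4 - tr v1 v2 v3 := ⟨_, rfl⟩
  unfold NE at e2 e3
  rw [abs_le] at e2 e3
  have d0 : -2 / 1000000 ≤ Δ := by rw [hΔ]; linarith [e2.2, e3.1]
  have d1 : Δ ≤ 2 / 1000000 := by rw [hΔ]; linarith [e2.1, e3.2]
  have i1 := h.i1
  have i3 := h.i3
  rw [← hΔ] at i1 i3 ⊢
  have a1 := mul_le_mul_of_nonneg_left i1 (by linarith : 0 ≤ 1 / 2 - 3 * Δ)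
  have a3 := mul_le_mul_of_nonneg_left i3 (by linarith : 0 ≤ 1 / 2 + 3 * Δ)
  have T1 : 0 ≤ -tr v0 v1 q0 := by linarith [h.cq0.out]
  have T2 : 0 ≤ -tr v4 v0 q4 := by linarith [h.cq4.out]
  have T3 : 0 ≤ -tr v2 v3 q2 := by linarith [h.cq2.out]
  have T4 : 0 ≤ -tr v0 v1 r0 := by linarith [h.cr0.out]
  have T5 : 0 ≤ -tr v4 v0 r4 := by linarith [h.cr4.out]
  have T6 : 0 ≤ -tr v2 v3 r2 := by linarith [h.cr2.out]
  have T7 : 0 ≤ -tr v1 v2 M := by linarith [h.tM.out]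
  have T8 : 0 ≤ -tr v3 v4 N := by linarith [h.tN.out]
  generalize -tr v0 v1 q0 = X1 at *
  generalize -tr v4 v0 q4 = X2 at *
  generalize -tr v2 v3 q2 = X3 at *
  generalize -tr v0 v1 r0 = X4 at *
  generalize -tr v4 v0 r4 = X5 at *
  generalize -tr v2 v3 r2 = X6 at *
  generalize -tr v1 v2 M = X7 at *
  generalize -tr v3 v4 N = X8 at *
  have b1 : (1 / 2 - 3 * Δ) * (8092 / 10000) * X1 ≤ 4048 / 10000 * X1 :=
    mul_le_mul_of_nonneg_right (by linarith) T1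
  have b2 : (1 / 2 - 3 * Δ) * (11912 / 10000) * X2 ≤ 5958 / 10000 * X2 :=
    mul_le_mul_of_nonneg_right (by linarith) T2
  have b3 : (1 / 2 - 3 * Δ) * (16186 / 10000) * X3 ≤ 8096 / 10000 * X3 :=
    mul_le_mul_of_nonneg_right (by linarith) T3
  have b4 : (1 / 2 + 3 * Δ) * (11912 / 10000) * X4 ≤ 5958 / 10000 * X4 :=
    mul_le_mul_of_nonneg_right (by linarith) T4
  have b5 : (1 / 2 + 3 * Δ) * (8092 / 10000) * X5 ≤ 4048 / 10000 * X5 :=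
    mul_le_mul_of_nonneg_right (by linarith) T5
  have b6 : (1 / 2 + 3 * Δ) * (16186 / 10000) * X6 ≤ 8096 / 10000 * X6 :=
    mul_le_mul_of_nonneg_right (by linarith) T6
  have b7 : ((1 / 2 - 3 * Δ) * (114 / 100) + (1 / 2 + 3 * Δ) * (91 / 100)) * X7 ≤
      103 / 100 * X7 := mul_le_mul_of_nonneg_right (by linarith) T7
  have b8 : ((1 / 2 - 3 * Δ) * (91 / 100) + (1 / 2 + 3 * Δ) * (114 / 100)) * X8 ≤
      103 / 100 * X8 := mul_le_mul_of_nonneg_right (by linarith) T8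
  have b9 : 3 / 10 * (3 * Δ ^ 2) ≤ lam * (3 * Δ ^ 2) :=
    mul_le_mul_of_nonneg_right h.l0 (by positivity)
  nlinarith

/-- Gauss' identity for the ears of a pentagon -/
theorem ears (v0 v1 v2 v3 v4 : ℝ × ℝ) : sh v0 v1 v2 v3 v4 ^ 2 - sh v0 v1 v2 v3 v4 *
    (tr v4 v0 v1 + tr v0 v1 v2 + tr v1 v2 v3 + tr v2 v3 v4 + tr v3 v4 v0) +
    (tr v4 v0 v1 * tr v0 v1 v2 + tr v0 v1 v2 * tr v1 v2 v3 + tr v1 v2 v3 * tr v2 v3 v4 +
      tr v2 v3 v4 * tr v3 v4 v0 + tr v3 v4 v0 * tr v4 v0 v1) = 0 := by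
  obtain ⟨x0, y0⟩ := v0
  obtain ⟨x1, y1⟩ := v1
  obtain ⟨x2, y2⟩ := v2
  obtain ⟨x3, y3⟩ := v3
  obtain ⟨x4, y4⟩ := v4
  simp only [tr_eq]
  unfold sh cr
  ring

/-- the base areas -/
theorem base_num {A e0 e1 e2 e3 e4 : ℝ} (hA : |A - 1| ≤ 1 / 1000000)
    (hG : A ^ 2 - A * (e0 + e1 + e2 + e3 + e4) + (e0 * e1 + e1 * e2 + e2 * e3 + e3 * e4 + e4 * e0)
      = 0) :
    5 * A - 3 / 2 * (e0 + e1 + e2 + e3 + e4) - 9 / 10 * ((e1 - e0) ^ 2 + (e2 - e1) ^ 2 +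
      (e3 - e2) ^ 2 + (e4 - e3) ^ 2 + (e0 - e4) ^ 2) ≤ (5 + 3 * Real.sqrt 5) / 4 * A := by
  rw [abs_le] at hA
  obtain ⟨A0, A1⟩ := hA
  set r := Real.sqrt 5 with hr
  have r2 : r ^ 2 = 5 := Real.sq_sqrt (by norm_num)
  have r0 : 0 ≤ r := Real.sqrt_nonneg 5
  have r1 : 2236 / 1000 ≤ r := by
    by_contra hc
    push Not at hc
    nlinarith
  have r3 : r ≤ 2237 / 1000 := by
    by_contra hc
    push Not at hc
    nlinarith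
  obtain ⟨E, hE⟩ : ∃ E, E = (5 - r) / 10 * A := ⟨_, rfl⟩
  obtain ⟨d0, h0⟩ : ∃ d, d = e0 - E := ⟨_, rfl⟩
  obtain ⟨d1, h1⟩ : ∃ d, d = e1 - E := ⟨_, rfl⟩
  obtain ⟨d2, h2⟩ : ∃ d, d = e2 - E := ⟨_, rfl⟩
  obtain ⟨d3, h3⟩ : ∃ d, d = e3 - E := ⟨_, rfl⟩
  obtain ⟨d4, h4⟩ : ∃ d, d = e4 - E := ⟨_, rfl⟩
  have f0 : e0 = E + d0 := by linarith
  have f1 : e1 = E + d1 := by linarith
  have f2 : e2 = E + d2 := by linarith
  have f3 : e3 = E + d3 := by linarith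
  have f4 : e4 = E + d4 := by linarith
  rw [f0, f1, f2, f3, f4] at hG ⊢
  obtain ⟨s, hs⟩ : ∃ s, s = d0 + d1 + d2 + d3 + d4 := ⟨_, rfl⟩
  obtain ⟨k, hk⟩ : ∃ k, k = d0 * d1 + d1 * d2 + d2 * d3 + d3 * d4 + d4 * d0 := ⟨_, rfl⟩
  obtain ⟨Q, hQ⟩ : ∃ Q, Q = d0 ^ 2 + d1 ^ 2 + d2 ^ 2 + d3 ^ 2 + d4 ^ 2 := ⟨_, rfl⟩
  have hsk : A * s = r * k := by
    have e1 : A ^ 2 - A * (5 * E + s) + (5 * E ^ 2 + 2 * E * s + k) = 0 := by
      rw [← hG, hs, hk]; ring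
    rw [hE] at e1
    have e2 : r * (A ^ 2 - A * (5 * ((5 - r) / 10 * A) + s) + (5 * ((5 - r) / 10 * A) ^ 2 +
        2 * ((5 - r) / 10 * A) * s + k)) = r * 0 := by rw [e1]
    linear_combination (-1 : ℝ) * e2 + (A ^ 2 * r / 20 - A * s / 5) * r2
  have hQk : 0 ≤ Q + k := by
    have : Q + k = ((d0 + d1) ^ 2 + (d1 + d2) ^ 2 + (d2 + d3) ^ 2 + (d3 + d4) ^ 2 +
        (d4 + d0) ^ 2) / 2 := by rw [hQ, hk]; ring
    rw [this]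
    positivity
  have hQ0 : 0 ≤ Q := by rw [hQ]; positivity
  -- the claim is `0 ≤ 3 / 2 s + 9 / 5 Q - 9 / 5 k`
  have main : 0 ≤ 3 / 2 * s + 9 / 5 * Q - 9 / 5 * k := by
    have hA0 : 0 < A := by linarith
    have h1 : 0 ≤ A * (3 / 2 * s + 9 / 5 * Q - 9 / 5 * k) := by
      have e1 : A * (3 / 2 * s + 9 / 5 * Q - 9 / 5 * k) =
          (3 / 2 * r - 9 / 5 * A) * (Q + k) + (18 / 5 * A - 3 / 2 * r) * Q := by
        linear_combination (3 / 2) * hsk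
      rw [e1]
      have e2 : 0 ≤ (3 / 2 * r - 9 / 5 * A) * (Q + k) := mul_nonneg (by linarith) hQk
      have e3 : 0 ≤ (18 / 5 * A - 3 / 2 * r) * Q := mul_nonneg (by linarith) hQ0
      linarith
    exact nonneg_of_mul_nonneg_right h1 hA0
  have e5 : 5 * A - 3 / 2 * (E + d0 + (E + d1) + (E + d2) + (E + d3) + (E + d4)) -
      9 / 10 * ((E + d1 - (E + d0)) ^ 2 + (E + d2 - (E + d1)) ^ 2 + (E + d3 - (E + d2)) ^ 2 +
      (E + d4 - (E + d3)) ^ 2 + (E + d0 - (E + d4)) ^ 2) =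
      (5 + 3 * r) / 4 * A - (3 / 2 * s + 9 / 5 * Q - 9 / 5 * k) := by
    rw [hE, hs, hQ, hk]; ring
  rw [e5]
  linarith

theorem sh_tri (v0 v1 v2 v3 v4 : ℝ × ℝ) : sh v0 v1 v2 v3 v4 = tr v1 v2 v3 + tr v3 v4 v0 +
    tr v3 v0 v1 := by
  simp only [tr_eq]
  unfold sh cr
  ring

/-- Bodies close to the regular pentagon. -/
theorem Near.cov {K : Set (ℝ × ℝ)} {v0 v1 v2 v3 v4 : ℝ × ℝ} (h : Near K v0 v1 v2 v3 v4) :
    Cov K ((5 + 3 * Real.sqrt 5) / 10 * (volume K).toReal) := by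
  apply Pool.Agent.Helper85.PHU.cov_limit
  intro δ hδ
  by_contra hc
  have h1 := h.rot
  have h2 := h1.rot
  have h3 := h2.rot
  have h4 := h3.rot
  obtain ⟨l0, M0, N0, a0, b0, c0, d0, f0, g0, A0⟩ := h.apex hc
  obtain ⟨l1, M1, N1, a1, b1, c1, d1, f1, g1, A1⟩ := h1.apex hc
  obtain ⟨l2, M2, N2, a2, b2, c2, d2, f2, g2, A2⟩ := h2.apex hc
  obtain ⟨l3, M3, N3, a3, b3, c3, d3, f3, g3, A3⟩ := h3.apex hc
  obtain ⟨l4, M4, N4, a4, b4, c4, d4, f4, g4, A4⟩ := h4.apex hc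
  have C0 := A0.comb h.e2 h.e3
  have C1 := A1.comb h.e3 h.e4
  have C2 := A2.comb h.e4 h.e0
  have C3 := A3.comb h.e0 h.e1
  have C4 := A4.comb h.e1 h.e2
  have ee0 := h.e0
  have ee1 := h.e1
  have ee2 := h.e2
  have ee3 := h.e3
  have ee4 := h.e4
  have es := h.sh1
  unfold NE at ee0 ee1 ee2 ee3 ee4
  have base := base_num es (ears v0 v1 v2 v3 v4)
  have area := h.area
  rw [abs_le] at ee0 ee1 ee2 ee3 ee4 es
  obtain ⟨ee0, ee0'⟩ := ee0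
  obtain ⟨ee1, ee1'⟩ := ee1
  obtain ⟨ee2, ee2'⟩ := ee2
  obtain ⟨ee3, ee3'⟩ := ee3
  obtain ⟨ee4, ee4'⟩ := ee4
  obtain ⟨es, es'⟩ := es
  have g0' := sh_tri v0 v1 v2 v3 v4
  have g1' := sh_tri v1 v2 v3 v4 v0
  have g2' := sh_tri v2 v3 v4 v0 v1
  have g3' := sh_tri v3 v4 v0 v1 v2
  have g4' := sh_tri v4 v0 v1 v2 v3
  have s1 : sh v1 v2 v3 v4 v0 = sh v0 v1 v2 v3 v4 := sh_rot _ _ _ _ _
  have s2 : sh v2 v3 v4 v0 v1 = sh v0 v1 v2 v3 v4 := by rw [sh_rot, s1]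
  have s3 : sh v3 v4 v0 v1 v2 = sh v0 v1 v2 v3 v4 := by rw [sh_rot, s2]
  have s4 : sh v4 v0 v1 v2 v3 = sh v0 v1 v2 v3 v4 := by rw [sh_rot, s3]
  rw [s1] at C1 g1'
  rw [s2] at C2 g2'
  rw [s3] at C3 g3'
  rw [s4] at C4 g4'
  have t0 : |tr v3 v0 v1 - 447214 / 1000000| ≤ 1 / 10000 := by
    rw [abs_le]; constructor <;> linarith
  have t1 : |tr v4 v1 v2 - 447214 / 1000000| ≤ 1 / 10000 := by
    rw [abs_le]; constructor <;> linarith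
  have t2 : |tr v0 v2 v3 - 447214 / 1000000| ≤ 1 / 10000 := by
    rw [abs_le]; constructor <;> linarith
  have t3 : |tr v1 v3 v4 - 447214 / 1000000| ≤ 1 / 10000 := by
    rw [abs_le]; constructor <;> linarith
  have t4 : |tr v2 v4 v0 - 447214 / 1000000| ≤ 1 / 10000 := by
    rw [abs_le]; constructor <;> linarith
  have E0 := edge h.body h.m0 h.m1 t0 h.th0 A0.cq0 A1.cq4 A3.cr2 A0.cr0 A1.cr4 A3.cq2 A4.tM A2.tN
  have E1 := edge h.body h.m1 h.m2 t1 h.th1 A1.cq0 A2.cq4 A4.cr2 A1.cr0 A2.cr4 A4.cq2 A0.tM A3.tN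
  have E2 := edge h.body h.m2 h.m3 t2 h.th2 A2.cq0 A3.cq4 A0.cr2 A2.cr0 A3.cr4 A0.cq2 A1.tM A4.tN
  have E3 := edge h.body h.m3 h.m4 t3 h.th3 A3.cq0 A4.cq4 A1.cr2 A3.cr0 A4.cr4 A1.cq2 A2.tM A0.tN
  have E4 := edge h.body h.m4 h.m0 t4 h.th4 A4.cq0 A0.cq4 A2.cr2 A4.cr0 A0.cr4 A2.cq2 A3.tM A1.tN
  have k0 := kap_nonneg K v0 v1
  have k1 := kap_nonneg K v1 v2
  have k2 := kap_nonneg K v2 v3
  have k3 := kap_nonneg K v3 v4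
  have k4 := kap_nonneg K v4 v0
  set r := Real.sqrt 5 with hr
  have r2 : r ^ 2 = 5 := Real.sq_sqrt (by norm_num)
  have r0 : 0 ≤ r := Real.sqrt_nonneg 5
  have r1 : 2236067 / 1000000 ≤ r := by
    by_contra hcc
    push Not at hcc
    nlinarith
  have u1 := mul_le_mul_of_nonneg_left area (by linarith : 0 ≤ (5 + 3 * r) / 10)
  have u2 : 58541 / 50000 * (kap K v0 v1 + kap K v1 v2 + kap K v2 v3 + kap K v3 v4 +
      kap K v4 v0) ≤ (5 + 3 * r) / 10 * (kap K v0 v1 + kap K v1 v2 + kap K v2 v3 +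
      kap K v3 v4 + kap K v4 v0) := mul_le_mul_of_nonneg_right (by linarith) (by linarith)
  rw [mul_add] at u1
  linarith

end Pool.Agent.Helper37.LT
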