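import Pool.Agent.Helper37.LT.Reg

/-!
# MP_8bf717_co, project LT: the regular pentagon is a local maximum
-/

set_option autoImplicit false

open MeasureTheory Set

namespace Pool.Agent.Helper37.LT

open Pool.Agent.Helper37.PH Pool.Agent.Helper27.PHU Pool.Agent.Helper39.P5
open Pool.Agent.Helper61.PH Pool.Agent.Helper83.PHU Pool.Agent.Helper37.OS
open Pool.Agent.Helper88.PH

/-- the vertices of the normalised pentagon -/
noncomputable def qv : Fin 5 → ℝ × ℝ := ![q0, q1, q2, q3, q4]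

/-- the normalising affine map of an affine-regular pentagon -/
theorem exists_q {P : Fin 5 → ℝ × ℝ} (hAR : AR P) (ht : tr (P 1) (P 4) (P 0) ≠ 0) :
    ∃ (E : (ℝ × ℝ) ≃ᵃ[ℝ] (ℝ × ℝ)) (s : ℝ), 0 < s ∧
      (∀ (K : Set (ℝ × ℝ)) (V : ℝ), Cov (E '' K) (s * V) → Cov K V) ∧
      (∀ K : Set (ℝ × ℝ), volume (E '' K) = ENNReal.ofReal s * volume K) ∧
      (∀ k, E (P k) = qv k) ∧ s * |tr (P 1) (P 4) (P 0)| = (5 - Real.sqrt 5) / 10 := by
  set r := Real.sqrt 5 with hr
  have r2 : r ^ 2 = 5 := Real.sq_sqrt (by norm_num)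
  have r0 : 0 ≤ r := Real.sqrt_nonneg 5
  have r5 : 0 < 5 - r := by nlinarith
  have hg : Real.goldenRatio = (1 + r) / 2 := rfl
  set D := tr (P 1) (P 4) (P 0) with hD
  set d := P 4 - P 1 with hd
  set w : ℝ × ℝ := P 0 - (1 / 2 : ℝ) • (P 1 + P 4) with hw
  set e := (5 - r) / 10 with he
  have he0 : 0 < e := by rw [he]; linarith
  have hDw : cr d w = D := by
    rw [hD, hd, hw, tr_eq]
    unfold cr
    simp only [Prod.fst_sub, Prod.snd_sub, Prod.smul_fst, Prod.smul_snd, Prod.fst_add,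
      Prod.snd_add, smul_eq_mul]
    ring
  have hDw' : D = d.1 * w.2 - d.2 * w.1 := by rw [← hDw]; rfl
  set L0 : (ℝ × ℝ) →ₗ[ℝ] (ℝ × ℝ) :=
    Matrix.toLin (Module.Basis.finTwoProd ℝ) (Module.Basis.finTwoProd ℝ)
      !![w.2 / D, -w.1 / D; -(e / D * d.2), e / D * d.1] with hL0
  have hL0a : ∀ z : ℝ × ℝ, L0 z = (w.2 / D * z.1 + -w.1 / D * z.2,
      -(e / D * d.2) * z.1 + e / D * d.1 * z.2) := by
    intro z
    rw [hL0, Matrix.toLin_finTwoProd_apply]
  have hdet : LinearMap.det L0 = e / D := by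
    rw [hL0, LinearMap.det_toLin, Matrix.det_fin_two_of]
    have : w.2 / D * (e / D * d.1) - -w.1 / D * -(e / D * d.2) =
        e / D * ((d.1 * w.2 - d.2 * w.1) / D) := by
      field_simp
    rw [this, ← hDw', div_self ht, mul_one]
  have hu : IsUnit (LinearMap.det L0) := by
    rw [hdet]
    exact (div_ne_zero he0.ne' ht).isUnit
  set L : (ℝ × ℝ) ≃ₗ[ℝ] (ℝ × ℝ) := LinearEquiv.ofIsUnitDet (v := Module.Basis.finTwoProd ℝ)
    (v' := Module.Basis.finTwoProd ℝ) (f := L0) (by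
      rw [LinearMap.det_toMatrix]
      exact hu) with hL
  have hLa : ∀ z : ℝ × ℝ, L z = (w.2 / D * z.1 + -w.1 / D * z.2,
      -(e / D * d.2) * z.1 + e / D * d.1 * z.2) := by
    intro z
    rw [← hL0a]
    rfl
  have hdetL : |LinearMap.det (L : (ℝ × ℝ) →ₗ[ℝ] (ℝ × ℝ))| = |e / D| := by
    have : (L : (ℝ × ℝ) →ₗ[ℝ] (ℝ × ℝ)) = L0 := by
      rfl
    rw [this, hdet]
  have hs : 0 < |e / D| := abs_pos.2 (div_ne_zero he0.ne' ht)
  have hLd : L d = (1, 0) := by
    rw [hLa]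
    apply Prod.ext
    · simp only
      have : w.2 / D * d.1 + -w.1 / D * d.2 = (d.1 * w.2 - d.2 * w.1) / D := by
        field_simp
        ring
      rw [this, ← hDw', div_self ht]
    · simp only
      ring
  have hLw : L w = (0, e) := by
    rw [hLa]
    apply Prod.ext
    · simp only
      ring
    · simp only
      have : -(e / D * d.2) * w.1 + e / D * d.1 * w.2 = e * ((d.1 * w.2 - d.2 * w.1) / D) := by
        field_simp
        ring
      rw [this, ← hDw', div_self ht, mul_one]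
  have g0 : P 0 - P 1 = w + (1 / 2 : ℝ) • d := by
    rw [hw, hd]
    ext
    · simp only [Prod.fst_sub, Prod.smul_fst, Prod.fst_add, smul_eq_mul]
      ring
    · simp only [Prod.snd_sub, Prod.smul_snd, Prod.snd_add, smul_eq_mul]
      ring
  have a0 := hAR 0
  have a4 := hAR 4
  have g2 : P 2 - P 1 = d - Real.goldenRatio • (w + (1 / 2 : ℝ) • d) := by
    have h1 : P 2 - P 4 = Real.goldenRatio • (P 1 - P 0) := a0
    rw [← g0, hd]
    have : P 2 = P 4 + Real.goldenRatio • (P 1 - P 0) := by rw [← h1]; abel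
    rw [this]
    module
  have g3 : P 3 - P 1 = -(Real.goldenRatio • ((w + (1 / 2 : ℝ) • d) - d)) := by
    have h1 : P 1 - P 3 = Real.goldenRatio • (P 0 - P 4) := a4
    rw [← g0, hd]
    have : P 3 = P 1 - Real.goldenRatio • (P 0 - P 4) := by rw [← h1]; abel
    rw [this]
    module
  refine ⟨affE L (P 1), |e / D|, hs, ?_, ?_, ?_, ?_⟩
  · intro K V h
    apply Cov_affE L (P 1)
    rw [hdetL]
    exact h
  · intro K
    rw [volume_affE, hdetL]
  · intro k
    rw [affE_apply]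
    fin_cases k
    · show L (P 0 - P 1) = q0
      rw [g0, map_add, map_smul, hLd, hLw]
      unfold q0
      ext
      · simp
      · simp [he, hr]
    · show L (P 1 - P 1) = q1
      rw [sub_self, map_zero]
      rfl
    · show L (P 2 - P 1) = q2
      rw [g2, map_sub, map_smul, map_add, map_smul, hLd, hLw]
      unfold q2
      ext
      · simp only [Prod.fst_sub, Prod.smul_fst, Prod.fst_add, smul_eq_mul]
        rw [hg]; ring
      · simp only [Prod.snd_sub, Prod.smul_snd, Prod.snd_add, smul_eq_mul]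
        rw [hg, he]
        linear_combination (1 / 20) * r2
    · show L (P 3 - P 1) = q3
      rw [g3, map_neg, map_smul, map_sub, map_add, map_smul, hLd, hLw]
      unfold q3
      ext
      · simp only [Prod.fst_neg, Prod.fst_sub, Prod.smul_fst, Prod.fst_add, smul_eq_mul]
        rw [hg]; ring
      · simp only [Prod.snd_neg, Prod.snd_sub, Prod.smul_snd, Prod.snd_add, smul_eq_mul]
        rw [hg, he]
        linear_combination (1 / 20) * r2
    · show L (P 4 - P 1) = q4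
      rw [← hd, hLd]
      rfl
  · rw [abs_div, abs_of_pos he0, div_mul_cancel₀]
    exact (abs_pos.2 ht).ne'

theorem image_hull (E : (ℝ × ℝ) ≃ᵃ[ℝ] (ℝ × ℝ)) (P Q : Fin 5 → ℝ × ℝ) (h : ∀ k, E (P k) = Q k) :
    E '' convexHull ℝ (range P) = convexHull ℝ (range Q) := by
  have e1 : (E : (ℝ × ℝ) → (ℝ × ℝ)) = (E : (ℝ × ℝ) →ᵃ[ℝ] (ℝ × ℝ)) := rfl
  rw [e1, AffineMap.image_convexHull, ← range_comp]
  congr 1
  congr 1
  funext k
  exact h k

theorem vol_q : volume (convexHull ℝ (range qv)) ≤ ENNReal.ofReal (1 / 2) := by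
  have hgg := Real.goldenRatio_sq
  have hg1 := Real.one_lt_goldenRatio
  have hglo : 1.618 < Real.goldenRatio := by nlinarith
  have hghi : Real.goldenRatio < 1.6181 := by nlinarith
  have hτ : 2 - Real.goldenRatio ≤ (1 / 2 : ℝ) := by linarith
  have hτ' : (1 / 2 : ℝ) ≤ Real.goldenRatio - 1 := by linarith
  have hvle := vol_pent_le hτ hτ'
  have e1 : tr (Pv (1 / 2) 1) (Pv (1 / 2) 4) (Pv (1 / 2) 0) = -1 := by
    show tr ((1 : ℝ), (0 : ℝ)) (0, 0) (1 / 2, 1) = -1
    simp only [tr_eq]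
    norm_num
  obtain ⟨E, s, hs, -, hvol, hE, hs1⟩ := exists_q (AR_Pv (1 / 2)) (by rw [e1]; norm_num)
  rw [e1, abs_neg, abs_one, mul_one] at hs1
  rw [← image_hull E _ _ hE, hvol, ← pent_eq, hs1]
  refine (mul_le_mul_right hvle _).trans ?_
  rw [← ENNReal.ofReal_mul (by rw [← hs1]; exact hs.le)]
  apply ENNReal.ofReal_le_ofReal
  have hg : Real.goldenRatio = (1 + Real.sqrt 5) / 2 := rfl
  have r2 : Real.sqrt 5 ^ 2 = 5 := Real.sq_sqrt (by norm_num)
  rw [hg]
  nlinarith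

/-- An affine map multiplies all oriented areas by the same nonzero number. -/
theorem tr_map (A : (ℝ × ℝ) ≃ᵃ[ℝ] (ℝ × ℝ)) :
    ∃ D : ℝ, D ≠ 0 ∧ ∀ p q r, tr (A p) (A q) (A r) = D * tr p q r := by
  have key : ∀ (L : (ℝ × ℝ) →ₗ[ℝ] (ℝ × ℝ)) (u w : ℝ × ℝ),
      cr (L u) (L w) = cr (L (1, 0)) (L (0, 1)) * cr u w := by
    intro L u w
    have hu : L u = u.1 • L (1, 0) + u.2 • L (0, 1) := by
      rw [← map_smul, ← map_smul, ← map_add]
      congr 1
      ext
      · simp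
      · simp
    have hw : L w = w.1 • L (1, 0) + w.2 • L (0, 1) := by
      rw [← map_smul, ← map_smul, ← map_add]
      congr 1
      ext
      · simp
      · simp
    rw [hu, hw]
    unfold cr
    simp only [Prod.fst_add, Prod.snd_add, Prod.smul_fst, Prod.smul_snd, smul_eq_mul]
    ring
  have hsub : ∀ p q : ℝ × ℝ, A p - A q = (A.linear : (ℝ × ℝ) →ₗ[ℝ] (ℝ × ℝ)) (p - q) := by
    intro p q
    exact (A.toAffineMap.linearMap_vsub p q).symm
  refine ⟨cr ((A.linear : (ℝ × ℝ) →ₗ[ℝ] (ℝ × ℝ)) (1, 0)) ((A.linear : (ℝ × ℝ) →ₗ[ℝ] (ℝ × ℝ)) (0, 1)),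
    ?_, ?_⟩
  · intro h0
    have h1 := key (A.linear : (ℝ × ℝ) →ₗ[ℝ] (ℝ × ℝ)) (A.linear.symm (1, 0)) (A.linear.symm (0, 1))
    rw [h0, zero_mul] at h1
    have h2 : (A.linear : (ℝ × ℝ) →ₗ[ℝ] (ℝ × ℝ)) (A.linear.symm (1, 0)) = (1, 0) :=
      A.linear.apply_symm_apply _
    have h3 : (A.linear : (ℝ × ℝ) →ₗ[ℝ] (ℝ × ℝ)) (A.linear.symm (0, 1)) = (0, 1) :=
      A.linear.apply_symm_apply _
    rw [h2, h3] at h1
    norm_num [cr] at h1
  · intro p q r
    unfold tr
    rw [hsub, hsub]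
    exact key _ _ _

theorem AR_map {P : Fin 5 → ℝ × ℝ} (h : AR P) (A : (ℝ × ℝ) ≃ᵃ[ℝ] (ℝ × ℝ)) :
    AR (fun k => A (P k)) := by
  have hsub : ∀ p q : ℝ × ℝ, A p - A q = (A.linear : (ℝ × ℝ) →ₗ[ℝ] (ℝ × ℝ)) (p - q) := by
    intro p q
    exact (A.toAffineMap.linearMap_vsub p q).symm
  intro i
  show A (P (i + 2)) - A (P (i + 4)) = Real.goldenRatio • (A (P (i + 1)) - A (P i))
  rw [hsub, hsub, h i, map_smul]

/-- the normalisation of an affine image of the regular pentagon -/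
theorem reg_q (A : (ℝ × ℝ) ≃ᵃ[ℝ] (ℝ × ℝ)) :
    ∃ (P : Fin 5 → ℝ × ℝ) (E : (ℝ × ℝ) ≃ᵃ[ℝ] (ℝ × ℝ)) (s : ℝ), AR P ∧ 0 < s ∧
      (∀ (K : Set (ℝ × ℝ)) (V : ℝ), Cov (E '' K) (s * V) → Cov K V) ∧
      (∀ K : Set (ℝ × ℝ), volume (E '' K) = ENNReal.ofReal s * volume K) ∧
      (∀ k, E (P k) = qv k) ∧ s * |ear P 0| = (5 - Real.sqrt 5) / 10 ∧
      A '' regPent = convexHull ℝ (range P) := by
  obtain ⟨D, hD, hD'⟩ := tr_map A
  have ht : tr (A (regV 1)) (A (regV 4)) (A (regV 0)) ≠ 0 := by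
    rw [hD']
    exact mul_ne_zero hD tr_regV
  obtain ⟨E, s, hs, hcov, hvol, hE, hs1⟩ := exists_q (P := fun k => A (regV k))
    (AR_map AR_regV A) ht
  refine ⟨fun k => A (regV k), E, s, AR_map AR_regV A, hs, hcov, hvol, hE, ?_,
    image_hull A regV _ fun k => rfl⟩
  rw [← hs1]
  congr 1
  have e : ear (fun k => A (regV k)) 0 = -tr (A (regV 1)) (A (regV 4)) (A (regV 0)) := by
    show cr (A (regV 1) - A (regV 4)) (A (regV 0) - A (regV 4)) = _
    unfold tr cr
    simp only [Prod.fst_sub, Prod.snd_sub]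
    ring
  rw [e, abs_neg]

theorem body_reg (A : (ℝ × ℝ) ≃ᵃ[ℝ] (ℝ × ℝ)) : IsBody (A '' regPent) := by
  obtain ⟨P, E, s, hAR, hs, hcov, hvol, hE, hs1, hP⟩ := reg_q A
  -- the hull of `qv` is the image of the body `pent (1/2)`
  have hgg := Real.goldenRatio_sq
  have hg1 := Real.one_lt_goldenRatio
  have hglo : 1.618 < Real.goldenRatio := by nlinarith
  have hghi : Real.goldenRatio < 1.6181 := by nlinarith
  have hτ : 2 - Real.goldenRatio ≤ (1 / 2 : ℝ) := by linarith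
  have hτ' : (1 / 2 : ℝ) ≤ Real.goldenRatio - 1 := by linarith
  have hb := pent_body hτ hτ'
  have e1 : tr (Pv (1 / 2) 1) (Pv (1 / 2) 4) (Pv (1 / 2) 0) = -1 := by
    show tr ((1 : ℝ), (0 : ℝ)) (0, 0) (1 / 2, 1) = -1
    simp only [tr_eq]
    norm_num
  obtain ⟨E', s', -, -, -, hE', -⟩ := exists_q (AR_Pv (1 / 2)) (by rw [e1]; norm_num)
  have h1 : E '' (A '' regPent) = E' '' pent (1 / 2) := by
    rw [hP, image_hull E P qv hE, pent_eq, image_hull E' _ qv hE']
  have h2 : A '' regPent = E.symm '' (E' '' pent (1 / 2)) := by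
    rw [← h1, ← image_comp]
    have : (E.symm : (ℝ × ℝ) → (ℝ × ℝ)) ∘ E = id := by
      funext z
      exact E.symm_apply_apply z
    rw [this, image_id]
  rw [h2]
  exact body_image (body_image hb _) _

theorem vol_reg_E {A : (ℝ × ℝ) ≃ᵃ[ℝ] (ℝ × ℝ)} {P : Fin 5 → ℝ × ℝ}
    {E : (ℝ × ℝ) ≃ᵃ[ℝ] (ℝ × ℝ)} {s : ℝ}
    (hvol : ∀ K : Set (ℝ × ℝ), volume (E '' K) = ENNReal.ofReal s * volume K)
    (hE : ∀ k, E (P k) = qv k) (hP : A '' regPent = convexHull ℝ (range P)) :
    ENNReal.ofReal s * volume (A '' regPent) ≤ ENNReal.ofReal (1 / 2) := by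
  rw [← hvol, hP, image_hull E P qv hE]
  exact vol_q

/-- **The upper bound near an affine-regular pentagon.** -/
theorem local_upper (A : (ℝ × ℝ) ≃ᵃ[ℝ] (ℝ × ℝ)) {K : Set (ℝ × ℝ)} (hK : IsBody K)
    (hsub : A '' regPent ⊆ K)
    (hv : volume K ≤ ENNReal.ofReal (1 + 2 / 1000000000) * volume (A '' regPent)) :
    hstar K ≤ ENNReal.ofReal ((5 + 3 * Real.sqrt 5) / 10) * volume K := by
  obtain ⟨P, E, s, hAR, hs, hcov, hvol, hE, hs1, hP⟩ := reg_q A
  have hKE := body_image hK E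
  have hmem : ∀ k, qv k ∈ E '' K := by
    intro k
    rw [← hE k]
    refine mem_image_of_mem _ (hsub ?_)
    rw [hP]
    exact subset_convexHull ℝ _ (mem_range_self k)
  have hvE : volume (E '' K) ≤ ENNReal.ofReal (1 / 2 + 1 / 1000000000) := by
    rw [hvol]
    calc ENNReal.ofReal s * volume K ≤
        ENNReal.ofReal s * (ENNReal.ofReal (1 + 2 / 1000000000) * volume (A '' regPent)) :=
          mul_le_mul_right hv _
      _ = ENNReal.ofReal (1 + 2 / 1000000000) * (ENNReal.ofReal s * volume (A '' regPent)) := by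
          ring
      _ ≤ ENNReal.ofReal (1 + 2 / 1000000000) * ENNReal.ofReal (1 / 2) :=
          mul_le_mul_right (vol_reg_E hvol hE hP) _
      _ = ENNReal.ofReal (1 / 2 + 1 / 1000000000) := by
          rw [← ENNReal.ofReal_mul (by norm_num)]
          norm_num
  have hvE' : (volume (E '' K)).toReal ≤ 1 / 2 + 1 / 1000000000 :=
    ENNReal.toReal_le_of_le_ofReal (by norm_num) hvE
  obtain ⟨v0, v1, v2, v3, v4, hN⟩ := exists_near hKE (hmem 0) (hmem 1) (hmem 2) (hmem 3) (hmem 4)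
    hvE'
  have hc := hN.cov
  have e : (volume (E '' K)).toReal = s * (volume K).toReal := by
    rw [hvol, ENNReal.toReal_mul, ENNReal.toReal_ofReal hs.le]
  rw [e] at hc
  have hc' : Cov K ((5 + 3 * Real.sqrt 5) / 10 * (volume K).toReal) := by
    apply hcov
    have e2 : s * ((5 + 3 * Real.sqrt 5) / 10 * (volume K).toReal) =
        (5 + 3 * Real.sqrt 5) / 10 * (s * (volume K).toReal) := by ring
    rw [e2]
    exact hc
  refine (hstar_le_of_cov hc').trans (le_of_eq ?_)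
  rw [ENNReal.ofReal_mul (by positivity), ENNReal.ofReal_toReal hK.compact.measure_lt_top.ne]

/-- **The exact value for affine-regular pentagons.** -/
theorem hstar_reg (A : (ℝ × ℝ) ≃ᵃ[ℝ] (ℝ × ℝ)) :
    hstar (A '' regPent) = ENNReal.ofReal ((5 + 3 * Real.sqrt 5) / 10) * volume (A '' regPent) := by
  apply le_antisymm
  · apply local_upper A (body_reg A) subset_rfl
    calc volume (A '' regPent) = 1 * volume (A '' regPent) := (one_mul _).symm
      _ ≤ ENNReal.ofReal (1 + 2 / 1000000000) * volume (A '' regPent) := by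
          apply mul_le_mul_left
          rw [← ENNReal.ofReal_one]
          exact ENNReal.ofReal_le_ofReal (by norm_num)
  · obtain ⟨P, E, s, hAR, hs, hcov, hvol, hE, hs1, hP⟩ := reg_q A
    have r2 : Real.sqrt 5 ^ 2 = 5 := Real.sq_sqrt (by norm_num)
    have r0 : 0 ≤ Real.sqrt 5 := Real.sqrt_nonneg 5
    have r5 : 0 < 5 - Real.sqrt 5 := by nlinarith
    have hear0 : ear P 0 ≠ 0 := by
      intro h0
      rw [h0, abs_zero, mul_zero] at hs1
      linarith
    have hV := vol_reg_E hvol hE hP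
    have hfin : volume (A '' regPent) ≠ ⊤ := (body_reg A).compact.measure_lt_top.ne
    have hV' : s * (volume (A '' regPent)).toReal ≤ 1 / 2 := by
      have := ENNReal.toReal_le_of_le_ofReal (by norm_num) hV
      rwa [ENNReal.toReal_mul, ENNReal.toReal_ofReal hs.le] at this
    unfold hstar
    refine le_iInf₂ fun R hR => ?_
    have hb := bound_of_norm normBound hAR hear0 hR.1 (by rw [← hP]; exact hR.2)
    refine le_trans ?_ hb
    rw [← ENNReal.ofReal_toReal hfin, ← ENNReal.ofReal_mul (by positivity)]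
    apply ENNReal.ofReal_le_ofReal
    have hg : Real.goldenRatio = (1 + Real.sqrt 5) / 2 := rfl
    have h1 : s * ((5 + 3 * Real.sqrt 5) / 10 * (volume (A '' regPent)).toReal) ≤
        s * (|ear P 0| * (1 / 2 + Real.goldenRatio)) := by
      have e1 : s * (|ear P 0| * (1 / 2 + Real.goldenRatio)) =
          (s * |ear P 0|) * (1 / 2 + Real.goldenRatio) := by ring
      rw [e1, hs1, hg]
      have e2 : s * ((5 + 3 * Real.sqrt 5) / 10 * (volume (A '' regPent)).toReal) =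
          (5 + 3 * Real.sqrt 5) / 10 * (s * (volume (A '' regPent)).toReal) := by ring
      rw [e2]
      have e3 : (5 - Real.sqrt 5) / 10 * (1 / 2 + (1 + Real.sqrt 5) / 2) =
          (5 + 3 * Real.sqrt 5) / 10 * (1 / 2) := by
        linear_combination (-1 / 20) * r2
      rw [e3]
      exact mul_le_mul_of_nonneg_left hV' (by positivity)
    exact le_of_mul_le_mul_left h1 hs

/-- **The regular pentagon is a local maximum.** -/
theorem local_max (A : (ℝ × ℝ) ≃ᵃ[ℝ] (ℝ × ℝ)) :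
    hstar (A '' regPent) =
      ENNReal.ofReal ((5 + 3 * Real.sqrt 5) / 10) * volume (A '' regPent) ∧
    ∀ K : Set (ℝ × ℝ), IsBody K → A '' regPent ⊆ K →
      volume K ≤ ENNReal.ofReal (1 + 2 / 1000000000) * volume (A '' regPent) →
      hstar K ≤ ENNReal.ofReal ((5 + 3 * Real.sqrt 5) / 10) * volume K :=
  ⟨hstar_reg A, fun _ hK hsub hv => local_upper A hK hsub hv⟩

end Pool.Agent.Helper37.LT
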