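import Pool.Agent.Helper37.LT.Defs

/-!
# MP_8bf717_co, project LT: coordinates of an apex
-/

set_option autoImplicit false

open MeasureTheory Set

namespace Pool.Agent.Helper37.LT

open Pool.Agent.Helper37.PH Pool.Agent.Helper27.PHU Pool.Agent.Helper39.P5
open Pool.Agent.Helper61.PH Pool.Agent.Helper83.PHU

/-- Area preserving coordinates: `v1` is the origin, the first coordinate is `1` at `v4` and
constant in the direction `w`. -/
theorem exists_frame {v1 v4 w : ℝ × ℝ} (hw : cr (v4 - v1) w ≠ 0) :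
    ∃ A : (ℝ × ℝ) ≃ᵃ[ℝ] (ℝ × ℝ), (∀ (K : Set (ℝ × ℝ)) (V : ℝ), Cov (A '' K) V → Cov K V) ∧
      (∀ z, A z = (cr (z - v1) w / cr (v4 - v1) w, cr (v4 - v1) (z - v1))) ∧
      (∀ p q r, tr (A p) (A q) (A r) = tr p q r) := by
  set D := cr (v4 - v1) w with hD
  set L0 : (ℝ × ℝ) →ₗ[ℝ] (ℝ × ℝ) :=
    Matrix.toLin (Module.Basis.finTwoProd ℝ) (Module.Basis.finTwoProd ℝ)
      !![w.2 / D, -w.1 / D; -(v4 - v1).2, (v4 - v1).1] with hL0
  have hL0a : ∀ z : ℝ × ℝ, L0 z = (w.2 / D * z.1 + -w.1 / D * z.2,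
      -(v4 - v1).2 * z.1 + (v4 - v1).1 * z.2) := by
    intro z
    rw [hL0, Matrix.toLin_finTwoProd_apply]
  have hone : w.2 / D * (v4 - v1).1 - -w.1 / D * -(v4 - v1).2 = 1 := by
    have e : D = (v4 - v1).1 * w.2 - (v4 - v1).2 * w.1 := hD
    field_simp
    linarith
  have hdet : LinearMap.det L0 = 1 := by
    rw [hL0, LinearMap.det_toLin, Matrix.det_fin_two_of]
    exact hone
  have hu : IsUnit (LinearMap.det L0) := by
    rw [hdet]
    exact isUnit_one
  set L : (ℝ × ℝ) ≃ₗ[ℝ] (ℝ × ℝ) := LinearEquiv.ofIsUnitDet (v := Module.Basis.finTwoProd ℝ)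
    (v' := Module.Basis.finTwoProd ℝ) (f := L0) (by
      rw [LinearMap.det_toMatrix]
      exact hu) with hL
  have hLa : ∀ z : ℝ × ℝ, L z = (w.2 / D * z.1 + -w.1 / D * z.2,
      -(v4 - v1).2 * z.1 + (v4 - v1).1 * z.2) := by
    intro z
    rw [← hL0a]
    rfl
  have hdetL : |LinearMap.det (L : (ℝ × ℝ) →ₗ[ℝ] (ℝ × ℝ))| = 1 := by
    have : (L : (ℝ × ℝ) →ₗ[ℝ] (ℝ × ℝ)) = L0 := by
      rfl
    rw [this, hdet, abs_one]
  have hA : ∀ z : ℝ × ℝ, affE L v1 z =
      (cr (z - v1) w / D, cr (v4 - v1) (z - v1)) := by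
    intro z
    rw [affE_apply, hLa]
    unfold cr
    apply Prod.ext
    · simp only
      field_simp
      ring
    · simp only
      ring
  refine ⟨affE L v1, ?_, hA, ?_⟩
  · intro K V h
    apply Cov_affE L v1
    rw [hdetL, one_mul]
    exact h
  · intro p q r
    rw [hA, hA, hA]
    have e : tr (cr (p - v1) w / D, cr (v4 - v1) (p - v1)) (cr (q - v1) w / D,
        cr (v4 - v1) (q - v1)) (cr (r - v1) w / D, cr (v4 - v1) (r - v1)) =
        (w.2 / D * (v4 - v1).1 - -w.1 / D * -(v4 - v1).2) * tr p q r := by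
      simp only [tr_eq]
      unfold cr
      simp only [Prod.fst_sub, Prod.snd_sub]
      field_simp
      ring
    rw [e, hone, one_mul]

/-- mirror image of a frame -/
theorem Fr.flip {K : Set (ℝ × ℝ)} {u p a g2 g3 o1 o4 : ℝ} (h : Fr K u p a g2 g3 o1 o4) :
    Fr (flipX K) (1 - u) p a g3 g2 o4 o1 where
  body := by
    rw [flipX_eq]
    exact body_image h.body _
  m0 := ⟨_, h.m0, rfl⟩
  m1 := ⟨_, h.m4, by simp⟩
  m2 := ⟨_, h.m3, by simp⟩
  m3 := ⟨_, h.m2, by simp⟩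
  m4 := ⟨_, h.m1, by simp⟩
  u0 := by linarith [h.u1]
  u1 := by linarith [h.u0]
  p0 := h.p0
  p1 := h.p1
  a0 := h.a0
  a1 := h.a1
  g20 := h.g30
  g21 := h.g31
  g30 := h.g20
  g31 := h.g21
  o10 := h.o40
  o11 := h.o41
  o40 := h.o10
  o41 := h.o11
  x0 := by
    rintro _ ⟨z, hz, rfl⟩
    have := h.x1 z hz
    simp only
    linarith
  x1 := by
    rintro _ ⟨z, hz, rfl⟩
    have := h.x0 z hz
    simp only
    linarith
  w1 := by
    obtain ⟨z, hz, e⟩ := h.w4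
    refine ⟨_, ⟨z, hz, rfl⟩, ?_⟩
    simp only
    rw [e]; ring
  w4 := by
    obtain ⟨z, hz, e⟩ := h.w1
    refine ⟨_, ⟨z, hz, rfl⟩, ?_⟩
    simp only
    rw [e]; ring
  th0 := by
    rintro _ ⟨z, hz, rfl⟩
    have := h.th4 z hz
    simp only
    linarith
  th4 := by
    rintro _ ⟨z, hz, rfl⟩
    have := h.th0 z hz
    simp only
    linarith
  th2 := by
    rintro _ ⟨z, hz, rfl⟩
    have := h.th2 z hz
    simp only
    linarith
  s1 := by
    rintro _ ⟨z, hz, rfl⟩ h1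
    simp only at h1
    have := h.s4 z hz (by linarith)
    simp only
    linarith
  s4 := by
    rintro _ ⟨z, hz, rfl⟩ h1
    simp only at h1
    have := h.s1 z hz (by linarith)
    simp only
    linarith
  s2 := by
    rintro _ ⟨z, hz, rfl⟩ h1
    simp only at h1
    have := h.s3 z hz (by linarith)
    simp only
    linarith
  s3 := by
    rintro _ ⟨z, hz, rfl⟩ h1
    simp only at h1
    have := h.s2 z hz (by linarith)
    simp only
    linarith

/-- the minimum and the maximum of the first coordinate -/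
theorem exists_ext {K : Set (ℝ × ℝ)} (hK : IsBody K) :
    (∃ M ∈ K, ∀ z ∈ K, M.1 ≤ z.1) ∧ (∃ M ∈ K, ∀ z ∈ K, z.1 ≤ M.1) := by
  have hne : K.Nonempty := hK.interior_nonempty.mono interior_subset
  obtain ⟨M, hM, h⟩ := hK.compact.exists_isMinOn hne continuous_fst.continuousOn
  obtain ⟨N, hN, h'⟩ := hK.compact.exists_isMaxOn hne continuous_fst.continuousOn
  exact ⟨⟨M, hM, fun z hz => h hz⟩, ⟨N, hN, fun z hz => h' hz⟩⟩

theorem fr_num {u p a g2 g3 : ℝ} (E0 : NE p) (E1 : NE (u * g2 + a * p))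
    (E2 : NE ((1 - a) * g2 - a * g3)) (E3 : NE ((1 - a) * g3 - a * g2))
    (S : |p + (1 - a) * (g2 + g3) - 1| ≤ 1 / 1000000) :
    (4999 / 10000 ≤ u ∧ u ≤ 5001 / 10000) ∧ (276343 / 1000000 ≤ p ∧ p ≤ 276443 / 1000000) ∧
    (190933 / 1000000 ≤ a ∧ a ≤ 191033 / 1000000) ∧
    (447164 / 1000000 ≤ g2 ∧ g2 ≤ 447264 / 1000000) ∧
    (447164 / 1000000 ≤ g3 ∧ g3 ≤ 447264 / 1000000) := by
  unfold NE at E0 E1 E2 E3
  rw [abs_le] at E0 E1 E2 E3 S
  obtain ⟨a0, a1⟩ := E0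
  obtain ⟨b0, b1⟩ := E1
  obtain ⟨c0, c1⟩ := E2
  obtain ⟨d0, d1⟩ := E3
  obtain ⟨s0, s1⟩ := S
  have g20 : 447164 / 1000000 ≤ g2 := by linarith
  have g21 : g2 ≤ 447264 / 1000000 := by linarith
  have g30 : 447164 / 1000000 ≤ g3 := by linarith
  have g31 : g3 ≤ 447264 / 1000000 := by linarith
  have aG0 : 170816 / 1000000 ≤ a * (g2 + g3) := by linarith
  have aG1 : a * (g2 + g3) ≤ 170826 / 1000000 := by linarith
  have G0 : 894418 / 1000000 ≤ g2 + g3 := by linarith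
  have G1 : g2 + g3 ≤ 894438 / 1000000 := by linarith
  have ha0 : 190933 / 1000000 ≤ a := by
    by_contra hc
    push Not at hc
    nlinarith
  have ha1 : a ≤ 191033 / 1000000 := by
    by_contra hc
    push Not at hc
    nlinarith
  have hap0 : 190933 / 1000000 * (276391 / 1000000) ≤ a * p :=
    mul_le_mul ha0 (by linarith) (by norm_num) (by linarith)
  have hap1 : a * p ≤ 191033 / 1000000 * (276395 / 1000000) :=
    mul_le_mul ha1 (by linarith) (by linarith) (by norm_num)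
  refine ⟨⟨?_, ?_⟩, ⟨by linarith, by linarith⟩, ⟨ha0, ha1⟩, ⟨g20, g21⟩, ⟨g30, g31⟩⟩
  · by_contra hc
    push Not at hc
    nlinarith
  · by_contra hc
    push Not at hc
    nlinarith

end Pool.Agent.Helper37.LT
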