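import Pool.Agent.Helper85.PHU.Gab

/-!
# MP_8bf717_co, project LT: p-hexagons with a reflex vertex in the floor
-/

set_option autoImplicit false

open MeasureTheory Set

namespace Pool.Agent.Helper37.LT

open Pool.Agent.Helper37.PH Pool.Agent.Helper88.PH Pool.Agent.Helper27.PHU

/-- the closed region -/
def rexR (X0 X1 k l rk ql s1 s2 t1 t2 : ℝ) : Set (ℝ × ℝ) :=
  {q | (X0 ≤ q.1 ∧ q.1 ≤ X1) ∧ (q.2 ≤ rk + s1 * (q.1 - k) ∧ q.2 ≤ rk + s2 * (q.1 - k)) ∧
    (ql + t1 * (q.1 - l) ≤ q.2 ∨ ql + t2 * (q.1 - l) ≤ q.2)}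

section rex

variable {X0 X1 k l rk ql s1 s2 t1 t2 : ℝ}

theorem aff_lt {s t y0 y1 a b c d : ℝ} (hab : a < b) (e1 : y0 + t * (a - c) < y1 + s * (a - d))
    (e2 : y0 + t * (b - c) < y1 + s * (b - d)) {x : ℝ} (e3 : a ≤ x) (e4 : x ≤ b) :
    y0 + t * (x - c) < y1 + s * (x - d) := by
  have e5 : 0 < b - a := by linarith
  have e6 : 0 ≤ (b - x) * ((y1 + s * (a - d)) - (y0 + t * (a - c))) :=
    mul_nonneg (by linarith) (by linarith)
  have e8 : (b - a) * ((y1 + s * (x - d)) - (y0 + t * (x - c))) =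
      (b - x) * ((y1 + s * (a - d)) - (y0 + t * (a - c))) +
      (x - a) * ((y1 + s * (b - d)) - (y0 + t * (b - c))) := by ring
  rcases e3.eq_or_lt with e9 | e9
  · rw [← e9]
    exact e1
  · have e10 : 0 < (x - a) * ((y1 + s * (b - d)) - (y0 + t * (b - c))) :=
      mul_pos (by linarith) (by linarith)
    have e11 : 0 < (b - a) * ((y1 + s * (x - d)) - (y0 + t * (x - c))) := by
      rw [e8]
      linarith
    have := (pos_iff_pos_of_mul_pos e11).mp e5
    linarith

theorem rex_aux (h1 : X0 < k) (h2 : k < X1) (h3 : X0 < l) (h4 : l < X1) (h5 : s2 < s1)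
    (h7 : ql + t1 * (X0 - l) < rk + s1 * (X0 - k))
    (h8 : (rk + s1 * (X0 - k)) - (ql + t1 * (X0 - l)) =
      (rk + s2 * (X1 - k)) - (ql + t2 * (X1 - l)))
    (h9 : ql < rk + s1 * (l - k)) (h10 : ql < rk + s2 * (l - k)) :
    (∀ x, X0 ≤ x → x ≤ l → ql + t1 * (x - l) < rk + s1 * (x - k) ∧
      ql + t1 * (x - l) < rk + s2 * (x - k)) ∧
    (∀ x, l ≤ x → x ≤ X1 → ql + t2 * (x - l) < rk + s1 * (x - k) ∧
      ql + t2 * (x - l) < rk + s2 * (x - k)) := by
  have a1 : rk + s1 * (X0 - k) ≤ rk + s2 * (X0 - k) := by nlinarith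
  have a2 : rk + s2 * (X1 - k) ≤ rk + s1 * (X1 - k) := by nlinarith
  have b1 : ql + t1 * (l - l) = ql := by ring
  have b2 : ql + t2 * (l - l) = ql := by ring
  constructor
  · intro x e3 e4
    exact ⟨aff_lt h3 h7 (by rw [b1]; exact h9) e3 e4,
      aff_lt h3 (lt_of_lt_of_le h7 a1) (by rw [b1]; exact h10) e3 e4⟩
  · intro x e3 e4
    exact ⟨aff_lt h4 (by rw [b2]; exact h9) (by linarith) e3 e4,
      aff_lt h4 (by rw [b2]; exact h10) (by linarith) e3 e4⟩

theorem rex_frontier (h1 : X0 < k) (h2 : k < X1) (h3 : X0 < l) (h4 : l < X1) (h5 : s2 < s1)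
    (h6 : t2 < t1) (h7 : ql + t1 * (X0 - l) < rk + s1 * (X0 - k))
    (h8 : (rk + s1 * (X0 - k)) - (ql + t1 * (X0 - l)) =
      (rk + s2 * (X1 - k)) - (ql + t2 * (X1 - l)))
    (h9 : ql < rk + s1 * (l - k)) (h10 : ql < rk + s2 * (l - k)) :
    IsClosed (rexR X0 X1 k l rk ql s1 s2 t1 t2) ∧
    (interior (rexR X0 X1 k l rk ql s1 s2 t1 t2)).Nonempty ∧
    frontier (rexR X0 X1 k l rk ql s1 s2 t1 t2) =
      ⋃ i, side (hexV X0 X1 k l rk ql s1 s2 t1 t2) i := by
  obtain ⟨hL, hR⟩ := rex_aux h1 h2 h3 h4 h5 h7 h8 h9 h10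
  have c1 : Continuous fun q : ℝ × ℝ => q.1 := continuous_fst
  have c2 : Continuous fun q : ℝ × ℝ => q.2 := continuous_snd
  have hcl : IsClosed (rexR X0 X1 k l rk ql s1 s2 t1 t2) := by
    unfold rexR
    refine ((isClosed_le continuous_const c1).inter (isClosed_le c1 continuous_const)).inter
      (((isClosed_le c2 ?_).inter (isClosed_le c2 ?_)).inter
      ((isClosed_le ?_ c2).union (isClosed_le ?_ c2))) <;> fun_prop
  have hint : ∀ q : ℝ × ℝ, q ∈ interior (rexR X0 X1 k l rk ql s1 s2 t1 t2) ↔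
      (X0 < q.1 ∧ q.1 < X1) ∧ (q.2 < rk + s1 * (q.1 - k) ∧ q.2 < rk + s2 * (q.1 - k)) ∧
      (ql + t1 * (q.1 - l) < q.2 ∨ ql + t2 * (q.1 - l) < q.2) := by
    intro q
    constructor
    · intro hq
      have e1 := pos_of_interior (α := 1) (β := 0) (γ := -X0) (Or.inl one_ne_zero)
        (fun p hp => by have := hp.1.1; linarith) hq
      have e2 := pos_of_interior (α := -1) (β := 0) (γ := X1) (Or.inl (by norm_num))
        (fun p hp => by have := hp.1.2; linarith) hq
      have e3 := pos_of_interior (α := s1) (β := -1) (γ := rk - s1 * k) (Or.inr (by norm_num))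
        (fun p hp => by have := hp.2.1.1; linarith) hq
      have e4 := pos_of_interior (α := s2) (β := -1) (γ := rk - s2 * k) (Or.inr (by norm_num))
        (fun p hp => by have := hp.2.1.2; linarith) hq
      refine ⟨⟨by linarith, by linarith⟩, ⟨by linarith, by linarith⟩, ?_⟩
      rw [mem_interior_iff_mem_nhds] at hq
      have hcont : Continuous fun t : ℝ => ((q.1, q.2 - t) : ℝ × ℝ) := by fun_prop
      have hev : ∀ᶠ t in nhds (0 : ℝ), ((q.1, q.2 - t) : ℝ × ℝ) ∈
          rexR X0 X1 k l rk ql s1 s2 t1 t2 := by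
        apply hcont.continuousAt.eventually_mem
        simpa using hq
      have hev2 : ∀ᶠ t in nhdsWithin (0 : ℝ) (Ioi 0), ((q.1, q.2 - t) : ℝ × ℝ) ∈
          rexR X0 X1 k l rk ql s1 s2 t1 t2 := hev.filter_mono nhdsWithin_le_nhds
      obtain ⟨t, ht, ht0⟩ := (hev2.and self_mem_nhdsWithin).exists
      have ht0' : (0 : ℝ) < t := ht0
      rcases ht.2.2 with h | h
      · left
        simp only at h
        linarith
      · right
        simp only at h
        linarith
    · intro hq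
      rw [mem_interior]
      refine ⟨{q : ℝ × ℝ | (X0 < q.1 ∧ q.1 < X1) ∧
        (q.2 < rk + s1 * (q.1 - k) ∧ q.2 < rk + s2 * (q.1 - k)) ∧
        (ql + t1 * (q.1 - l) < q.2 ∨ ql + t2 * (q.1 - l) < q.2)}, ?_, ?_, hq⟩
      · rintro p ⟨⟨e1, e2⟩, ⟨e3, e4⟩, e5⟩
        exact ⟨⟨e1.le, e2.le⟩, ⟨e3.le, e4.le⟩, e5.imp le_of_lt le_of_lt⟩
      · refine ((isOpen_lt continuous_const c1).inter (isOpen_lt c1 continuous_const)).inter
          (((isOpen_lt c2 ?_).inter (isOpen_lt c2 ?_)).inter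
          ((isOpen_lt ?_ c2).union (isOpen_lt ?_ c2))) <;> fun_prop
  -- order of the two floor lines
  have oL : ∀ x, x ≤ l → ql + t1 * (x - l) ≤ ql + t2 * (x - l) := by
    intro x hx
    nlinarith
  have oR : ∀ x, l ≤ x → ql + t2 * (x - l) ≤ ql + t1 * (x - l) := by
    intro x hx
    nlinarith
  refine ⟨hcl, ?_, ?_⟩
  · -- a point above the floor kink
    have e1 : ql < min (rk + s1 * (l - k)) (rk + s2 * (l - k)) := lt_min h9 h10
    have e2 := min_le_left (rk + s1 * (l - k)) (rk + s2 * (l - k))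
    have e3 := min_le_right (rk + s1 * (l - k)) (rk + s2 * (l - k))
    refine ⟨(l, (ql + min (rk + s1 * (l - k)) (rk + s2 * (l - k))) / 2), ?_⟩
    rw [hint]
    refine ⟨⟨h3, h4⟩, ⟨?_, ?_⟩, Or.inl ?_⟩
    · simp only
      linarith
    · simp only
      linarith
    · simp only
      have : ql + t1 * (l - l) = ql := by ring
      linarith
  · -- the frontier
    have m0 : ∀ z : ℝ × ℝ, z ∈ side (hexV X0 X1 k l rk ql s1 s2 t1 t2) 0 ↔
        z.1 = X0 ∧ ql + t1 * (X0 - l) ≤ z.2 ∧ z.2 ≤ rk + s1 * (X0 - k) :=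
      fun z => mem_vert h7.le
    have m1 : ∀ z : ℝ × ℝ, z ∈ side (hexV X0 X1 k l rk ql s1 s2 t1 t2) 1 ↔
        (X0 ≤ z.1 ∧ z.1 ≤ k) ∧ z.2 = rk + s1 * (z.1 - k) := by
      intro z
      have e := mem_slope (a := X0) (b := k) (c := k) (y := rk) (s := s1) h1 (z := z)
      have e' : rk + s1 * (k - k) = rk := by ring
      rw [e'] at e
      exact e
    have m2 : ∀ z : ℝ × ℝ, z ∈ side (hexV X0 X1 k l rk ql s1 s2 t1 t2) 2 ↔
        (k ≤ z.1 ∧ z.1 ≤ X1) ∧ z.2 = rk + s2 * (z.1 - k) := by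
      intro z
      have e := mem_slope (a := k) (b := X1) (c := k) (y := rk) (s := s2) h2 (z := z)
      have e' : rk + s2 * (k - k) = rk := by ring
      rw [e'] at e
      exact e
    have m3 : ∀ z : ℝ × ℝ, z ∈ side (hexV X0 X1 k l rk ql s1 s2 t1 t2) 3 ↔
        z.1 = X1 ∧ ql + t2 * (X1 - l) ≤ z.2 ∧ z.2 ≤ rk + s2 * (X1 - k) := by
      intro z
      have e := mem_vert (X := X1) (y0 := ql + t2 * (X1 - l)) (y1 := rk + s2 * (X1 - k))
        (by linarith) (z := z)
      rw [segment_symm] at e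
      exact e
    have m4 : ∀ z : ℝ × ℝ, z ∈ side (hexV X0 X1 k l rk ql s1 s2 t1 t2) 4 ↔
        (l ≤ z.1 ∧ z.1 ≤ X1) ∧ z.2 = ql + t2 * (z.1 - l) := by
      intro z
      have e := mem_slope (a := l) (b := X1) (c := l) (y := ql) (s := t2) h4 (z := z)
      have e' : ql + t2 * (l - l) = ql := by ring
      rw [e', segment_symm] at e
      exact e
    have m5 : ∀ z : ℝ × ℝ, z ∈ side (hexV X0 X1 k l rk ql s1 s2 t1 t2) 5 ↔
        (X0 ≤ z.1 ∧ z.1 ≤ l) ∧ z.2 = ql + t1 * (z.1 - l) := by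
      intro z
      have e := mem_slope (a := X0) (b := l) (c := l) (y := ql) (s := t1) h3 (z := z)
      have e' : ql + t1 * (l - l) = ql := by ring
      rw [e', segment_symm] at e
      exact e
    have w1 : rk + s1 * (X0 - k) ≤ rk + s2 * (X0 - k) := by nlinarith
    have w2 : rk + s2 * (X1 - k) ≤ rk + s1 * (X1 - k) := by nlinarith
    rw [hcl.frontier_eq]
    ext z
    rw [mem_sdiff, hint, mem_iUnion]
    constructor
    · rintro ⟨⟨⟨e1, e2⟩, ⟨e3, e4⟩, e5⟩, hn⟩
      by_contra hc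
      push Not at hc
      have n0 := hc 0
      have n1 := hc 1
      have n2 := hc 2
      have n3 := hc 3
      have n4 := hc 4
      have n5 := hc 5
      rw [m0] at n0
      rw [m1] at n1
      rw [m2] at n2
      rw [m3] at n3
      rw [m4] at n4
      rw [m5] at n5
      apply hn
      have p0 : X0 < z.1 := by
        rcases e1.eq_or_lt with e | e
        · exfalso
          apply n0
          have o := oL X0 h3.le
          rw [← e] at e3 e5
          refine ⟨e.symm, ?_, e3⟩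
          rcases e5 with h | h
          · exact h
          · linarith
        · exact e
      have p3 : z.1 < X1 := by
        rcases e2.eq_or_lt with e | e
        · exfalso
          apply n3
          have o := oR X1 h4.le
          rw [e] at e4 e5
          refine ⟨e, ?_, e4⟩
          rcases e5 with h | h
          · linarith
          · exact h
        · exact e
      refine ⟨⟨p0, p3⟩, ⟨?_, ?_⟩, ?_⟩
      · rcases e3.eq_or_lt with e | e
        · exfalso
          apply n1
          refine ⟨⟨e1, ?_⟩, e⟩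
          by_contra hk
          push Not at hk
          nlinarith
        · exact e
      · rcases e4.eq_or_lt with e | e
        · exfalso
          apply n2
          refine ⟨⟨?_, e2⟩, e⟩
          by_contra hk
          push Not at hk
          nlinarith
        · exact e
      · rcases le_total z.1 l with hzl | hzl
        · left
          have o := oL z.1 hzl
          have e6 : ql + t1 * (z.1 - l) ≤ z.2 := by
            rcases e5 with h | h
            · exact h
            · linarith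
          rcases e6.eq_or_lt with e | e
          · exfalso
            exact n5 ⟨⟨e1, hzl⟩, e.symm⟩
          · exact e
        · right
          have o := oR z.1 hzl
          have e6 : ql + t2 * (z.1 - l) ≤ z.2 := by
            rcases e5 with h | h
            · linarith
            · exact h
          rcases e6.eq_or_lt with e | e
          · exfalso
            exact n4 ⟨⟨hzl, e2⟩, e.symm⟩
          · exact e
    · rintro ⟨i, hi⟩
      fin_cases i
      · obtain ⟨e1, e2, e3⟩ := (m0 z).mp hi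
        refine ⟨⟨⟨by linarith, by linarith⟩, ⟨?_, ?_⟩, Or.inl ?_⟩, ?_⟩
        · rw [e1]; linarith
        · rw [e1]; linarith
        · rw [e1]; linarith
        · rintro ⟨⟨f, -⟩, -⟩
          linarith
      · obtain ⟨⟨e1, e2⟩, e3⟩ := (m1 z).mp hi
        refine ⟨⟨⟨by linarith, by linarith⟩, ⟨?_, ?_⟩, ?_⟩, ?_⟩
        · linarith
        · nlinarith
        · rcases le_total z.1 l with hzl | hzl
          · left
            have := (hL z.1 e1 hzl).1
            linarith
          · right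
            have := (hR z.1 hzl (by linarith)).1
            linarith
        · rintro ⟨-, ⟨f, -⟩, -⟩
          linarith
      · obtain ⟨⟨e1, e2⟩, e3⟩ := (m2 z).mp hi
        refine ⟨⟨⟨by linarith, by linarith⟩, ⟨?_, ?_⟩, ?_⟩, ?_⟩
        · nlinarith
        · linarith
        · rcases le_total z.1 l with hzl | hzl
          · left
            have := (hL z.1 (by linarith) hzl).2
            linarith
          · right
            have := (hR z.1 hzl e2).2
            linarith
        · rintro ⟨-, ⟨-, f⟩, -⟩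
          linarith
      · obtain ⟨e1, e2, e3⟩ := (m3 z).mp hi
        refine ⟨⟨⟨by linarith, by linarith⟩, ⟨?_, ?_⟩, Or.inr ?_⟩, ?_⟩
        · rw [e1]; linarith
        · rw [e1]; linarith
        · rw [e1]; linarith
        · rintro ⟨⟨-, f⟩, -⟩
          linarith
      · obtain ⟨⟨e1, e2⟩, e3⟩ := (m4 z).mp hi
        obtain ⟨f3, f4⟩ := hR z.1 e1 e2
        have o := oR z.1 e1
        refine ⟨⟨⟨by linarith, by linarith⟩, ⟨?_, ?_⟩, Or.inr ?_⟩, ?_⟩
        · linarith
        · linarith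
        · linarith
        · rintro ⟨-, -, f | f⟩
          · linarith
          · linarith
      · obtain ⟨⟨e1, e2⟩, e3⟩ := (m5 z).mp hi
        obtain ⟨f1, f2⟩ := hL z.1 e1 e2
        have o := oL z.1 e2
        refine ⟨⟨⟨by linarith, by linarith⟩, ⟨?_, ?_⟩, Or.inl ?_⟩, ?_⟩
        · linarith
        · linarith
        · linarith
        · rintro ⟨-, -, f | f⟩
          · linarith
          · linarith

theorem rex_isHexagon (h1 : X0 < k) (h2 : k < X1) (h3 : X0 < l) (h4 : l < X1) (h5 : s2 < s1)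
    (h6 : t2 < t1) (h7 : ql + t1 * (X0 - l) < rk + s1 * (X0 - k))
    (h8 : (rk + s1 * (X0 - k)) - (ql + t1 * (X0 - l)) =
      (rk + s2 * (X1 - k)) - (ql + t2 * (X1 - l)))
    (h9 : ql < rk + s1 * (l - k)) (h10 : ql < rk + s2 * (l - k)) :
    IsHexagon (hexV X0 X1 k l rk ql s1 s2 t1 t2) := by
  obtain ⟨hL, hR⟩ := rex_aux h1 h2 h3 h4 h5 h7 h8 h9 h10
  have m0 : ∀ z : ℝ × ℝ, z ∈ side (hexV X0 X1 k l rk ql s1 s2 t1 t2) 0 →
      z.1 = X0 := fun z hz => ((mem_vert h7.le).mp hz).1
  have m1 : ∀ z : ℝ × ℝ, z ∈ side (hexV X0 X1 k l rk ql s1 s2 t1 t2) 1 →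
      (X0 ≤ z.1 ∧ z.1 ≤ k) ∧ z.2 = rk + s1 * (z.1 - k) := by
    intro z
    have e := mem_slope (a := X0) (b := k) (c := k) (y := rk) (s := s1) h1 (z := z)
    have e' : rk + s1 * (k - k) = rk := by ring
    rw [e'] at e
    exact e.mp
  have m2 : ∀ z : ℝ × ℝ, z ∈ side (hexV X0 X1 k l rk ql s1 s2 t1 t2) 2 →
      (k ≤ z.1 ∧ z.1 ≤ X1) ∧ z.2 = rk + s2 * (z.1 - k) := by
    intro z
    have e := mem_slope (a := k) (b := X1) (c := k) (y := rk) (s := s2) h2 (z := z)
    have e' : rk + s2 * (k - k) = rk := by ring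
    rw [e'] at e
    exact e.mp
  have m3 : ∀ z : ℝ × ℝ, z ∈ side (hexV X0 X1 k l rk ql s1 s2 t1 t2) 3 →
      z.1 = X1 := by
    intro z
    have e := mem_vert (X := X1) (y0 := ql + t2 * (X1 - l)) (y1 := rk + s2 * (X1 - k))
      (by linarith) (z := z)
    rw [segment_symm] at e
    exact fun hz => (e.mp hz).1
  have m4 : ∀ z : ℝ × ℝ, z ∈ side (hexV X0 X1 k l rk ql s1 s2 t1 t2) 4 →
      (l ≤ z.1 ∧ z.1 ≤ X1) ∧ z.2 = ql + t2 * (z.1 - l) := by
    intro z
    have e := mem_slope (a := l) (b := X1) (c := l) (y := ql) (s := t2) h4 (z := z)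
    have e' : ql + t2 * (l - l) = ql := by ring
    rw [e', segment_symm] at e
    exact e.mp
  have m5 : ∀ z : ℝ × ℝ, z ∈ side (hexV X0 X1 k l rk ql s1 s2 t1 t2) 5 →
      (X0 ≤ z.1 ∧ z.1 ≤ l) ∧ z.2 = ql + t1 * (z.1 - l) := by
    intro z
    have e := mem_slope (a := X0) (b := l) (c := l) (y := ql) (s := t1) h3 (z := z)
    have e' : ql + t1 * (l - l) = ql := by ring
    rw [e', segment_symm] at e
    exact e.mp
  refine ⟨?_, ?_⟩
  · intro i
    rw [col_iff]
    fin_cases i
    · show ¬ ((X0 - X0) * (rk - (ql + t1 * (X0 - l))) =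
        ((rk + s1 * (X0 - k)) - (ql + t1 * (X0 - l))) * (k - X0))
      intro h
      have : 0 < ((rk + s1 * (X0 - k)) - (ql + t1 * (X0 - l))) * (k - X0) :=
        mul_pos (by linarith) (by linarith)
      linarith
    · show ¬ ((k - X0) * ((rk + s2 * (X1 - k)) - (rk + s1 * (X0 - k))) =
        (rk - (rk + s1 * (X0 - k))) * (X1 - X0))
      intro h
      have : 0 < (k - X0) * (X1 - k) * (s1 - s2) :=
        mul_pos (mul_pos (by linarith) (by linarith)) (by linarith)
      nlinarith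
    · show ¬ ((X1 - k) * ((ql + t2 * (X1 - l)) - rk) =
        ((rk + s2 * (X1 - k)) - rk) * (X1 - k))
      intro h
      have : 0 < (X1 - k) * ((rk + s2 * (X1 - k)) - (ql + t2 * (X1 - l))) :=
        mul_pos (by linarith) (by linarith)
      nlinarith
    · show ¬ ((X1 - X1) * (ql - (rk + s2 * (X1 - k))) =
        ((ql + t2 * (X1 - l)) - (rk + s2 * (X1 - k))) * (l - X1))
      intro h
      have : 0 < ((rk + s2 * (X1 - k)) - (ql + t2 * (X1 - l))) * (X1 - l) :=
        mul_pos (by linarith) (by linarith)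
      nlinarith
    · show ¬ ((l - X1) * ((ql + t1 * (X0 - l)) - (ql + t2 * (X1 - l))) =
        (ql - (ql + t2 * (X1 - l))) * (X0 - X1))
      intro h
      have : 0 < (l - X0) * (X1 - l) * (t1 - t2) :=
        mul_pos (mul_pos (by linarith) (by linarith)) (by linarith)
      nlinarith
    · show ¬ ((X0 - l) * ((rk + s1 * (X0 - k)) - ql) =
        ((ql + t1 * (X0 - l)) - ql) * (X0 - l))
      intro h
      have : 0 < (l - X0) * ((rk + s1 * (X0 - k)) - (ql + t1 * (X0 - l))) :=
        mul_pos (by linarith) (by linarith)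
      nlinarith
  · have key : ∀ i j : Fin 6, i < j → j ≠ i + 1 → i ≠ j + 1 →
        Disjoint (side (hexV X0 X1 k l rk ql s1 s2 t1 t2) i)
          (side (hexV X0 X1 k l rk ql s1 s2 t1 t2) j) := by
      intro i j hij n1 n2
      rw [Set.disjoint_left]
      intro z hi hj
      fin_cases i <;> fin_cases j
      all_goals first
        | exact absurd hij (by decide)
        | exact absurd rfl n1
        | exact absurd rfl n2
        | skip
      · -- 0, 2
        have e1 := m0 z hi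
        have e2 := (m2 z hj).1.1
        linarith
      · -- 0, 3
        have e1 := m0 z hi
        have e2 := m3 z hj
        linarith
      · -- 0, 4
        have e1 := m0 z hi
        have e2 := (m4 z hj).1.1
        linarith
      · -- 1, 3
        have e1 := (m1 z hi).1.2
        have e2 := m3 z hj
        linarith
      · -- 1, 4
        obtain ⟨⟨e1, e2⟩, e3⟩ := m1 z hi
        obtain ⟨⟨e4, e5⟩, e6⟩ := m4 z hj
        have := (hR z.1 e4 e5).1
        linarith
      · -- 1, 5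
        obtain ⟨⟨e1, e2⟩, e3⟩ := m1 z hi
        obtain ⟨⟨e4, e5⟩, e6⟩ := m5 z hj
        have := (hL z.1 e4 e5).1
        linarith
      · -- 2, 4
        obtain ⟨⟨e1, e2⟩, e3⟩ := m2 z hi
        obtain ⟨⟨e4, e5⟩, e6⟩ := m4 z hj
        have := (hR z.1 e4 e5).2
        linarith
      · -- 2, 5
        obtain ⟨⟨e1, e2⟩, e3⟩ := m2 z hi
        obtain ⟨⟨e4, e5⟩, e6⟩ := m5 z hj
        have := (hL z.1 e4 e5).2
        linarith
      · -- 3, 5
        have e1 := m3 z hi
        have e2 := (m5 z hj).1.2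
        linarith
    intro i j h9 h10 h11
    rcases lt_or_gt_of_ne h9 with h | h
    · exact (key j i h h11 h10).symm
    · exact key i j h h10 h11

theorem rex_isPHexagon (h1 : X0 < k) (h2 : k < X1) (h3 : X0 < l) (h4 : l < X1) (h5 : s2 < s1)
    (h6 : t2 < t1) (h7 : ql + t1 * (X0 - l) < rk + s1 * (X0 - k))
    (h8 : (rk + s1 * (X0 - k)) - (ql + t1 * (X0 - l)) =
      (rk + s2 * (X1 - k)) - (ql + t2 * (X1 - l)))
    (h9 : ql < rk + s1 * (l - k)) (h10 : ql < rk + s2 * (l - k)) :
    IsPHexagon (rexR X0 X1 k l rk ql s1 s2 t1 t2) := by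
  obtain ⟨f1, f2, f3⟩ := rex_frontier h1 h2 h3 h4 h5 h6 h7 h8 h9 h10
  refine ⟨_, rex_isHexagon h1 h2 h3 h4 h5 h6 h7 h8 h9 h10, ⟨0, Or.inr ?_⟩, ?_, f2, f3⟩
  · show ((X0, rk + s1 * (X0 - k)) : ℝ × ℝ) - (X0, ql + t1 * (X0 - l)) =
      (X1, rk + s2 * (X1 - k)) - (X1, ql + t2 * (X1 - l))
    apply Prod.ext
    · simp
    · simp only [Prod.snd_sub]
      linarith
  · apply Metric.isCompact_of_isClosed_isBounded f1
    rw [isBounded_iff_forall_norm_le]
    refine ⟨max (|X0| + |X1|) (|rk| + |s1| * (|X0| + |X1| + |k|) +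
      (|ql| + (|t1| + |t2|) * (|X0| + |X1| + |l|))), ?_⟩
    rintro z ⟨⟨e1, e2⟩, ⟨e3, -⟩, e5⟩
    have hz1 : |z.1| ≤ |X0| + |X1| := by
      rw [abs_le]
      constructor
      · linarith [neg_abs_le X0, abs_nonneg X1]
      · linarith [le_abs_self X1, abs_nonneg X0]
    have hz2 : |z.2| ≤ |rk| + |s1| * (|X0| + |X1| + |k|) +
        (|ql| + (|t1| + |t2|) * (|X0| + |X1| + |l|)) := by
      have hnn : 0 ≤ |X0| + |X1| + |l| := by positivity
      have b1 : |s1 * (z.1 - k)| ≤ |s1| * (|X0| + |X1| + |k|) := by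
        rw [abs_mul]
        exact mul_le_mul_of_nonneg_left ((abs_sub _ _).trans (by linarith)) (abs_nonneg _)
      have b2 : |t1 * (z.1 - l)| ≤ |t1| * (|X0| + |X1| + |l|) := by
        rw [abs_mul]
        exact mul_le_mul_of_nonneg_left ((abs_sub _ _).trans (by linarith)) (abs_nonneg _)
      have b5 : |t2 * (z.1 - l)| ≤ |t2| * (|X0| + |X1| + |l|) := by
        rw [abs_mul]
        exact mul_le_mul_of_nonneg_left ((abs_sub _ _).trans (by linarith)) (abs_nonneg _)
      have b6 : 0 ≤ |t1| * (|X0| + |X1| + |l|) := by positivity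
      have b7 : 0 ≤ |t2| * (|X0| + |X1| + |l|) := by positivity
      have b8 : 0 ≤ |s1| * (|X0| + |X1| + |k|) := by positivity
      have b3 := abs_le.mp b1
      have b4 := abs_le.mp b2
      have b9 := abs_le.mp b5
      rw [abs_le]
      constructor
      · rcases e5 with e5 | e5
        · linarith [neg_abs_le ql, abs_nonneg rk, abs_nonneg (s1 * (z.1 - k))]
        · linarith [neg_abs_le ql, abs_nonneg rk, abs_nonneg (s1 * (z.1 - k))]
      · linarith [le_abs_self rk, abs_nonneg ql, abs_nonneg (t1 * (z.1 - l))]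
    rw [Prod.norm_def, Real.norm_eq_abs, Real.norm_eq_abs]
    exact max_le_max hz1 hz2

end rex

end Pool.Agent.Helper37.LT
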