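import Mathlib

/-!
# The regular pentagon (MP_8bf717_co)
-/

set_option autoImplicit false

namespace Pool.Agent.Helper37.LT

/-- The vertices of the regular pentagon inscribed in the unit circle. -/
noncomputable def regV (k : Fin 5) : ℝ × ℝ :=
  (Real.cos (2 * Real.pi * (k : ℕ) / 5), Real.sin (2 * Real.pi * (k : ℕ) / 5))

/-- The regular pentagon, as a closed region. -/
noncomputable def regPent : Set (ℝ × ℝ) := convexHull ℝ (Set.range regV)

end Pool.Agent.Helper37.LT
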