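import Pool.Agent.Helper37.LT.Defs
import Pool.Agent.Helper37.OS.Area

/-!
# MP_8bf717_co, project LT: a body close to the regular pentagon is `Near`

The regular pentagon in affine coordinates: `q0 = (1/2, ε)`, `q1 = (0, 0)`, `q2 = (a, -g)`,
`q3 = (1 - a, -g)`, `q4 = (1, 0)` with `ε = (5 - √5)/10`, `a = (3 - √5)/4`, `g = √5/5`; its double
area is `1`, all five ears `tr q4 q0 q1, …` are `ε`.

PLAN. `T_k z = -tr q_k q_(k+1) z` (double area beyond side `k`).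
(1) `T_k z ≤ 2 δ` for `z ∈ K` (`δ = 10^-9`): the triangles `oT q0 q1 q2`, `oT q0 q2 q3`,
`oT q0 q3 q4` and the cap `cap K q_k q_(k+1)` are disjoint parts of `K` (compare the proof of
`Pent.area` in `Pool/Agent/Helper39/P5/Area.lean`), so `1/2 + kap K q_k q_(k+1) ≤ vol K`, and
`kap_tri` (`Pool/Agent/Helper37/OS/Area.lean`) bounds `kap` below by `T_k z / 2`.
(2) `v_k` = a point of `K` (compact) that maximises `T_(k-1) + T_k`, i.e. minimises
`cr (q_(k+1) - q_(k-1)) z`. Since `q_k ∈ K` has the value `0`, both `|T_(k-1) v_k|` and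
`|T_k v_k|` are `≤ 2 δ`; write `v_k - q_k = s (q_(k-1) - q_k) + t (q_(k+1) - q_k)`, then
`T_k v_k = -ε s`, `T_(k-1) v_k = -ε t`, so `|v_k - q_k| ≤ 15 δ` in both coordinates.
(3) All `tr v_i v_j v_l` and `sh` are within `200 δ` of the values for `q`; `K` lies in
`[-1, 2] × [-1, 1]` (combine the five inequalities of (1)), so `-tr v_k v_(k+1) z ≤ 200 δ`.
(4) tangents: `cr (q_(k+1) - q_(k-1)) (z - v_k) ≥ 0` on `K`, and
`q_(k+1) - q_(k-1) = α (v_k - v_(k-1)) + β (v_(k+1) - v_k)` with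
`α = cr (q_(k+1) - q_(k-1)) (v_(k+1) - v_k) / tr v_(k-1) v_k v_(k+1)`,
`β = cr (v_k - v_(k-1)) (q_(k+1) - q_(k-1)) / tr v_(k-1) v_k v_(k+1)`, both `1 + O(δ)`;
`tr v_(k-1) v_k z = cr (v_k - v_(k-1)) (z - v_k)`, `tr v_k v_(k+1) z = cr (v_(k+1) - v_k) (z - v_k)`.
-/

set_option autoImplicit false

open MeasureTheory Set

namespace Pool.Agent.Helper37.LT

open Pool.Agent.Helper37.PH Pool.Agent.Helper27.PHU Pool.Agent.Helper39.P5
open Pool.Agent.Helper37.OS Pool.Agent.Helper61.PH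

/-- the vertices of the regular pentagon in affine coordinates -/
noncomputable def q0 : ℝ × ℝ := (1 / 2, (5 - Real.sqrt 5) / 10)

def q1 : ℝ × ℝ := (0, 0)

noncomputable def q2 : ℝ × ℝ := ((3 - Real.sqrt 5) / 4, -(Real.sqrt 5 / 5))

noncomputable def q3 : ℝ × ℝ := (1 - (3 - Real.sqrt 5) / 4, -(Real.sqrt 5 / 5))

def q4 : ℝ × ℝ := (1, 0)

theorem sel_cr (u w : ℝ × ℝ) : cr u w = u.1 * w.2 - u.2 * w.1 := rfl

/-- products of nearby numbers -/
theorem sel_mul {x y x' y' t : ℝ} (ht : 0 ≤ t) (hx : |x' - x| ≤ t) (hy : |y' - y| ≤ t)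
    (hX : |x| ≤ 3) (hY : |y| ≤ 3) : |x' * y' - x * y| ≤ 6 * t + t ^ 2 := by
  have e : x' * y' - x * y = (x' - x) * y + x * (y' - y) + (x' - x) * (y' - y) := by ring
  rw [e]
  refine (abs_add_three _ _ _).trans ?_
  rw [abs_mul, abs_mul, abs_mul]
  have h1 : |x' - x| * |y| ≤ t * 3 := mul_le_mul hx hY (abs_nonneg _) ht
  have h2 : |x| * |y' - y| ≤ 3 * t := mul_le_mul hX hy (abs_nonneg _) (by norm_num)
  have h3 : |x' - x| * |y' - y| ≤ t * t := mul_le_mul hx hy (abs_nonneg _) ht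
  nlinarith

/-- `p'` is within `8 / 10 ^ 9` of `p` -/
def Cl (p' p : ℝ × ℝ) : Prop :=
  |p'.1 - p.1| ≤ 8 / 1000000000 ∧ |p'.2 - p.2| ≤ 8 / 1000000000

theorem Cl.refl (p : ℝ × ℝ) : Cl p p := by
  constructor <;> simp <;> norm_num

theorem Cl.diff1 {p' p q' q : ℝ × ℝ} (hp : Cl p' p) (hq : Cl q' q) :
    |(q'.1 - p'.1) - (q.1 - p.1)| ≤ 16 / 1000000000 := by
  have h1 := abs_le.1 hp.1
  have h2 := abs_le.1 hq.1
  rw [abs_le]
  constructor <;> linarith [h1.1, h1.2, h2.1, h2.2]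

theorem Cl.diff2 {p' p q' q : ℝ × ℝ} (hp : Cl p' p) (hq : Cl q' q) :
    |(q'.2 - p'.2) - (q.2 - p.2)| ≤ 16 / 1000000000 := by
  have h1 := abs_le.1 hp.2
  have h2 := abs_le.1 hq.2
  rw [abs_le]
  constructor <;> linarith [h1.1, h1.2, h2.1, h2.2]

/-- `p` is in a box -/
def Bx (p : ℝ × ℝ) : Prop := -1 ≤ p.1 ∧ p.1 ≤ 2 ∧ -1 ≤ p.2 ∧ p.2 ≤ 1

theorem Bx.d1 {p q : ℝ × ℝ} (hp : Bx p) (hq : Bx q) : |q.1 - p.1| ≤ 3 := by
  obtain ⟨a1, a2, -, -⟩ := hp
  obtain ⟨b1, b2, -, -⟩ := hq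
  rw [abs_le]
  constructor <;> linarith

theorem Bx.d2 {p q : ℝ × ℝ} (hp : Bx p) (hq : Bx q) : |q.2 - p.2| ≤ 3 := by
  obtain ⟨-, -, a1, a2⟩ := hp
  obtain ⟨-, -, b1, b2⟩ := hq
  rw [abs_le]
  constructor <;> linarith

/-- perturbation of the cross product of two differences -/
theorem sel_close {p p' q q' r r' s s' : ℝ × ℝ} (hp : Cl p' p) (hq : Cl q' q) (hr : Cl r' r)
    (hs : Cl s' s) (bp : Bx p) (bq : Bx q) (br : Bx r) (bs : Bx s) :
    |cr (q' - p') (s' - r') - cr (q - p) (s - r)| ≤ 2 / 10000000 := by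
  have h1 := sel_mul (by norm_num) (hp.diff1 hq) (hr.diff2 hs) (bp.d1 bq) (br.d2 bs)
  have h2 := sel_mul (by norm_num) (hp.diff2 hq) (hr.diff1 hs) (bp.d2 bq) (br.d1 bs)
  simp only [sel_cr, Prod.fst_sub, Prod.snd_sub]
  rw [abs_le] at h1 h2 ⊢
  obtain ⟨a1, a2⟩ := h1
  obtain ⟨b1, b2⟩ := h2
  norm_num at a1 a2 b1 b2 ⊢
  constructor <;> linarith

theorem sel_tr {p p' q q' r r' : ℝ × ℝ} (hp : Cl p' p) (hq : Cl q' q) (hr : Cl r' r)
    (bp : Bx p) (bq : Bx q) (br : Bx r) : |tr p' q' r' - tr p q r| ≤ 2 / 10000000 :=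
  sel_close hp hq hp hr bp bq bp br

/-- the new vertex near `q` -/
theorem sel_vertex {K : Set (ℝ × ℝ)} (hK : IsBody K) {p q r : ℝ × ℝ} (hq : q ∈ K)
    (h1 : ∀ z ∈ K, -tr p q z ≤ 2 / 1000000000) (h2 : ∀ z ∈ K, -tr q r z ≤ 2 / 1000000000)
    (hD : 276 / 1000 ≤ tr p q r) (b1 : |q.1 - p.1| + |r.1 - q.1| ≤ 1)
    (b2 : |q.2 - p.2| + |r.2 - q.2| ≤ 1) :
    ∃ v ∈ K, Cl v q ∧ ∀ z ∈ K, 0 ≤ cr (r - p) (z - v) := by
  have hcont : ContinuousOn (fun z => cr (r - p) (z - q)) K := by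
    apply Continuous.continuousOn
    unfold cr
    fun_prop
  obtain ⟨v, hv, hmin⟩ := hK.compact.exists_isMinOn ⟨q, hq⟩ hcont
  have hmin' : ∀ z ∈ K, cr (r - p) (v - q) ≤ cr (r - p) (z - q) := fun z hz => hmin hz
  refine ⟨v, hv, ?_, ?_⟩
  · have h0 := hmin' q hq
    have a1 := h1 v hv
    have a2 := h2 v hv
    simp only [tr_eq, sel_cr, Prod.fst_sub, Prod.snd_sub, sub_self] at h0 a1 a2 hD
    simp only [Prod.fst_zero, Prod.snd_zero, mul_zero, sub_zero] at h0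
    obtain ⟨x, hx⟩ : ∃ x : ℝ, x = v.1 - q.1 := ⟨_, rfl⟩
    obtain ⟨y, hy⟩ : ∃ y : ℝ, y = v.2 - q.2 := ⟨_, rfl⟩
    obtain ⟨a, ha⟩ : ∃ a : ℝ, a = q.1 - p.1 := ⟨_, rfl⟩
    obtain ⟨b, hb⟩ : ∃ b : ℝ, b = q.2 - p.2 := ⟨_, rfl⟩
    obtain ⟨c, hc⟩ : ∃ c : ℝ, c = r.1 - q.1 := ⟨_, rfl⟩
    obtain ⟨d, hd⟩ : ∃ d : ℝ, d = r.2 - q.2 := ⟨_, rfl⟩
    have e1 : v.1 - p.1 = x + a := by rw [hx, ha]; ring
    have e2 : v.2 - p.2 = y + b := by rw [hy, hb]; ring
    have e3 : r.1 - p.1 = a + c := by rw [ha, hc]; ring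
    have e4 : r.2 - p.2 = b + d := by rw [hb, hd]; ring
    rw [e1, e2, ← ha, ← hb] at a1
    rw [← hx, ← hy, ← hc, ← hd] at a2
    rw [e3, e4, ← hx, ← hy] at h0
    rw [e3, e4, ← ha, ← hb] at hD
    rw [← ha, ← hc] at b1
    rw [← hb, ← hd] at b2
    unfold Cl
    rw [← hx, ← hy]
    -- m = cr d1 w, n = cr d2 w
    obtain ⟨m, hm⟩ : ∃ m : ℝ, m = a * y - b * x := ⟨_, rfl⟩
    obtain ⟨n, hn⟩ : ∃ n : ℝ, n = c * y - d * x := ⟨_, rfl⟩
    obtain ⟨D, hDd⟩ : ∃ D : ℝ, D = a * d - b * c := ⟨_, rfl⟩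
    have hD1 : 276 / 1000 ≤ D := by rw [hDd]; linarith
    have m1 : -(2 / 1000000000) ≤ m := by rw [hm]; linarith
    have n1 : -(2 / 1000000000) ≤ n := by rw [hn]; linarith
    have mn : m + n ≤ 0 := by rw [hm, hn]; linarith
    have m2 : |m| ≤ 2 / 1000000000 := abs_le.2 ⟨m1, by linarith⟩
    have n2 : |n| ≤ 2 / 1000000000 := abs_le.2 ⟨n1, by linarith⟩
    have ex : D * x = m * c - n * a := by rw [hm, hn, hDd]; ring
    have ey : D * y = m * d - n * b := by rw [hm, hn, hDd]; ring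
    have key : ∀ s t w : ℝ, |t| + |s| ≤ 1 → D * w = m * s - n * t →
        |w| ≤ 8 / 1000000000 := by
      intro s t w hst hw
      have g1 : |D * w| ≤ 2 / 1000000000 := by
        rw [hw]
        calc |m * s - n * t| ≤ |m * s| + |n * t| := abs_sub _ _
          _ = |m| * |s| + |n| * |t| := by rw [abs_mul, abs_mul]
          _ ≤ 2 / 1000000000 * |s| + 2 / 1000000000 * |t| := by
              apply add_le_add
              · exact mul_le_mul_of_nonneg_right m2 (abs_nonneg _)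
              · exact mul_le_mul_of_nonneg_right n2 (abs_nonneg _)
          _ ≤ 2 / 1000000000 := by nlinarith
      rw [abs_mul, abs_of_pos (by linarith)] at g1
      have g2 : 276 / 1000 * |w| ≤ D * |w| := mul_le_mul_of_nonneg_right hD1 (abs_nonneg _)
      linarith
    exact ⟨key c a x b1 ex, key d b y b2 ey⟩
  · intro z hz
    have := hmin' z hz
    simp only [sel_cr, Prod.fst_sub, Prod.snd_sub] at this ⊢
    linarith

/-- the tangent inequality in terms of the new vertices -/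
theorem sel_tangent {K : Set (ℝ × ℝ)} {p q r u v w : ℝ × ℝ} (hu : Cl u p) (hv : Cl v q)
    (hw : Cl w r) (bp : Bx p) (bq : Bx q) (br : Bx r) (hD : 276 / 1000 ≤ tr p q r)
    (h : ∀ z ∈ K, 0 ≤ cr (r - p) (z - v)) :
    ∃ α β : ℝ, |α - 1| ≤ 1 / 1000 ∧ |β - 1| ≤ 1 / 1000 ∧
      ∀ z ∈ K, 0 ≤ α * tr u v z + β * tr v w z := by
  have h1 := sel_tr hu hv hw bp bq br
  have h2 := sel_close (Cl.refl p) (Cl.refl r) hv hw bp br bq br
  have h3 := sel_close hu hv (Cl.refl p) (Cl.refl r) bp bq bp br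
  have e2 : cr (r - p) (r - q) = tr p q r := by
    simp only [tr_eq, sel_cr, Prod.fst_sub, Prod.snd_sub]; ring
  have e3 : cr (q - p) (r - p) = tr p q r := rfl
  rw [e2] at h2
  rw [e3] at h3
  obtain ⟨T, hT⟩ : ∃ T : ℝ, T = tr u v w := ⟨_, rfl⟩
  rw [← hT] at h1
  have hTp : 275 / 1000 ≤ T := by
    have := (abs_le.1 h1).1
    linarith
  have hT0 : 0 < T := by linarith
  have key : ∀ N : ℝ, |N - tr p q r| ≤ 2 / 10000000 → |N / T - 1| ≤ 1 / 1000 := by
    intro N hN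
    have g1 := abs_le.1 h1
    have g2 := abs_le.1 hN
    have e : N / T - 1 = (N - T) / T := by field_simp
    rw [e, abs_div, abs_of_pos hT0, div_le_iff₀ hT0, abs_le]
    constructor <;> linarith [g1.1, g1.2, g2.1, g2.2]
  refine ⟨cr (r - p) (w - v) / T, cr (v - u) (r - p) / T, key _ h2, key _ h3, ?_⟩
  intro z hz
  have g := h z hz
  have e : cr (r - p) (w - v) / T * tr u v z + cr (v - u) (r - p) / T * tr v w z =
      cr (r - p) (z - v) := by
    rw [div_mul_eq_mul_div, div_mul_eq_mul_div, ← add_div, div_eq_iff hT0.ne', hT]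
    simp only [tr_eq, sel_cr, Prod.fst_sub, Prod.snd_sub]
    ring
  rw [e]
  exact g

/-- the area beyond a side -/
theorem sel_cap {K : Set (ℝ × ℝ)} (hK : IsBody K) {v0 v1 v2 v3 v4 : ℝ × ℝ} (h0 : v0 ∈ K)
    (h1 : v1 ∈ K) (h2 : v2 ∈ K) (h3 : v3 ∈ K) (h4 : v4 ∈ K) {c : ℝ}
    (hA : tr v0 v1 v2 + tr v0 v2 v3 + tr v0 v3 v4 = 1) (hA1 : 0 ≤ tr v0 v1 v2)
    (hA2 : 0 ≤ tr v0 v2 v3) (hA3 : 0 ≤ tr v0 v3 v4) (hs : 0 ≤ tr v0 v2 v4)
    (hv : (volume K).toReal ≤ 1 / 2 + c) {u v : ℝ × ℝ} (hu : u ∈ K) (hv' : v ∈ K)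
    (g0 : 0 ≤ tr u v v0) (g1 : 0 ≤ tr u v v1) (g2 : 0 ≤ tr u v v2) (g3 : 0 ≤ tr u v v3)
    (g4 : 0 ≤ tr u v v4) : ∀ z ∈ K, -tr u v z ≤ 2 * c := by
  intro z hz
  set T0 := oT v0 v1 v2 with hT0
  set T1 := oT v0 v2 v3 with hT1
  set T2 := oT v0 v3 v4 with hT2
  have s0' : T0 ⊆ K := oT_sub' hK.convex h0 h1 h2
  have s1' : T1 ⊆ K := oT_sub' hK.convex h0 h2 h3
  have s2' : T2 ⊆ K := oT_sub' hK.convex h0 h3 h4
  have t01 : Disjoint T0 T1 := by
    rw [Set.disjoint_left]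
    rintro z ⟨-, -, k1⟩ ⟨k2, -, -⟩
    rw [tr_swap] at k1
    linarith
  have t12 : Disjoint T1 T2 := by
    rw [Set.disjoint_left]
    rintro z ⟨-, -, k1⟩ ⟨k2, -, -⟩
    rw [tr_swap] at k1
    linarith
  have t02 : Disjoint T0 T2 := by
    rw [Set.disjoint_left]
    rintro z hz0 hz2
    have k1 : 0 < tr v2 v0 z := hz0.2.2
    have hp : 0 < tr v0 v3 v4 := by
      have := tr_sum3 v0 v3 v4 z
      have := hz2.1
      have := hz2.2.1
      have := hz2.2.2
      linarith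
    have k2 : 0 ≤ tr v0 v2 z := oT_nonneg hz2 hp (by rw [tr_self_out]) hA2 hs
    rw [tr_swap] at k1
    linarith
  have vt : ENNReal.ofReal (1 / 2) ≤ volume (T0 ∪ T1 ∪ T2) := by
    rw [measure_union (disjoint_union_left.2 ⟨t02, t12⟩) (isOpen_oT _ _ _).measurableSet,
      measure_union t01 (isOpen_oT _ _ _).measurableSet]
    refine le_trans (le_of_eq ?_) (add_le_add (add_le_add (vol_oT' v0 v1 v2) (vol_oT' v0 v2 v3))
      (vol_oT' v0 v3 v4))
    rw [← ENNReal.ofReal_add (by linarith) (by linarith), ← ENNReal.ofReal_add (by linarith)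
      (by linarith)]
    congr 1
    linarith
  have hd : Disjoint (T0 ∪ T1 ∪ T2) (cap K u v) :=
    disjoint_union_left.2 ⟨disjoint_union_left.2 ⟨disj_oT_cap g0 g1 g2,
      disj_oT_cap g0 g2 g3⟩, disj_oT_cap g0 g3 g4⟩
  have hle : volume ((T0 ∪ T1 ∪ T2) ∪ cap K u v) ≤ volume K := by
    apply measure_mono
    exact union_subset (union_subset (union_subset s0' s1') s2') inter_subset_left
  rw [measure_union hd (measurableSet_cap hK u v)] at hle
  have hle2 := (add_le_add vt le_rfl).trans hle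
  have hfin : volume K ≠ ⊤ := hK.compact.measure_lt_top.ne
  have key := ENNReal.toReal_mono hfin hle2
  rw [ENNReal.toReal_add ENNReal.ofReal_ne_top (cap_ne_top hK u v),
    ENNReal.toReal_ofReal (by norm_num)] at key
  have k3 := kap_tri hK hu hv' hz
  unfold kap at k3
  linarith

theorem sel_sqrt : 2236067977 / 1000000000 ≤ Real.sqrt 5 ∧
    Real.sqrt 5 ≤ 2236067978 / 1000000000 := by
  constructor
  · apply Real.le_sqrt_of_sq_le
    norm_num
  · rw [Real.sqrt_le_left (by norm_num)]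
    norm_num

theorem exists_near {K : Set (ℝ × ℝ)} (hK : IsBody K) (h0 : q0 ∈ K) (h1 : q1 ∈ K) (h2 : q2 ∈ K)
    (h3 : q3 ∈ K) (h4 : q4 ∈ K) (hv : (volume K).toReal ≤ 1 / 2 + 1 / 1000000000) :
    ∃ v0 v1 v2 v3 v4, Near K v0 v1 v2 v3 v4 := by
  obtain ⟨s0, s1⟩ := sel_sqrt
  have ssq : Real.sqrt 5 ^ 2 = 5 := Real.sq_sqrt (by norm_num)
  have b0 : Bx q0 := by
    unfold Bx q0
    simp only
    refine ⟨?_, ?_, ?_, ?_⟩ <;> linarith
  have b1 : Bx q1 := by
    unfold Bx q1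
    simp only
    refine ⟨?_, ?_, ?_, ?_⟩ <;> norm_num
  have b2 : Bx q2 := by
    unfold Bx q2
    simp only
    refine ⟨?_, ?_, ?_, ?_⟩ <;> linarith
  have b3 : Bx q3 := by
    unfold Bx q3
    simp only
    refine ⟨?_, ?_, ?_, ?_⟩ <;> linarith
  have b4 : Bx q4 := by
    unfold Bx q4
    simp only
    refine ⟨?_, ?_, ?_, ?_⟩ <;> norm_num
  -- the ten triangles of the regular pentagon
  have t012 : tr q0 q1 q2 = (5 - Real.sqrt 5) / 10 := by
    simp only [tr_eq, q0, q1, q2]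
    nlinarith
  have t123 : tr q1 q2 q3 = (5 - Real.sqrt 5) / 10 := by
    simp only [tr_eq, q1, q2, q3]
    nlinarith
  have t234 : tr q2 q3 q4 = (5 - Real.sqrt 5) / 10 := by
    simp only [tr_eq, q2, q3, q4]
    nlinarith
  have t340 : tr q3 q4 q0 = (5 - Real.sqrt 5) / 10 := by
    simp only [tr_eq, q0, q3, q4]
    nlinarith
  have t401 : tr q4 q0 q1 = (5 - Real.sqrt 5) / 10 := by
    simp only [tr_eq, q0, q1, q4]
    nlinarith
  have t013 : tr q0 q1 q3 = Real.sqrt 5 / 5 := by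
    simp only [tr_eq, q0, q1, q3]
    nlinarith
  have t124 : tr q1 q2 q4 = Real.sqrt 5 / 5 := by
    simp only [tr_eq, q1, q2, q4]
    nlinarith
  have t230 : tr q2 q3 q0 = Real.sqrt 5 / 5 := by
    simp only [tr_eq, q0, q2, q3]
    nlinarith
  have t341 : tr q3 q4 q1 = Real.sqrt 5 / 5 := by
    simp only [tr_eq, q1, q3, q4]
    nlinarith
  have t402 : tr q4 q0 q2 = Real.sqrt 5 / 5 := by
    simp only [tr_eq, q0, q2, q4]
    nlinarith
  -- (1)
  have hcap : ∀ u v : ℝ × ℝ, u ∈ K → v ∈ K → 0 ≤ tr u v q0 → 0 ≤ tr u v q1 → 0 ≤ tr u v q2 →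
      0 ≤ tr u v q3 → 0 ≤ tr u v q4 → ∀ z ∈ K, -tr u v z ≤ 2 / 1000000000 := by
    intro u v hu hv' g0 g1 g2 g3 g4 z hz
    have a2 : tr q0 q2 q3 = Real.sqrt 5 / 5 := by rw [← t230, tr_rot q0 q2 q3]
    have a3 : tr q0 q3 q4 = (5 - Real.sqrt 5) / 10 := by rw [← t340, tr_rot q0 q3 q4]
    have a4 : tr q0 q2 q4 = Real.sqrt 5 / 5 := by rw [← t402, tr_rot q4 q0 q2]
    have := sel_cap hK h0 h1 h2 h3 h4 (c := 1 / 1000000000) (by rw [t012, a2, a3]; ring)
      (by rw [t012]; linarith) (by rw [a2]; linarith) (by rw [a3]; linarith)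
      (by rw [a4]; linarith) hv hu hv' g0 g1 g2 g3 g4 z hz
    linarith
  have hεp : (0 : ℝ) ≤ (5 - Real.sqrt 5) / 10 := by linarith
  have hgp : (0 : ℝ) ≤ Real.sqrt 5 / 5 := by linarith
  have c01 := hcap q0 q1 h0 h1 (by rw [tr_self_out]) (by rw [tr_self_right])
    (by rw [t012]; exact hεp) (by rw [t013]; exact hgp)
    (by rw [tr_rot q4 q0 q1, t401]; exact hεp)
  have c12 := hcap q1 q2 h1 h2 (by rw [tr_rot q0 q1 q2, t012]; exact hεp) (by rw [tr_self_out])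
    (by rw [tr_self_right]) (by rw [t123]; exact hεp) (by rw [t124]; exact hgp)
  have c23 := hcap q2 q3 h2 h3 (by rw [t230]; exact hgp)
    (by rw [tr_rot q1 q2 q3, t123]; exact hεp) (by rw [tr_self_out])
    (by rw [tr_self_right]) (by rw [t234]; exact hεp)
  have c34 := hcap q3 q4 h3 h4 (by rw [t340]; exact hεp) (by rw [t341]; exact hgp)
    (by rw [tr_rot q2 q3 q4, t234]; exact hεp) (by rw [tr_self_out])
    (by rw [tr_self_right])
  have c40 := hcap q4 q0 h4 h0 (by rw [tr_self_right]) (by rw [t401]; exact hεp)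
    (by rw [t402]; exact hgp) (by rw [tr_rot q3 q4 q0, t340]; exact hεp) (by rw [tr_self_out])
  -- `K` lies in a box
  have hbox : ∀ z ∈ K, Bx z := by
    intro z hz
    have a0 := c01 z hz
    have a1 := c12 z hz
    have a2 := c23 z hz
    have a3 := c34 z hz
    have a4 := c40 z hz
    simp only [tr_eq, q0, q1, q2, q3, q4] at a0 a1 a2 a3 a4
    obtain ⟨x, y⟩ := z
    simp only at a0 a1 a2 a3 a4
    obtain ⟨s, hs⟩ : ∃ s : ℝ, s = Real.sqrt 5 := ⟨_, rfl⟩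
    rw [← hs] at a0 a1 a2 a3 a4 s0 s1 ssq
    have y1 : y ≤ 3 / 10 := by linarith
    have y0 : -(1 / 2) ≤ y := by
      by_contra hc
      push Not at hc
      have k := mul_le_mul_of_nonneg_right hc.le (show 0 ≤ (s - 1) / 2 by linarith)
      nlinarith
    have k := mul_le_mul_of_nonneg_left y1 (show 0 ≤ (3 - s) / 4 by linarith)
    refine ⟨?_, ?_, by linarith, by linarith⟩
    · by_contra hc
      push Not at hc
      have k2 := mul_le_mul_of_nonneg_left hc.le (show 0 ≤ s / 5 by linarith)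
      simp only at k2
      linarith
    · by_contra hc
      push Not at hc
      have k2 := mul_le_mul_of_nonneg_left hc.le (show 0 ≤ s / 5 by linarith)
      simp only at k2
      linarith
  -- (2)
  have hsq3 : (0 : ℝ) ≤ (3 - Real.sqrt 5) / 4 := by linarith
  obtain ⟨v0, m0, l0, w0⟩ := sel_vertex hK h0 c40 c01 (by rw [t401]; linarith)
    (by
      simp only [q0, q1, q4]
      norm_num)
    (by
      simp only [q0, q1, q4]
      rw [abs_of_nonneg (by linarith), abs_of_nonpos (by linarith)]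
      linarith)
  obtain ⟨v1, m1, l1, w1⟩ := sel_vertex hK h1 c01 c12 (by rw [t012]; linarith)
    (by
      simp only [q0, q1, q2]
      rw [abs_of_nonpos (by norm_num), abs_of_nonneg (by linarith)]
      linarith)
    (by
      simp only [q0, q1, q2]
      rw [abs_of_nonpos (by linarith), abs_of_nonpos (by linarith)]
      linarith)
  obtain ⟨v2, m2, l2, w2⟩ := sel_vertex hK h2 c12 c23 (by rw [t123]; linarith)
    (by
      simp only [q1, q2, q3]
      rw [abs_of_nonneg (by linarith), abs_of_nonneg (by linarith)]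
      linarith)
    (by
      simp only [q1, q2, q3]
      rw [abs_of_nonpos (by linarith), abs_of_nonpos (by linarith)]
      linarith)
  obtain ⟨v3, m3, l3, w3⟩ := sel_vertex hK h3 c23 c34 (by rw [t234]; linarith)
    (by
      simp only [q2, q3, q4]
      rw [abs_of_nonneg (by linarith), abs_of_nonneg (by linarith)]
      linarith)
    (by
      simp only [q2, q3, q4]
      rw [abs_of_nonpos (by linarith), abs_of_nonneg (by linarith)]
      linarith)
  obtain ⟨v4, m4, l4, w4⟩ := sel_vertex hK h4 c34 c40 (by rw [t340]; linarith)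
    (by
      simp only [q0, q3, q4]
      rw [abs_of_nonneg (by linarith), abs_of_nonpos (by norm_num)]
      linarith)
    (by
      simp only [q0, q3, q4]
      rw [abs_of_nonneg (by linarith), abs_of_nonneg (by linarith)]
      linarith)
  -- (3)
  have hne : ∀ x : ℝ, |x - (5 - Real.sqrt 5) / 10| ≤ 2 / 10000000 → NE x := by
    intro x hx
    have := abs_le.1 hx
    unfold NE
    rw [abs_le]
    constructor <;> linarith [this.1, this.2]
  have hth : ∀ p q u v : ℝ × ℝ, Cl u p → Cl v q → Bx p → Bx q →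
      (∀ z ∈ K, -tr p q z ≤ 2 / 1000000000) → ∀ z ∈ K, -tr u v z ≤ 1 / 1000000 := by
    intro p q u v hu hv' bp bq hc z hz
    have k1 := sel_tr hu hv' (Cl.refl z) bp bq (hbox z hz)
    have k2 := hc z hz
    have := (abs_le.1 k1).1
    linarith
  refine ⟨v0, v1, v2, v3, v4, ?_⟩
  have k012 := sel_tr l0 l1 l2 b0 b1 b2
  have k123 := sel_tr l1 l2 l3 b1 b2 b3
  have k234 := sel_tr l2 l3 l4 b2 b3 b4
  have k340 := sel_tr l3 l4 l0 b3 b4 b0
  have k401 := sel_tr l4 l0 l1 b4 b0 b1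
  have k023 := sel_tr l0 l2 l3 b0 b2 b3
  have k034 := sel_tr l0 l3 l4 b0 b3 b4
  have a2 : tr q0 q2 q3 = Real.sqrt 5 / 5 := by rw [← t230, tr_rot q0 q2 q3]
  have a3 : tr q0 q3 q4 = (5 - Real.sqrt 5) / 10 := by rw [← t340, tr_rot q0 q3 q4]
  rw [t012] at k012
  rw [t123] at k123
  rw [t234] at k234
  rw [t340] at k340
  rw [t401] at k401
  rw [a2] at k023
  rw [a3] at k034
  exact
    { body := hK
      m0 := m0
      m1 := m1
      m2 := m2
      m3 := m3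
      m4 := m4
      e0 := hne _ k401
      e1 := hne _ k012
      e2 := hne _ k123
      e3 := hne _ k234
      e4 := hne _ k340
      sh1 := by
        rw [sh_fan, abs_le]
        have g1 := abs_le.1 k012
        have g2 := abs_le.1 k023
        have g3 := abs_le.1 k034
        constructor <;> linarith [g1.1, g1.2, g2.1, g2.2, g3.1, g3.2]
      th0 := hth _ _ _ _ l0 l1 b0 b1 c01
      th1 := hth _ _ _ _ l1 l2 b1 b2 c12
      th2 := hth _ _ _ _ l2 l3 b2 b3 c23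
      th3 := hth _ _ _ _ l3 l4 b3 b4 c34
      th4 := hth _ _ _ _ l4 l0 b4 b0 c40
      t0 := sel_tangent l4 l0 l1 b4 b0 b1 (by rw [t401]; linarith) w0
      t1 := sel_tangent l0 l1 l2 b0 b1 b2 (by rw [t012]; linarith) w1
      t2 := sel_tangent l1 l2 l3 b1 b2 b3 (by rw [t123]; linarith) w2
      t3 := sel_tangent l2 l3 l4 b2 b3 b4 (by rw [t234]; linarith) w3
      t4 := sel_tangent l3 l4 l0 b3 b4 b0 (by rw [t340]; linarith) w4 }

end Pool.Agent.Helper37.LT
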