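import Pool.Agent.Helper37.LT.Final
import Pool.Agent.Helper37.LT.Select
import Pool.Agent.Helper37.OS.Frame
import Pool.Agent.Helper88.PH.Final
import Pool.Agent.Helper37.LT.RegDef

/-!
# MP_8bf717_co, project LT: affine images of the regular pentagon
-/

set_option autoImplicit false

open MeasureTheory Set

namespace Pool.Agent.Helper37.LT

open Pool.Agent.Helper37.PH Pool.Agent.Helper27.PHU Pool.Agent.Helper39.P5
open Pool.Agent.Helper61.PH Pool.Agent.Helper83.PHU Pool.Agent.Helper37.OS

theorem cos_two : Real.cos (2 * Real.pi / 5) = (Real.goldenRatio - 1) / 2 := by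
  have h : 2 * Real.pi / 5 = 2 * (Real.pi / 5) := by ring
  have hg : Real.goldenRatio = (1 + Real.sqrt 5) / 2 := rfl
  have h5 : Real.sqrt 5 ^ 2 = 5 := Real.sq_sqrt (by norm_num)
  rw [h, Real.cos_two_mul, Real.cos_pi_div_five, hg]
  linear_combination (1 / 8) * h5

theorem cos_four : Real.cos (4 * Real.pi / 5) = -Real.goldenRatio / 2 := by
  have h : 4 * Real.pi / 5 = Real.pi - Real.pi / 5 := by ring
  have hg : Real.goldenRatio = (1 + Real.sqrt 5) / 2 := rfl
  rw [h, Real.cos_pi_sub, Real.cos_pi_div_five, hg]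
  ring

theorem sin_four : Real.sin (4 * Real.pi / 5) =
    (Real.goldenRatio - 1) * Real.sin (2 * Real.pi / 5) := by
  have h : 4 * Real.pi / 5 = 2 * (2 * Real.pi / 5) := by ring
  rw [h, Real.sin_two_mul, cos_two]
  ring

theorem sin_two_pos : 0 < Real.sin (2 * Real.pi / 5) := by
  apply Real.sin_pos_of_pos_of_lt_pi
  · have := Real.pi_pos
    positivity
  · have := Real.pi_pos
    linarith

theorem regV0 : regV 0 = (1, 0) := by
  unfold regV
  simp

theorem regV1 : regV 1 = ((Real.goldenRatio - 1) / 2, Real.sin (2 * Real.pi / 5)) := by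
  unfold regV
  have h : 2 * Real.pi * ((1 : Fin 5) : ℕ) / 5 = 2 * Real.pi / 5 := by
    norm_num
  rw [h, cos_two]

theorem regV2 : regV 2 = (-Real.goldenRatio / 2,
    (Real.goldenRatio - 1) * Real.sin (2 * Real.pi / 5)) := by
  unfold regV
  have h : 2 * Real.pi * ((2 : Fin 5) : ℕ) / 5 = 4 * Real.pi / 5 := by
    have : ((2 : Fin 5) : ℕ) = 2 := rfl
    rw [this]
    push_cast
    ring
  rw [h, cos_four, sin_four]

theorem regV3 : regV 3 = (-Real.goldenRatio / 2,
    -((Real.goldenRatio - 1) * Real.sin (2 * Real.pi / 5))) := by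
  unfold regV
  have h : 2 * Real.pi * ((3 : Fin 5) : ℕ) / 5 = 2 * Real.pi - 4 * Real.pi / 5 := by
    have : ((3 : Fin 5) : ℕ) = 3 := rfl
    rw [this]
    push_cast
    ring
  rw [h, Real.cos_two_pi_sub, Real.sin_two_pi_sub, cos_four, sin_four]

theorem regV4 : regV 4 = ((Real.goldenRatio - 1) / 2, -Real.sin (2 * Real.pi / 5)) := by
  unfold regV
  have h : 2 * Real.pi * ((4 : Fin 5) : ℕ) / 5 = 2 * Real.pi - 2 * Real.pi / 5 := by
    have : ((4 : Fin 5) : ℕ) = 4 := rfl
    rw [this]
    push_cast
    ring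
  rw [h, Real.cos_two_pi_sub, Real.sin_two_pi_sub, cos_two]

theorem AR_regV : AR regV := by
  have hgg := Real.goldenRatio_sq
  set s := Real.sin (2 * Real.pi / 5) with hs
  intro i
  fin_cases i
  · show regV 2 - regV 4 = Real.goldenRatio • (regV 1 - regV 0)
    rw [regV0, regV1, regV2, regV4]
    ext
    · simp only [Prod.fst_sub, Prod.smul_fst, smul_eq_mul]
      linear_combination (-1 / 2) * hgg
    · simp only [Prod.snd_sub, Prod.smul_snd, smul_eq_mul]
      ring
  · show regV 3 - regV 0 = Real.goldenRatio • (regV 2 - regV 1)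
    rw [regV0, regV1, regV2, regV3]
    ext
    · simp only [Prod.fst_sub, Prod.smul_fst, smul_eq_mul]
      linear_combination hgg
    · simp only [Prod.snd_sub, Prod.smul_snd, smul_eq_mul]
      linear_combination (-s) * hgg
  · show regV 4 - regV 1 = Real.goldenRatio • (regV 3 - regV 2)
    rw [regV1, regV2, regV3, regV4]
    ext
    · simp only [Prod.fst_sub, Prod.smul_fst, smul_eq_mul]
      ring
    · simp only [Prod.snd_sub, Prod.smul_snd, smul_eq_mul]
      linear_combination (2 * s) * hgg
  · show regV 0 - regV 2 = Real.goldenRatio • (regV 4 - regV 3)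
    rw [regV0, regV2, regV3, regV4]
    ext
    · simp only [Prod.fst_sub, Prod.smul_fst, smul_eq_mul]
      linear_combination (-1) * hgg
    · simp only [Prod.snd_sub, Prod.smul_snd, smul_eq_mul]
      linear_combination (-s) * hgg
  · show regV 1 - regV 3 = Real.goldenRatio • (regV 0 - regV 4)
    rw [regV0, regV1, regV3, regV4]
    ext
    · simp only [Prod.fst_sub, Prod.smul_fst, smul_eq_mul]
      linear_combination (1 / 2) * hgg
    · simp only [Prod.snd_sub, Prod.smul_snd, smul_eq_mul]
      ring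

theorem tr_regV : tr (regV 1) (regV 4) (regV 0) ≠ 0 := by
  have hg1 := Real.one_lt_goldenRatio
  have hs := sin_two_pos
  have hgg := Real.goldenRatio_sq
  have hghi : Real.goldenRatio < 2 := Real.goldenRatio_lt_two
  have e : tr (regV 1) (regV 4) (regV 0) =
      Real.sin (2 * Real.pi / 5) * (3 - Real.goldenRatio) := by
    rw [regV0, regV1, regV4, tr_eq]
    simp only
    ring
  rw [e]
  exact (mul_pos hs (by linarith)).ne'

end Pool.Agent.Helper37.LT
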