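import Pool.Agent.Helper37.LT.Map

/-!
# MP_8bf717_co, project LT: from `Near` to the coordinates of an apex
-/

set_option autoImplicit false

open MeasureTheory Set

namespace Pool.Agent.Helper37.LT

open Pool.Agent.Helper37.PH Pool.Agent.Helper27.PHU Pool.Agent.Helper39.P5
open Pool.Agent.Helper61.PH Pool.Agent.Helper83.PHU

theorem sh_G (v0 v1 v2 v3 v4 : ℝ × ℝ) : cr (v4 - v1) ((v2 + v3) - (v1 + v4)) =
    -(2 * sh v0 v1 v2 v3 v4 - 2 * tr v4 v0 v1 - tr v1 v2 v3 - tr v2 v3 v4) := by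
  simp only [tr_eq]
  unfold sh cr
  simp only [Prod.fst_sub, Prod.snd_sub, Prod.fst_add, Prod.snd_add]
  ring

theorem Near.fr {K : Set (ℝ × ℝ)} {v0 v1 v2 v3 v4 : ℝ × ℝ} (h : Near K v0 v1 v2 v3 v4) :
    ∃ (A : (ℝ × ℝ) ≃ᵃ[ℝ] (ℝ × ℝ)) (u p a g2 g3 o1 o4 : ℝ),
      (∀ V : ℝ, Cov (A '' K) V → Cov K V) ∧
      (∀ p q r, tr (A p) (A q) (A r) = tr p q r) ∧ A v0 = (u, p) ∧ A v1 = (0, 0) ∧
      A v2 = (a, -g2) ∧ A v3 = (1 - a, -g3) ∧ A v4 = (1, 0) ∧ Fr (A '' K) u p a g2 g3 o1 o4 := by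
  have hw : cr (v4 - v1) ((v2 + v3) - (v1 + v4)) ≠ 0 := by
    rw [sh_G v0]
    have e0 := h.e0
    have e2 := h.e2
    have e3 := h.e3
    have e5 := h.sh1
    unfold NE at e0 e2 e3
    rw [abs_le] at e0 e2 e3 e5
    have : 0 < 2 * sh v0 v1 v2 v3 v4 - 2 * tr v4 v0 v1 - tr v1 v2 v3 - tr v2 v3 v4 := by
      linarith [e0.2, e2.2, e3.2, e5.1]
    linarith
  obtain ⟨A, hcov, hA, hT⟩ := exists_frame hw
  obtain ⟨u, hu⟩ : ∃ u, u = (A v0).1 := ⟨_, rfl⟩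
  obtain ⟨p, hp⟩ : ∃ p, p = (A v0).2 := ⟨_, rfl⟩
  obtain ⟨a, ha⟩ : ∃ a, a = (A v2).1 := ⟨_, rfl⟩
  obtain ⟨g2, hg2⟩ : ∃ g2, g2 = -(A v2).2 := ⟨_, rfl⟩
  obtain ⟨g3, hg3⟩ : ∃ g3, g3 = -(A v3).2 := ⟨_, rfl⟩
  have A0 : A v0 = (u, p) := by rw [hu, hp]
  have A1 : A v1 = (0, 0) := by
    rw [hA]
    simp [cr]
  have A2 : A v2 = (a, -g2) := by rw [ha, hg2, neg_neg]
  have A3 : A v3 = (1 - a, -g3) := by
    rw [hg3, neg_neg, ha]
    apply Prod.ext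
    · simp only
      have e1 : (A v2).1 + (A v3).1 = 1 := by
        rw [hA, hA]
        simp only
        rw [← add_div, div_eq_one_iff_eq hw]
        unfold cr
        simp only [Prod.fst_sub, Prod.snd_sub, Prod.fst_add, Prod.snd_add]
        ring
      linarith
    · rfl
  have A4 : A v4 = (1, 0) := by
    rw [hA]
    apply Prod.ext
    · simp only
      exact div_self hw
    · simp only
      unfold cr
      ring
  have E0 : NE p := by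
    have := h.e0
    rw [← hT, A0, A1, A4] at this
    have e : tr ((1, 0) : ℝ × ℝ) (u, p) (0, 0) = p := by
      simp only [tr_eq]; ring
    rwa [e] at this
  have E1 : NE (u * g2 + a * p) := by
    have := h.e1
    rw [← hT, A0, A1, A2] at this
    have e : tr ((u, p) : ℝ × ℝ) (0, 0) (a, -g2) = u * g2 + a * p := by
      simp only [tr_eq]; ring
    rwa [e] at this
  have E2 : NE ((1 - a) * g2 - a * g3) := by
    have := h.e2
    rw [← hT, A1, A2, A3] at this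
    have e : tr ((0, 0) : ℝ × ℝ) (a, -g2) (1 - a, -g3) = (1 - a) * g2 - a * g3 := by
      simp only [tr_eq]; ring
    rwa [e] at this
  have E3 : NE ((1 - a) * g3 - a * g2) := by
    have := h.e3
    rw [← hT, A2, A3, A4] at this
    have e : tr ((a, -g2) : ℝ × ℝ) (1 - a, -g3) (1, 0) = (1 - a) * g3 - a * g2 := by
      simp only [tr_eq]; ring
    rwa [e] at this
  have S : |p + (1 - a) * (g2 + g3) - 1| ≤ 1 / 1000000 := by
    have := h.sh1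
    have e : sh v0 v1 v2 v3 v4 = p + (1 - a) * (g2 + g3) := by
      rw [sh_fan, ← hT v0 v1 v2, ← hT v0 v2 v3, ← hT v0 v3 v4, A0, A1, A2, A3, A4]
      simp only [tr_eq]; ring
    rwa [e] at this
  obtain ⟨⟨u0, u1⟩, ⟨p0, p1⟩, ⟨a0, a1⟩, ⟨g20, g21⟩, ⟨g30, g31⟩⟩ := fr_num E0 E1 E2 E3 S
  have hB : IsBody (A '' K) := body_image h.body _
  have m0 : ((u, p) : ℝ × ℝ) ∈ A '' K := ⟨v0, h.m0, A0⟩
  have m1 : ((0, 0) : ℝ × ℝ) ∈ A '' K := ⟨v1, h.m1, A1⟩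
  have m2 : ((a, -g2) : ℝ × ℝ) ∈ A '' K := ⟨v2, h.m2, A2⟩
  have m3 : ((1 - a, -g3) : ℝ × ℝ) ∈ A '' K := ⟨v3, h.m3, A3⟩
  have m4 : ((1, 0) : ℝ × ℝ) ∈ A '' K := ⟨v4, h.m4, A4⟩
  -- the side functionals
  have F0 : ∀ z : ℝ × ℝ, tr v0 v1 z = p * (A z).1 - u * (A z).2 := by
    intro z
    rw [← hT, A0, A1, tr_eq]
    simp only
    ring
  have F1 : ∀ z : ℝ × ℝ, tr v1 v2 z = a * (A z).2 + g2 * (A z).1 := by
    intro z
    rw [← hT, A1, A2, tr_eq]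
    simp only
    ring
  have F2 : ∀ z : ℝ × ℝ, tr v2 v3 z = (1 - 2 * a) * ((A z).2 + g2) -
      (g2 - g3) * ((A z).1 - a) := by
    intro z
    rw [← hT, A2, A3, tr_eq]
    simp only
    ring
  have F3 : ∀ z : ℝ × ℝ, tr v3 v4 z = a * (A z).2 + g3 * (1 - (A z).1) := by
    intro z
    rw [← hT, A3, A4, tr_eq]
    simp only
    ring
  have F4 : ∀ z : ℝ × ℝ, tr v4 v0 z = p * (1 - (A z).1) - (1 - u) * (A z).2 := by
    intro z
    rw [← hT, A4, A0, tr_eq]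
    simp only
    ring
  -- tangents
  have s1 : ∀ z ∈ A '' K, z.1 ≤ 0 → z.2 ≤ 2 * z.1 := by
    rintro _ ⟨z, hz, rfl⟩ hz1
    obtain ⟨α, β, hα, hβ, ht⟩ := h.t1
    have h1 := ht z hz
    rw [F0, F1] at h1
    rw [abs_le] at hα hβ
    obtain ⟨α0, α1⟩ := hα
    obtain ⟨β0, β1⟩ := hβ
    set x := (A z).1
    set y := (A z).2
    have c1 : 300 / 1000 ≤ α * u - β * a := by nlinarith
    have c2 : 2 * (α * u - β * a) ≤ α * p + β * g2 := by nlinarith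
    have c3 : (α * u - β * a) * (y - 2 * x) ≤ 0 := by nlinarith
    by_contra hcon
    push Not at hcon
    nlinarith
  have s4 : ∀ z ∈ A '' K, 1 ≤ z.1 → z.2 ≤ 2 * (1 - z.1) := by
    rintro _ ⟨z, hz, rfl⟩ hz1
    obtain ⟨α, β, hα, hβ, ht⟩ := h.t4
    have h1 := ht z hz
    rw [F3, F4] at h1
    rw [abs_le] at hα hβ
    obtain ⟨α0, α1⟩ := hα
    obtain ⟨β0, β1⟩ := hβ
    set x := (A z).1
    set y := (A z).2
    have c1 : 300 / 1000 ≤ β * (1 - u) - α * a := by nlinarith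
    have c2 : 2 * (β * (1 - u) - α * a) ≤ β * p + α * g3 := by nlinarith
    have c3 : (β * (1 - u) - α * a) * (y - 2 * (1 - x)) ≤ 0 := by nlinarith
    by_contra hcon
    push Not at hcon
    nlinarith
  have s2 : ∀ z ∈ A '' K, z.1 ≤ a → -g2 + 1 / 2 * (a - z.1) ≤ z.2 := by
    rintro _ ⟨z, hz, rfl⟩ hz1
    obtain ⟨α, β, hα, hβ, ht⟩ := h.t2
    have h1 := ht z hz
    rw [F1, F2] at h1
    rw [abs_le] at hα hβ
    obtain ⟨α0, α1⟩ := hα
    obtain ⟨β0, β1⟩ := hβ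
    set x := (A z).1
    set y := (A z).2
    have c1 : 800 / 1000 ≤ α * a + β * (1 - 2 * a) := by nlinarith
    have c2 : (α * a + β * (1 - 2 * a)) / 2 ≤ α * g2 - β * (g2 - g3) := by nlinarith
    have c4 : (α * a + β * (1 - 2 * a)) * (y + g2) ≥ (α * g2 - β * (g2 - g3)) * (a - x) := by
      nlinarith
    have c5 : (α * a + β * (1 - 2 * a)) / 2 * (a - x) ≤ (α * g2 - β * (g2 - g3)) * (a - x) :=
      mul_le_mul_of_nonneg_right c2 (by linarith)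
    by_contra hcon
    push Not at hcon
    nlinarith
  have s3 : ∀ z ∈ A '' K, 1 - a ≤ z.1 → -g3 + 1 / 2 * (z.1 - (1 - a)) ≤ z.2 := by
    rintro _ ⟨z, hz, rfl⟩ hz1
    obtain ⟨α, β, hα, hβ, ht⟩ := h.t3
    have h1 := ht z hz
    rw [F2, F3] at h1
    rw [abs_le] at hα hβ
    obtain ⟨α0, α1⟩ := hα
    obtain ⟨β0, β1⟩ := hβ
    set x := (A z).1
    set y := (A z).2
    have c1 : 800 / 1000 ≤ β * a + α * (1 - 2 * a) := by nlinarith
    have c2 : (β * a + α * (1 - 2 * a)) / 2 ≤ β * g3 - α * (g3 - g2) := by nlinarith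
    have c4 : (β * a + α * (1 - 2 * a)) * (y + g3) ≥
        (β * g3 - α * (g3 - g2)) * (x - (1 - a)) := by
      nlinarith
    have c5 : (β * a + α * (1 - 2 * a)) / 2 * (x - (1 - a)) ≤
        (β * g3 - α * (g3 - g2)) * (x - (1 - a)) :=
      mul_le_mul_of_nonneg_right c2 (by linarith)
    by_contra hcon
    push Not at hcon
    nlinarith
  -- the walls
  obtain ⟨⟨M, hM, hMin⟩, ⟨N, hN, hMax⟩⟩ := exists_ext hB
  have hM0 : M.1 ≤ 0 := hMin _ m1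
  have hN0 : 1 ≤ N.1 := hMax _ m4
  have hM2 := s1 M hM hM0
  have hN2 := s4 N hN hN0
  have hM1 : -M.1 ≤ 1 / 10000 := by
    obtain ⟨z, hz, e⟩ := hM
    have h1 := h.th1 z hz
    rw [F1, e] at h1
    nlinarith
  have hN1 : N.1 - 1 ≤ 1 / 10000 := by
    obtain ⟨z, hz, e⟩ := hN
    have h1 := h.th3 z hz
    rw [F3, e] at h1
    nlinarith
  refine ⟨A, u, p, a, g2, g3, -M.1, N.1 - 1, hcov K, hT, A0, A1, A2, A3, A4, ?_⟩
  refine ⟨hB, m0, m1, m2, m3, m4, u0, u1, p0, p1, a0, a1, g20, g21, g30, g31, by linarith, hM1,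
    by linarith, hN1, ?_, ?_, ⟨M, hM, by ring⟩, ⟨N, hN, by ring⟩, ?_, ?_, ?_, s1, s4, s2, s3⟩
  · intro z hz
    rw [neg_neg]
    exact hMin z hz
  · intro z hz
    have := hMax z hz
    linarith
  · rintro _ ⟨z, hz, rfl⟩
    have := h.th0 z hz
    rw [F0] at this
    linarith
  · rintro _ ⟨z, hz, rfl⟩
    have := h.th4 z hz
    rw [F4] at this
    linarith
  · rintro _ ⟨z, hz, rfl⟩
    have := h.th2 z hz
    rw [F2] at this
    linarith

end Pool.Agent.Helper37.LT
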